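import Mathlib

/-!
The sum `∑_{k < p} (-1)^k binom(a, k)^2` in `ZMod (p ^ 2)`.
-/

namespace Pool.Agent.Helper6.Sun

open Finset

set_option linter.unusedSectionVars false

variable {p : ℕ} [hp : Fact p.Prime]

theorem p_sq_zero : (p : ZMod (p ^ 2)) ^ 2 = 0 := by
  rw [← Nat.cast_pow]
  exact ZMod.natCast_self (p ^ 2)

theorem p_mul_p : (p : ZMod (p ^ 2)) * p = 0 := by
  rw [← sq]; exact p_sq_zero

theorem isUnit_natCast {j : ℕ} (h : ¬ p ∣ j) : IsUnit (j : ZMod (p ^ 2)) := by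
  rw [ZMod.isUnit_iff_coprime]
  exact Nat.Coprime.pow_right 2 ((hp.out.coprime_iff_not_dvd.mpr h).symm)

theorem isUnit_of_lt {j : ℕ} (h0 : 0 < j) (h : j < p) : IsUnit (j : ZMod (p ^ 2)) :=
  isUnit_natCast (Nat.not_dvd_of_pos_of_lt h0 h)

/-- the inverse of `j` -/
noncomputable def v (p j : ℕ) : ZMod (p ^ 2) := (j : ZMod (p ^ 2))⁻¹

theorem mul_v {j : ℕ} (h0 : 0 < j) (h : j < p) : (j : ZMod (p ^ 2)) * v p j = 1 := by
  unfold v
  exact ZMod.mul_inv_of_unit _ (isUnit_of_lt h0 h)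

/-- harmonic numbers -/
noncomputable def H (p n : ℕ) : ZMod (p ^ 2) := ∑ j ∈ range n, v p (j + 1)

theorem H_zero : H p 0 = 0 := rfl
theorem H_succ (n : ℕ) : H p (n + 1) = H p n + v p (n + 1) := Finset.sum_range_succ _ _

theorem isUnit_factorial {k : ℕ} (h : k < p) : IsUnit ((k.factorial : ℕ) : ZMod (p ^ 2)) := by
  apply isUnit_natCast
  rw [hp.out.dvd_factorial]
  omega

/-- the binomial coefficient `binom(a, k)` for `k < p` -/
noncomputable def gb (a : ZMod (p ^ 2)) (k : ℕ) : ZMod (p ^ 2) :=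
  (∏ i ∈ range k, (a - i)) * ((k.factorial : ℕ) : ZMod (p ^ 2))⁻¹

theorem gb_zero (a : ZMod (p ^ 2)) : gb a 0 = 1 := by
  unfold gb
  simp

theorem fact_mul_gb (a : ZMod (p ^ 2)) {k : ℕ} (h : k < p) :
    ((k.factorial : ℕ) : ZMod (p ^ 2)) * gb a k = ∏ i ∈ range k, (a - i) := by
  unfold gb
  rw [mul_comm, mul_assoc, ZMod.inv_mul_of_unit _ (isUnit_factorial h), mul_one]

theorem succ_mul_gb (a : ZMod (p ^ 2)) {k : ℕ} (h : k + 1 < p) :
    ((k + 1 : ℕ) : ZMod (p ^ 2)) * gb a (k + 1) = (a - k) * gb a k := by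
  have h1 := fact_mul_gb a h
  have h2 := fact_mul_gb a (k := k) (by omega)
  rw [Finset.prod_range_succ, ← h2, Nat.factorial_succ, Nat.cast_mul] at h1
  apply (isUnit_factorial (p := p) (k := k) (by omega)).mul_left_cancel
  rw [← mul_assoc, mul_comm ((k.factorial : ℕ) : ZMod (p ^ 2)), h1]
  ring

theorem succ_mul_gb' (a : ZMod (p ^ 2)) {k : ℕ} (h : k + 1 < p) :
    ((k + 1 : ℕ) : ZMod (p ^ 2)) * gb (a + 1) (k + 1) = (a + 1) * gb a k := by
  have h1 := fact_mul_gb (a + 1) h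
  have h2 := fact_mul_gb a (k := k) (by omega)
  have h3 : ∏ i ∈ range (k + 1), (a + 1 - (i : ZMod (p ^ 2))) =
      (a + 1) * ∏ i ∈ range k, (a - (i : ZMod (p ^ 2))) := by
    rw [Finset.prod_range_succ']
    push_cast
    rw [mul_comm]
    congr 1
    · ring
    · apply Finset.prod_congr rfl
      intro i _
      ring
  rw [h3, ← h2, Nat.factorial_succ, Nat.cast_mul] at h1
  apply (isUnit_factorial (p := p) (k := k) (by omega)).mul_left_cancel
  rw [← mul_assoc, mul_comm ((k.factorial : ℕ) : ZMod (p ^ 2)), h1]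
  ring

theorem pascal (a : ZMod (p ^ 2)) {k : ℕ} (h : k + 1 < p) :
    gb (a + 1) (k + 1) = gb a (k + 1) + gb a k := by
  apply (isUnit_of_lt (p := p) (j := k + 1) (by omega) h).mul_left_cancel
  rw [succ_mul_gb' a h, mul_add, succ_mul_gb a h]
  push_cast
  ring

/-- the sum -/
noncomputable def SR (a : ZMod (p ^ 2)) : ZMod (p ^ 2) := ∑ k ∈ range p, (-1) ^ k * gb a k ^ 2

/-- the certificate -/
def Qc (a : ZMod (p ^ 2)) (k : ℕ) : ZMod (p ^ 2) :=
  2 * ((k : ZMod (p ^ 2)) - (a + 2)) ^ 2 - 2 * (a + 1) * ((k : ZMod (p ^ 2)) - (a + 2)) +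
    (a + 2) * (a + 1)

theorem telescope (a : ZMod (p ^ 2)) : ∀ K, K < p →
    ∑ k ∈ range (K + 1), (-1) ^ k * ((a + 1) * (a + 2) * gb (a + 2) k ^ 2 +
      4 * (a + 1) ^ 2 * gb a k ^ 2) = (-1) ^ K * Qc a (K + 1) * gb (a + 1) K ^ 2 := by
  intro K
  induction K with
  | zero =>
    intro _
    rw [Finset.sum_range_succ, Finset.sum_range_zero, gb_zero, gb_zero, gb_zero]
    unfold Qc
    push_cast
    ring
  | succ K ih =>
    intro hK
    rw [Finset.sum_range_succ, ih (by omega)]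
    have hu := isUnit_of_lt (p := p) (j := K + 1) (by omega) hK
    -- express everything by `w = gb (a + 1) K` and `u = gb (a + 1) (K + 1)`
    have h1 := succ_mul_gb (a + 1) hK
    have h2 : gb (a + 2) (K + 1) = gb (a + 1) (K + 1) + gb (a + 1) K := by
      have := pascal (a + 1) hK
      rw [show a + 1 + 1 = a + 2 by ring] at this
      exact this
    -- `(a + 1) gb a (K+1) = (a - K) gb (a+1) (K+1)`
    have h3 : (a + 1) * gb a (K + 1) = (a - (K : ZMod (p ^ 2))) * gb (a + 1) (K + 1) := by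
      apply hu.mul_left_cancel
      have e1 := succ_mul_gb a hK
      have e2 := succ_mul_gb' a hK
      calc ((K + 1 : ℕ) : ZMod (p ^ 2)) * ((a + 1) * gb a (K + 1))
          = (a + 1) * (((K + 1 : ℕ) : ZMod (p ^ 2)) * gb a (K + 1)) := by ring
        _ = (a - (K : ZMod (p ^ 2))) * ((a + 1) * gb a K) := by rw [e1]; ring
        _ = (a - (K : ZMod (p ^ 2))) * (((K + 1 : ℕ) : ZMod (p ^ 2)) * gb (a + 1) (K + 1)) := by rw [e2]
        _ = _ := by ring
    have h4 : 4 * (a + 1) ^ 2 * gb a (K + 1) ^ 2 =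
        4 * ((a - (K : ZMod (p ^ 2))) * gb (a + 1) (K + 1)) ^ 2 := by
      rw [← h3]; ring
    rw [h2, h4]
    obtain ⟨u, hu'⟩ : ∃ u, u = gb (a + 1) (K + 1) := ⟨_, rfl⟩
    obtain ⟨w, hw⟩ : ∃ w, w = gb (a + 1) K := ⟨_, rfl⟩
    rw [← hu', ← hw] at h1 ⊢
    unfold Qc
    push_cast at h1 ⊢
    -- `(K + 1) u = (a + 1 - K) w`
    have key : (a + 1) * (a + 2) * (u + w) ^ 2 + 4 * ((a - (K : ZMod (p ^ 2))) * u) ^ 2 =
        (2 * ((K : ZMod (p ^ 2)) + 1 + 1 - (a + 2)) ^ 2 -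
          2 * (a + 1) * ((K : ZMod (p ^ 2)) + 1 + 1 - (a + 2)) + (a + 2) * (a + 1)) * u ^ 2 +
        (2 * ((K : ZMod (p ^ 2)) + 1 - (a + 2)) ^ 2 -
          2 * (a + 1) * ((K : ZMod (p ^ 2)) + 1 - (a + 2)) + (a + 2) * (a + 1)) * w ^ 2 := by
      linear_combination (-2 * (a - (K : ZMod (p ^ 2))) * u +
        2 * (2 * a + 2 - (K : ZMod (p ^ 2))) * w) * h1
    have e1 : (-1 : ZMod (p ^ 2)) ^ (K + 1) = -(-1) ^ K := by rw [pow_succ]; ring
    rw [e1]
    linear_combination (-(-1) ^ K) * key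

/-- reduction modulo `p` -/
def red (p : ℕ) : ZMod (p ^ 2) →+* ZMod p := ZMod.castHom (dvd_pow_self p two_ne_zero) (ZMod p)

theorem red_eq_zero {a : ZMod (p ^ 2)} (h : red p a = 0) : ∃ c, a = p * c := by
  have hne : NeZero (p ^ 2) := ⟨pow_ne_zero 2 hp.out.ne_zero⟩
  have h1 : a = ((a.val : ℕ) : ZMod (p ^ 2)) := (ZMod.natCast_zmod_val a).symm
  rw [h1, map_natCast, ZMod.natCast_eq_zero_iff] at h
  obtain ⟨c, hc⟩ := h
  exact ⟨c, by rw [h1, hc]; push_cast; rfl⟩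

theorem isUnit_of_red {a : ZMod (p ^ 2)} (h : red p a ≠ 0) : IsUnit a := by
  have hne : NeZero (p ^ 2) := ⟨pow_ne_zero 2 hp.out.ne_zero⟩
  have h1 : a = ((a.val : ℕ) : ZMod (p ^ 2)) := (ZMod.natCast_zmod_val a).symm
  rw [h1, map_natCast, ne_eq, ZMod.natCast_eq_zero_iff] at h
  rw [h1]
  exact isUnit_natCast h

theorem red_of_isUnit {a : ZMod (p ^ 2)} (h : IsUnit a) : red p a ≠ 0 :=
  (h.map (red p)).ne_zero

theorem red_p : red p (p : ZMod (p ^ 2)) = 0 := by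
  rw [map_natCast]
  exact ZMod.natCast_self p

theorem p_mul_eq {a b : ZMod (p ^ 2)} (h : red p a = red p b) :
    (p : ZMod (p ^ 2)) * a = p * b := by
  have h1 : red p (a - b) = 0 := by rw [map_sub, h, sub_self]
  obtain ⟨c, hc⟩ := red_eq_zero h1
  have h2 : a = b + p * c := by rw [← hc]; ring
  rw [h2, mul_add, ← mul_assoc, p_mul_p, zero_mul, add_zero]

theorem isUnit_add_p {a : ZMod (p ^ 2)} (h : IsUnit a) (c : ZMod (p ^ 2)) :
    IsUnit ((p : ZMod (p ^ 2)) * c + a) := by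
  apply isUnit_of_red
  rw [map_add, map_mul, red_p, zero_mul, zero_add]
  exact red_of_isUnit h

theorem gb_sq_zero {b : ZMod (p ^ 2)} (hb : IsUnit (b + 1)) : gb b (p - 1) ^ 2 = 0 := by
  have hp1 := hp.out.one_lt
  have hpne : NeZero p := ⟨hp.out.ne_zero⟩
  -- the index of the factor divisible by `p`
  obtain ⟨i, hi⟩ : ∃ i, i = (red p b).val := ⟨_, rfl⟩
  have hilt : i < p := by rw [hi]; exact ZMod.val_lt _
  have hired : red p b = (i : ZMod p) := by rw [hi, ZMod.natCast_zmod_val]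
  have hi1 : i < p - 1 := by
    by_contra hc
    have h1 : i = p - 1 := by omega
    apply red_of_isUnit hb
    rw [map_add, map_one, hired, h1, Nat.cast_sub hp1.le, ZMod.natCast_self]
    simp
  have h1 : red p (b - (i : ZMod (p ^ 2))) = 0 := by
    rw [map_sub, map_natCast, hired, sub_self]
  obtain ⟨c, hc⟩ := red_eq_zero h1
  have h2 := fact_mul_gb b (k := p - 1) (by omega)
  have h3 : ∃ d, ∏ i ∈ range (p - 1), (b - (i : ZMod (p ^ 2))) = p * d := by
    refine ⟨c * ∏ j ∈ (range (p - 1)).erase i, (b - (j : ZMod (p ^ 2))), ?_⟩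
    rw [← Finset.mul_prod_erase _ _ (mem_range.mpr hi1), hc]
    ring
  obtain ⟨d, hd⟩ := h3
  have hu := isUnit_factorial (p := p) (k := p - 1) (by omega)
  have h4 : (((p - 1).factorial : ℕ) : ZMod (p ^ 2)) ^ 2 * gb b (p - 1) ^ 2 = 0 := by
    rw [← mul_pow, h2, hd, mul_pow, p_sq_zero, zero_mul]
  exact (hu.pow 2).mul_right_eq_zero.mp h4

theorem SR_rec {a : ZMod (p ^ 2)} (h1 : IsUnit (a + 1)) (h2 : IsUnit (a + 2)) :
    (a + 2) * SR (a + 2) = -4 * (a + 1) * SR a := by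
  have hp1 := hp.out.one_lt
  have ht := telescope a (p - 1) (by omega)
  rw [Nat.sub_add_cancel hp1.le, gb_sq_zero (by rw [show a + 1 + 1 = a + 2 by ring]; exact h2),
    mul_zero] at ht
  have h3 : (a + 1) * ((a + 2) * SR (a + 2) + 4 * (a + 1) * SR a) = 0 := by
    rw [← ht]
    unfold SR
    rw [Finset.mul_sum, Finset.mul_sum, ← Finset.sum_add_distrib, Finset.mul_sum]
    apply Finset.sum_congr rfl
    intro k _
    ring
  have h4 := h1.mul_right_eq_zero.mp h3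
  linear_combination h4

theorem SR_init (c : ZMod (p ^ 2)) : SR ((p : ZMod (p ^ 2)) * c) = 1 := by
  have hp1 := hp.out.one_lt
  unfold SR
  obtain ⟨q, hq⟩ : ∃ q, p = q + 1 := ⟨p - 1, by omega⟩
  have h1 : ∀ k, k < p - 1 → gb ((p : ZMod (p ^ 2)) * c) (k + 1) ^ 2 = 0 := by
    intro k hk
    have h2 := fact_mul_gb ((p : ZMod (p ^ 2)) * c) (k := k + 1) (by omega)
    have hu := isUnit_factorial (p := p) (k := k + 1) (by omega)
    rw [Finset.prod_range_succ'] at h2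
    have h4 : (((k + 1).factorial : ℕ) : ZMod (p ^ 2)) ^ 2 *
        gb ((p : ZMod (p ^ 2)) * c) (k + 1) ^ 2 = 0 := by
      rw [← mul_pow, h2]
      push_cast
      rw [sub_zero, mul_pow, mul_pow, p_sq_zero]
      ring
    exact (hu.pow 2).mul_right_eq_zero.mp h4
  have h2 : range p = range ((p - 1) + 1) := by rw [Nat.sub_add_cancel hp1.le]
  rw [h2, Finset.sum_range_succ', gb_zero]
  rw [Finset.sum_eq_zero]
  · simp
  · intro k hk
    rw [h1 k (mem_range.mp hk), mul_zero]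

theorem isUnit_a (c : ZMod (p ^ 2)) {j : ℕ} (h0 : 0 < j) (h : j < p) :
    IsUnit ((p : ZMod (p ^ 2)) * c + (j : ZMod (p ^ 2))) :=
  isUnit_add_p (isUnit_of_lt h0 h) c

/-- the value of the sum -/
theorem SR_eq (c : ZMod (p ^ 2)) : ∀ n, 2 * n < p →
    SR ((p : ZMod (p ^ 2)) * c + ((2 * n : ℕ) : ZMod (p ^ 2))) =
      (-1) ^ n * ((Nat.choose (2 * n) n : ℕ) : ZMod (p ^ 2)) *
        (1 + (p : ZMod (p ^ 2)) * c * (H p (2 * n) - H p n)) := by
  intro n
  induction n with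
  | zero =>
    intro _
    have := SR_init (p := p) c
    simp only [mul_zero, Nat.cast_zero, add_zero, pow_zero, Nat.choose_self, Nat.cast_one, one_mul,
      sub_self]
    exact this
  | succ n ih =>
    intro hn
    have h1 := ih (by omega)
    obtain ⟨a, ha⟩ : ∃ a, a = (p : ZMod (p ^ 2)) * c + ((2 * n : ℕ) : ZMod (p ^ 2)) := ⟨_, rfl⟩
    have e1 : a + 1 = (p : ZMod (p ^ 2)) * c + ((2 * n + 1 : ℕ) : ZMod (p ^ 2)) := by
      rw [ha]; push_cast; ring
    have e2 : a + 2 = (p : ZMod (p ^ 2)) * c + ((2 * n + 2 : ℕ) : ZMod (p ^ 2)) := by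
      rw [ha]; push_cast; ring
    have u1 : IsUnit (a + 1) := by rw [e1]; exact isUnit_a c (by omega) (by omega)
    have u2 : IsUnit (a + 2) := by rw [e2]; exact isUnit_a c (by omega) (by omega)
    have h2 := SR_rec u1 u2
    rw [← ha] at h1
    have e3 : (p : ZMod (p ^ 2)) * c + ((2 * (n + 1) : ℕ) : ZMod (p ^ 2)) = a + 2 := by
      rw [e2]; push_cast; ring
    rw [e3]
    apply u2.mul_left_cancel
    rw [h2, h1, show 2 * (n + 1) = 2 * n + 1 + 1 by ring, H_succ, H_succ, H_succ]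
    -- inverses
    have m1 := mul_v (p := p) (j := 2 * n + 1) (by omega) (by omega)
    have m2 := mul_v (p := p) (j := 2 * n + 1 + 1) (by omega) (by omega)
    have m3 := mul_v (p := p) (j := n + 1) (by omega) (by omega)
    have hpp := p_mul_p (p := p)
    have hcb : ((n + 1 : ℕ) : ZMod (p ^ 2)) *
        ((Nat.choose (2 * n + 1 + 1) (n + 1) : ℕ) : ZMod (p ^ 2)) =
        2 * (2 * n + 1) * ((Nat.choose (2 * n) n : ℕ) : ZMod (p ^ 2)) := by
      have := Nat.succ_mul_centralBinom_succ n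
      unfold Nat.centralBinom at this
      rw [show 2 * n + 1 + 1 = 2 * (n + 1) by ring]
      have h5 : (((n + 1) * Nat.choose (2 * (n + 1)) (n + 1) : ℕ) : ZMod (p ^ 2)) =
          ((2 * (2 * n + 1) * Nat.choose (2 * n) n : ℕ) : ZMod (p ^ 2)) := by rw [this]
      push_cast at h5 ⊢
      exact h5
    have un : IsUnit ((n + 1 : ℕ) : ZMod (p ^ 2)) := isUnit_of_lt (by omega) (by omega)
    apply un.mul_left_cancel
    have e4 : (-1 : ZMod (p ^ 2)) ^ (n + 1) = -(-1) ^ n := by rw [pow_succ]; ring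
    rw [e4, ha]
    push_cast at m1 m2 m3 hcb ⊢
    have E : 4 * ((n : ZMod (p ^ 2)) + 1) * ((p : ZMod (p ^ 2)) * c + 2 * n + 1) *
        (1 + (p : ZMod (p ^ 2)) * c * (H p (2 * n) - H p n)) =
        2 * (2 * n + 1) * ((p : ZMod (p ^ 2)) * c + 2 * n + 2) *
          (1 + (p : ZMod (p ^ 2)) * c * (H p (2 * n) + v p (2 * n + 1) + v p (2 * n + 1 + 1) -
            (H p n + v p (n + 1)))) := by
      linear_combination (c ^ 2 * (4 * ((n : ZMod (p ^ 2)) + 1) * (H p (2 * n) - H p n) -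
        2 * (2 * n + 1) * (H p (2 * n) + v p (2 * n + 1) + v p (2 * n + 1 + 1) -
            (H p n + v p (n + 1))))) * hpp - 4 * ((n : ZMod (p ^ 2)) + 1) * p * c * m1 -
        2 * (2 * (n : ZMod (p ^ 2)) + 1) * p * c * m2 +
        4 * (2 * (n : ZMod (p ^ 2)) + 1) * p * c * m3
    linear_combination (-(-1) ^ n * ((Nat.choose (2 * n) n : ℕ) : ZMod (p ^ 2))) * E +
      (-1) ^ n * ((p : ZMod (p ^ 2)) * c + 2 * n + 2) *
        (1 + (p : ZMod (p ^ 2)) * c * (H p (2 * n) + v p (2 * n + 1) + v p (2 * n + 1 + 1) -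
            (H p n + v p (n + 1)))) * hcb

end Pool.Agent.Helper6.Sun
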