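import Mathlib

/-!
The octic Jacobi sum in terms of two integers.
-/

namespace Pool.Agent.Helper6.Sun

open Finset

theorem sum_range_eight {M : Type*} [AddCommMonoid M] (F : ℕ → M) (f : ℕ) :
    ∑ i ∈ range (8 * f), F i = ∑ j ∈ range f, (F (8 * j) + F (8 * j + 1) + F (8 * j + 2) +
      F (8 * j + 3) + F (8 * j + 4) + F (8 * j + 5) + F (8 * j + 6) + F (8 * j + 7)) := by
  induction f with
  | zero => simp
  | succ f ih =>
    rw [Finset.sum_range_succ, ← ih, show 8 * (f + 1) = 8 * f + 1 + 1 + 1 + 1 + 1 + 1 + 1 + 1 by ring]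
    simp only [Finset.sum_range_succ]
    simp only [add_assoc]

/-- the data: `a m = φ(1 - g ^ m)` -/
structure OctData (f : ℕ) (a : ℕ → ℤ) : Prop where
  symm : ∀ m, m ≤ 8 * f → a (8 * f - m) = (-1) ^ m * a m
  zero : a 0 = 0
  unit : ∀ m, 0 < m → m < 8 * f → a m = 1 ∨ a m = -1
  mid : a (4 * f) = 1

/-- partial sums -/
def TT (f : ℕ) (a : ℕ → ℤ) (k : ℕ) : ℤ := ∑ j ∈ range f, a (8 * j + k)

theorem TT_symm {f : ℕ} {a : ℕ → ℤ} (h : OctData f a) {k : ℕ} (hk0 : 0 < k) (hk : k < 8) :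
    TT f a (8 - k) = (-1) ^ k * TT f a k := by
  unfold TT
  rw [← Finset.sum_range_reflect, Finset.mul_sum]
  apply Finset.sum_congr rfl
  intro j hj
  have hj' := mem_range.mp hj
  have e1 : 8 * (f - 1 - j) + (8 - k) = 8 * f - (8 * j + k) := by omega
  rw [e1, h.symm _ (by omega)]
  congr 1
  rw [pow_add, pow_mul]
  simp

/-- the real part -/
def cc (f : ℕ) (a : ℕ → ℤ) : ℤ := TT f a 0 - TT f a 4
/-- the imaginary part -/
def dd (f : ℕ) (a : ℕ → ℤ) : ℤ := TT f a 1 + TT f a 3

theorem oct_sum {f : ℕ} {a : ℕ → ℤ} (h : OctData f a) {R : Type*} [CommRing R] {z : R}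
    (hz : z ^ 4 = -1) :
    ∑ i ∈ range (8 * f), z ^ i * (a i : R) = (cc f a : R) + (dd f a : R) * (z + z ^ 3) := by
  have h6 := TT_symm h (k := 2) (by norm_num) (by norm_num)
  have h7 := TT_symm h (k := 1) (by norm_num) (by norm_num)
  have h5 := TT_symm h (k := 3) (by norm_num) (by norm_num)
  norm_num at h6 h7 h5
  have h8 : z ^ 8 = 1 := by
    have : z ^ 8 = (z ^ 4) ^ 2 := by ring
    rw [this, hz]; ring
  rw [sum_range_eight]
  have e1 : ∀ j ∈ range f, (z ^ (8 * j) * (a (8 * j) : R) + z ^ (8 * j + 1) * (a (8 * j + 1) : R) +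
      z ^ (8 * j + 2) * (a (8 * j + 2) : R) + z ^ (8 * j + 3) * (a (8 * j + 3) : R) +
      z ^ (8 * j + 4) * (a (8 * j + 4) : R) + z ^ (8 * j + 5) * (a (8 * j + 5) : R) +
      z ^ (8 * j + 6) * (a (8 * j + 6) : R) + z ^ (8 * j + 7) * (a (8 * j + 7) : R)) =
      (a (8 * j + 0) : R) + z * (a (8 * j + 1) : R) +
      z ^ 2 * (a (8 * j + 2) : R) + z ^ 3 * (a (8 * j + 3) : R) -
      (a (8 * j + 4) : R) - z * (a (8 * j + 5) : R) -
      z ^ 2 * (a (8 * j + 6) : R) - z ^ 3 * (a (8 * j + 7) : R) := by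
    intro j _
    have e2 : z ^ (8 * j) = 1 := by rw [pow_mul, h8, one_pow]
    simp only [pow_add, e2, add_zero]
    linear_combination ((a (8 * j + 4) : R) + z * (a (8 * j + 5) : R) +
      z ^ 2 * (a (8 * j + 6) : R) + z ^ 3 * (a (8 * j + 7) : R)) * hz
  rw [Finset.sum_congr rfl e1]
  simp only [Finset.sum_add_distrib, Finset.sum_sub_distrib, ← Finset.mul_sum]
  have hT : ∀ k, ∑ j ∈ range f, (a (8 * j + k) : R) = ((TT f a k : ℤ) : R) := by
    intro k
    unfold TT
    push_cast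
    rfl
  rw [hT, hT, hT, hT, hT, hT, hT, hT, h6, h7, h5]
  unfold cc dd
  push_cast
  ring

/-- an involution argument modulo `4` -/
theorem four_dvd_sum {s : Finset ℕ} (σ : ℕ → ℕ) (b : ℕ → ℤ) (hσ : ∀ j ∈ s, σ j ∈ s)
    (hinv : ∀ j ∈ s, σ (σ j) = j) (hb : ∀ j ∈ s, b (σ j) = b j)
    (hu : ∀ j ∈ s, b j = 1 ∨ b j = -1) (hfix : ∀ j ∈ s, σ j = j → b j = 1) :
    (4 : ℤ) ∣ ∑ j ∈ s, (1 - b j) := by
  classical
  have h1 : ∑ j ∈ s, (if b j = -1 then (1 : ZMod 2) else 0) = 0 := by
    apply Finset.sum_involution (fun j _ => σ j)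
    · intro j hj
      rw [hb j hj]
      split_ifs
      · decide
      · rfl
    · intro j hj hne heq
      apply hne
      rw [if_neg]
      rw [hfix j hj heq]
      decide
    · intro j hj; exact hσ j hj
    · intro j hj; exact hinv j hj
  have h2 : ∑ j ∈ s, (1 - b j) = 2 * ∑ j ∈ s, (if b j = -1 then (1 : ℤ) else 0) := by
    rw [Finset.mul_sum]
    apply Finset.sum_congr rfl
    intro j hj
    rcases hu j hj with h | h <;> rw [h] <;> norm_num
  have h3 : (2 : ℤ) ∣ ∑ j ∈ s, (if b j = -1 then (1 : ℤ) else 0) := by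
    have := (ZMod.intCast_zmod_eq_zero_iff_dvd (∑ j ∈ s, (if b j = -1 then (1 : ℤ) else 0)) 2)
    push_cast at this
    exact this.mp h1
  obtain ⟨c, hc⟩ := h3
  rw [h2, hc]
  exact ⟨c, by ring⟩

theorem cc_mod_four {f : ℕ} {a : ℕ → ℤ} (h : OctData f a) (hf : 0 < f) :
    (4 : ℤ) ∣ cc f a + 1 := by
  -- the sum over `j ≡ 0`
  have h0 : (4 : ℤ) ∣ ∑ j ∈ Ico 1 f, (1 - a (8 * j)) := by
    apply four_dvd_sum (fun j => f - j) (fun j => a (8 * j))
    · intro j hj
      rw [Finset.mem_Ico] at hj ⊢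
      omega
    · intro j hj
      rw [Finset.mem_Ico] at hj
      omega
    · intro j hj
      rw [Finset.mem_Ico] at hj
      have := h.symm (8 * j) (by omega)
      rw [pow_mul] at this
      norm_num at this
      rw [← this]
      congr 1
      omega
    · intro j hj
      rw [Finset.mem_Ico] at hj
      exact h.unit _ (by omega) (by omega)
    · intro j hj hfix
      rw [Finset.mem_Ico] at hj
      have : 8 * j = 4 * f := by omega
      rw [this]
      exact h.mid
  have h4 : (4 : ℤ) ∣ ∑ j ∈ range f, (1 - a (8 * j + 4)) := by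
    apply four_dvd_sum (fun j => f - 1 - j) (fun j => a (8 * j + 4))
    · intro j hj
      rw [mem_range] at hj ⊢
      omega
    · intro j hj
      rw [mem_range] at hj
      omega
    · intro j hj
      rw [mem_range] at hj
      have := h.symm (8 * j + 4) (by omega)
      rw [pow_add, pow_mul] at this
      norm_num at this
      rw [← this]
      congr 1
      omega
    · intro j hj
      rw [mem_range] at hj
      exact h.unit _ (by omega) (by omega)
    · intro j hj hfix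
      rw [mem_range] at hj
      have : 8 * j + 4 = 4 * f := by omega
      rw [this]
      exact h.mid
  have e0 : TT f a 0 = ∑ j ∈ Ico 1 f, a (8 * j) := by
    unfold TT
    rw [Finset.sum_Ico_eq_sub _ (by omega : 1 ≤ f)]
    simp [h.zero]
  rw [Finset.sum_sub_distrib] at h0 h4
  simp only [Finset.sum_const, Nat.card_Ico, Finset.card_range, nsmul_eq_mul, mul_one]
    at h0 h4
  rw [← e0] at h0
  have e4 : ∑ j ∈ range f, a (8 * j + 4) = TT f a 4 := rfl
  rw [e4] at h4
  unfold cc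
  rw [Nat.cast_sub (by omega)] at h0
  push_cast at h0
  omega

end Pool.Agent.Helper6.Sun
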