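import Mathlib
import Pool.Agent.Helper6.Sun.Octic

/-!
The octic Jacobi sum for `p = 8 f + 1`.
-/

namespace Pool.Agent.Helper6.Sun

open Finset

/-- a sum over a finite field in terms of a generator -/
theorem sum_field {F : Type*} [Field F] [Fintype F] [DecidableEq F] {g : Fˣ}
    (hg : ∀ x, x ∈ Subgroup.zpowers g) {M : Type*} [AddCommMonoid M] (G : F → M) :
    ∑ x : F, G x = G 0 + ∑ i ∈ range (Fintype.card F - 1), G ((g : F) ^ i) := by
  have hord : orderOf g = Fintype.card F - 1 := by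
    rw [orderOf_eq_card_of_forall_mem_zpowers hg, Nat.card_eq_fintype_card, Fintype.card_units]
  have h1 : ∑ x : F, G x = G 0 + ∑ x ∈ univ.erase (0 : F), G x :=
    (Finset.add_sum_erase univ G (mem_univ 0)).symm
  rw [h1]
  congr 1
  symm
  apply Finset.sum_bij (fun i _ => (g : F) ^ i)
  · intro i _
    rw [Finset.mem_erase]
    exact ⟨pow_ne_zero _ (Units.ne_zero g), mem_univ _⟩
  · intro i hi j hj hij
    rw [mem_range, ← hord] at hi hj
    have h2 : g ^ i = g ^ j := by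
      apply Units.ext
      push_cast
      exact hij
    exact pow_injOn_Iio_orderOf hi hj h2
  · intro x hx
    rw [Finset.mem_erase] at hx
    obtain ⟨i, hi, hix⟩ := (mem_zpowers_iff_mem_range_orderOf (x := g)
      (y := Units.mk0 x hx.1)).mp (hg _) |> Finset.mem_image.mp
    refine ⟨i, by rwa [hord] at hi, ?_⟩
    have := congrArg (Units.val) hix
    simpa using this
  · intro i _
    rfl

section

variable {p f : ℕ} [hp : Fact p.Prime]

theorem ringChar_ne_two (hp2 : p ≠ 2) : ringChar (ZMod p) ≠ 2 := by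
  rw [ZMod.ringChar_zmod_n]; exact hp2

theorem order_pred {g : (ZMod p)ˣ} (hg : ∀ x, x ∈ Subgroup.zpowers g) : orderOf g = p - 1 := by
  rw [orderOf_eq_card_of_forall_mem_zpowers hg, Nat.card_eq_fintype_card, ZMod.card_units]

theorem gen_pow_pred {g : (ZMod p)ˣ} : ((g : ZMod p)) ^ (p - 1) = 1 :=
  ZMod.pow_card_sub_one_eq_one (Units.ne_zero g)

theorem gen_pow_eq_one {g : (ZMod p)ˣ} (hg : ∀ x, x ∈ Subgroup.zpowers g) {m : ℕ}
    (h : (g : ZMod p) ^ m = 1) : p - 1 ∣ m := by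
  rw [← order_pred hg]
  apply orderOf_dvd_of_pow_eq_one
  apply Units.ext
  push_cast
  exact h

theorem quadChar_gen (hp2 : p ≠ 2) {g : (ZMod p)ˣ} (hg : ∀ x, x ∈ Subgroup.zpowers g) :
    quadraticChar (ZMod p) (g : ZMod p) = -1 := by
  rw [quadraticChar_neg_one_iff_not_isSquare]
  rintro ⟨h, hh⟩
  have hodd := hp.out.odd_of_ne_two hp2
  obtain ⟨t, ht⟩ := hodd
  have hp1 := hp.out.two_le
  have h0 : h ≠ 0 := by
    rintro rfl
    exact Units.ne_zero g (by rw [hh]; ring)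
  have h1 : (g : ZMod p) ^ t = 1 := by
    rw [hh, ← sq, ← pow_mul]
    have : 2 * t = p - 1 := by omega
    rw [this]
    exact ZMod.pow_card_sub_one_eq_one h0
  have := Nat.le_of_dvd (by omega) (gen_pow_eq_one hg h1)
  omega

theorem gen_half {g : (ZMod p)ˣ} (hg : ∀ x, x ∈ Subgroup.zpowers g) {t : ℕ}
    (ht : 2 * t = p - 1) : (g : ZMod p) ^ t = -1 := by
  have h1 : ((g : ZMod p) ^ t) ^ 2 = 1 := by
    rw [← pow_mul, mul_comm, ht]; exact gen_pow_pred
  have hp1 := hp.out.two_le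
  rcases sq_eq_one_iff.mp h1 with h | h
  · exfalso
    have := Nat.le_of_dvd (by omega) (gen_pow_eq_one hg h)
    omega
  · exact h

/-- the quadratic character at `1 - g ^ m` -/
noncomputable def aa (g : (ZMod p)ˣ) (m : ℕ) : ℤ := quadraticChar (ZMod p) (1 - (g : ZMod p) ^ m)

theorem octData (hpf : p = 8 * f + 1) (hf : 0 < f) {g : (ZMod p)ˣ}
    (hg : ∀ x, x ∈ Subgroup.zpowers g) : OctData f (aa g) := by
  have hp2 : p ≠ 2 := by omega
  have hpred : p - 1 = 8 * f := by omega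
  have hg1 : (g : ZMod p) ^ (8 * f) = 1 := by rw [← hpred]; exact gen_pow_pred
  have hm1 : quadraticChar (ZMod p) (-1) = 1 := by
    rw [quadraticChar_neg_one (ringChar_ne_two hp2), ZMod.card, ZMod.χ₄_nat_one_mod_four (by omega)]
  refine ⟨?_, ?_, ?_, ?_⟩
  · intro m hm
    have h1 : (1 - (g : ZMod p) ^ (8 * f - m)) * (g : ZMod p) ^ m =
        (-1) * (1 - (g : ZMod p) ^ m) := by
      have : (g : ZMod p) ^ (8 * f - m) * (g : ZMod p) ^ m = 1 := by
        rw [← pow_add, Nat.sub_add_cancel hm, hg1]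
      linear_combination -this
    have h2 := congrArg (quadraticChar (ZMod p)) h1
    rw [map_mul, map_mul, map_pow, quadChar_gen hp2 hg, hm1, one_mul] at h2
    have h3 : ((-1 : ℤ) ^ m) * (-1) ^ m = 1 := by rw [← mul_pow]; simp
    unfold aa
    linear_combination ((-1 : ℤ) ^ m) * h2 - quadraticChar (ZMod p) (1 - (g : ZMod p) ^ (8 * f - m)) * h3
  · unfold aa
    rw [pow_zero, sub_self, quadraticChar_zero]
  · intro m hm0 hm
    apply quadraticChar_dichotomy
    intro h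
    have h1 : (g : ZMod p) ^ m = 1 := by linear_combination -h
    have := Nat.le_of_dvd hm0 (gen_pow_eq_one hg h1)
    omega
  · unfold aa
    rw [gen_half hg (t := 4 * f) (by omega), sub_neg_eq_add, one_add_one_eq_two,
      quadraticChar_one_iff_isSquare, ZMod.exists_sq_eq_two_iff hp2]
    · left; omega
    · have : ((2 : ℕ) : ZMod p) ≠ 0 := by
        rw [ne_eq, ZMod.natCast_eq_zero_iff]
        intro h
        have := Nat.le_of_dvd (by norm_num) h
        omega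
      exact_mod_cast this

/-- the norm -/
theorem norm_eq (hpf : p = 8 * f + 1) (hf : 0 < f) {g : (ZMod p)ˣ}
    (hg : ∀ x, x ∈ Subgroup.zpowers g) :
    (p : ℤ) = cc f (aa g) ^ 2 + 2 * dd f (aa g) ^ 2 := by
  have hp2 : p ≠ 2 := by omega
  have hO := octData hpf hf hg
  -- a primitive eighth root of unity in `ℂ`
  obtain ⟨ζ, hζ⟩ : ∃ ζ : ℂ, IsPrimitiveRoot ζ 8 := ⟨_, Complex.isPrimitiveRoot_exp 8 (by norm_num)⟩
  have hζ8 : ζ ^ 8 = 1 := hζ.pow_eq_one
  have hζ4 : ζ ^ 4 = -1 := by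
    have h1 : (ζ ^ 4) ^ 2 = 1 := by rw [← pow_mul]; exact hζ8
    rcases sq_eq_one_iff.mp h1 with h | h
    · exfalso
      have := hζ.dvd_of_pow_eq_one 4 h
      omega
    · exact h
  have hζ0 : ζ ≠ 0 := by
    rintro rfl
    norm_num at hζ8
  obtain ⟨u, hu⟩ : ∃ u : ℂˣ, (u : ℂ) = ζ := ⟨Units.mk0 ζ hζ0, rfl⟩
  have humem : u ∈ rootsOfUnity (Fintype.card (ZMod p)ˣ) ℂ := by
    rw [mem_rootsOfUnity, ZMod.card_units, show p - 1 = 8 * f by omega, pow_mul]
    have : u ^ 8 = 1 := by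
      apply Units.ext
      push_cast
      rw [hu, hζ8]
    rw [this, one_pow]
  obtain ⟨χ, hχ⟩ : ∃ χ : MulChar (ZMod p) ℂ, χ (g : ZMod p) = ζ :=
    ⟨MulChar.ofRootOfUnity humem hg, by rw [MulChar.ofRootOfUnity_spec humem hg, hu]⟩
  obtain ⟨φ, hφ⟩ : ∃ φ : MulChar (ZMod p) ℂ, φ = (quadraticChar (ZMod p)).ringHomComp (Int.castRingHom ℂ) :=
    ⟨_, rfl⟩
  have hφa : ∀ x, φ x = ((quadraticChar (ZMod p) x : ℤ) : ℂ) := by
    intro x
    rw [hφ, MulChar.ringHomComp_apply]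
    rfl
  have hφg : φ (g : ZMod p) = -1 := by rw [hφa, quadChar_gen hp2 hg]; norm_num
  have hχ1 : χ ≠ 1 := by
    intro h
    rw [h, MulChar.one_apply_coe] at hχ
    rw [← hχ] at hζ4
    norm_num at hζ4
  have hφ1 : φ ≠ 1 := by
    intro h
    rw [h, MulChar.one_apply_coe] at hφg
    norm_num at hφg
  have hχφ1 : χ * φ ≠ 1 := by
    intro h
    have h1 : (χ * φ) (g : ZMod p) = 1 := by rw [h, MulChar.one_apply_coe]
    rw [MulChar.mul_apply, hχ, hφg] at h1
    have h2 : ζ = -1 := by linear_combination -h1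
    rw [h2] at hζ4
    norm_num at hζ4
  have hφinv : φ⁻¹ = φ := by
    have : φ.IsQuadratic := by
      rw [hφ]
      exact (quadraticChar_isQuadratic (ZMod p)).comp _
    exact this.inv
  have hJ := jacobiSum_mul_jacobiSum_inv (F := ZMod p) (F' := ℂ) (by
    rw [ZMod.ringChar_zmod_n, ringChar.eq_zero]
    exact hp.out.ne_zero.symm) hχ1 hφ1 hχφ1
  rw [hφinv, ZMod.card] at hJ
  have key : ∀ (ψ : MulChar (ZMod p) ℂ) (z : ℂ), ψ (g : ZMod p) = z → z ^ 4 = -1 →
      jacobiSum ψ φ = (cc f (aa g) : ℂ) + (dd f (aa g) : ℂ) * (z + z ^ 3) := by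
    intro ψ z hψ hz
    rw [← oct_sum hO hz]
    unfold jacobiSum
    rw [sum_field hg, ψ.map_zero, zero_mul, zero_add, ZMod.card, show p - 1 = 8 * f by omega]
    apply Finset.sum_congr rfl
    intro i _
    rw [map_pow, hψ, hφa]
    rfl
  have h1 := key χ ζ hχ hζ4
  have h2 := key χ⁻¹ (-ζ ^ 3) (by
    rw [MulChar.inv_apply_eq_inv', hχ]
    apply inv_eq_of_mul_eq_one_right
    linear_combination -hζ4) (by
      linear_combination (ζ ^ 8 - ζ ^ 4 + 1) * hζ4)
  rw [h1, h2] at hJ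
  have h3 : ((p : ℤ) : ℂ) = ((cc f (aa g) ^ 2 + 2 * dd f (aa g) ^ 2 : ℤ) : ℂ) := by
    push_cast
    obtain ⟨c, hc⟩ : ∃ c, c = (cc f (aa g) : ℂ) := ⟨_, rfl⟩
    obtain ⟨d, hd⟩ : ∃ d, d = (dd f (aa g) : ℂ) := ⟨_, rfl⟩
    rw [← hJ, ← hc, ← hd]
    linear_combination (-(d ^ 2 * (ζ ^ 2 + 2) - (c + d * (ζ + ζ ^ 3)) * d * ζ * (1 - ζ ^ 4))) * hζ4
  exact_mod_cast h3

end

end Pool.Agent.Helper6.Sun
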