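import Mathlib
import Pool.Agent.Helper6.Sun.Basic

/-!
Binomial sums modulo `p ^ 2`.
-/

namespace Pool.Agent.Helper6.Sun

open Finset

set_option linter.unusedSectionVars false

variable {p : ℕ} [hp : Fact p.Prime]

theorem choose_pred (j : ℕ) (hj : j < p) :
    red p ((Nat.choose (p - 1) j : ℕ) : ZMod (p ^ 2)) = (-1) ^ j := by
  rw [map_natCast]
  induction j with
  | zero => simp
  | succ j ih =>
    have h1 := ih (by omega)
    have hp1 := hp.out.one_lt
    have h2 : Nat.choose (p - 1 + 1) (j + 1) = Nat.choose (p - 1) j + Nat.choose (p - 1) (j + 1) :=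
      Nat.choose_succ_succ _ _
    rw [Nat.sub_add_cancel hp1.le] at h2
    have h3 : p ∣ Nat.choose p (j + 1) := hp.out.dvd_choose_self (by omega) hj
    have h4 : ((Nat.choose p (j + 1) : ℕ) : ZMod p) = 0 := (ZMod.natCast_eq_zero_iff _ _).mpr h3
    rw [h2, Nat.cast_add, h1] at h4
    rw [pow_succ]
    linear_combination h4

theorem choose_p {m : ℕ} (h0 : 0 < m) (hm : m < p) :
    ((Nat.choose p m : ℕ) : ZMod (p ^ 2)) = -(p : ZMod (p ^ 2)) * (-1) ^ m * v p m := by
  obtain ⟨j, rfl⟩ : ∃ j, m = j + 1 := ⟨m - 1, by omega⟩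
  have hp1 := hp.out.one_lt
  have h1 := Nat.add_one_mul_choose_eq (p - 1) j
  rw [Nat.sub_add_cancel hp1.le] at h1
  have h2 : ((p * Nat.choose (p - 1) j : ℕ) : ZMod (p ^ 2)) =
      ((Nat.choose p (j + 1) * (j + 1) : ℕ) : ZMod (p ^ 2)) := by rw [h1]
  rw [Nat.cast_mul, Nat.cast_mul, p_mul_eq (b := (-1) ^ j) (by
    rw [choose_pred j (by omega), map_pow, map_neg, map_one])] at h2
  have h3 := mul_v (p := p) h0 hm
  have e : (-1 : ZMod (p ^ 2)) ^ (j + 1) = -(-1) ^ j := by rw [pow_succ]; ring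
  rw [e]
  linear_combination (-((Nat.choose p (j + 1) : ℕ) : ZMod (p ^ 2))) * h3 - v p (j + 1) * h2

/-- the logarithm part -/
noncomputable def LL (p : ℕ) {R : Type*} [CommRing R] [Algebra (ZMod (p ^ 2)) R] (X : R) : R :=
  ∑ l ∈ Ico 1 p, algebraMap (ZMod (p ^ 2)) R (v p l * (-1) ^ l) * X ^ l

theorem one_add_pow {R : Type*} [CommRing R] [Algebra (ZMod (p ^ 2)) R] (X : R) :
    (1 + X) ^ p = 1 + X ^ p - (p : R) * LL p X := by
  have hp1 := hp.out.one_lt
  rw [add_comm, add_pow, Finset.sum_range_succ, ← Finset.sum_range_add_sum_Ico _ hp1.le]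
  unfold LL
  rw [Finset.range_one, Finset.sum_singleton, Finset.mul_sum]
  have h1 : ∑ k ∈ Ico 1 p, X ^ k * 1 ^ (p - k) * ((Nat.choose p k : ℕ) : R) =
      -∑ l ∈ Ico 1 p, (p : R) * (algebraMap (ZMod (p ^ 2)) R (v p l * (-1) ^ l) * X ^ l) := by
    rw [← Finset.sum_neg_distrib]
    apply Finset.sum_congr rfl
    intro k hk
    rw [Finset.mem_Ico] at hk
    have h2 := choose_p (p := p) (m := k) (by omega) hk.2
    have h3 : ((Nat.choose p k : ℕ) : R) =
        algebraMap (ZMod (p ^ 2)) R ((Nat.choose p k : ℕ) : ZMod (p ^ 2)) := by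
      rw [map_natCast]
    rw [h3, h2, one_pow, mul_one]
    simp only [map_mul, map_neg, map_natCast, map_pow, map_one]
    ring
  rw [h1]
  simp
  ring

theorem p_mul_p' {R : Type*} [CommRing R] [Algebra (ZMod (p ^ 2)) R] : (p : R) * p = 0 := by
  have h := congrArg (algebraMap (ZMod (p ^ 2)) R) (p_mul_p (p := p))
  rw [map_mul, map_natCast, map_zero] at h
  exact h

theorem sub_p_pow {R : Type*} [CommRing R] [Algebra (ZMod (p ^ 2)) R] (A B : R) (m : ℕ) :
    (A - (p : R) * B) ^ (m + 1) = A ^ (m + 1) - (m + 1 : ℕ) * p * A ^ m * B := by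
  have h := p_mul_p' (p := p) (R := R)
  induction m with
  | zero => simp
  | succ m ih =>
    rw [pow_succ, ih]
    push_cast
    linear_combination ((m + 1 : R) * A ^ m * B ^ 2) * h

/-- the sum `ψ` -/
noncomputable def Psi (p N b : ℕ) : ZMod (p ^ 2) :=
  ∑ k ∈ range b, ((Nat.choose N k : ℕ) : ZMod (p ^ 2)) * ((-1) ^ (b - k) * v p (b - k))

theorem Psi_pascal (N b : ℕ) : Psi p (N + 1) (b + 1) = Psi p N (b + 1) + Psi p N b := by
  unfold Psi
  rw [Finset.sum_range_succ', Finset.sum_range_succ' _ b]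
  have h1 : ∑ k ∈ range b, ((Nat.choose (N + 1) (k + 1) : ℕ) : ZMod (p ^ 2)) *
      ((-1) ^ (b + 1 - (k + 1)) * v p (b + 1 - (k + 1))) =
      ∑ k ∈ range b, ((Nat.choose N (k + 1) : ℕ) : ZMod (p ^ 2)) *
      ((-1) ^ (b + 1 - (k + 1)) * v p (b + 1 - (k + 1))) +
      ∑ k ∈ range b, ((Nat.choose N k : ℕ) : ZMod (p ^ 2)) * ((-1) ^ (b - k) * v p (b - k)) := by
    rw [← Finset.sum_add_distrib]
    apply Finset.sum_congr rfl
    intro k _
    rw [Nat.choose_succ_succ, Nat.add_sub_add_right]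
    push_cast
    ring
  rw [h1, Nat.choose_zero_right, Nat.choose_zero_right]
  ring

theorem Psi_top {N : ℕ} (hN : N + 1 < p) : Psi p N (N + 1) = -v p (N + 1) := by
  apply (isUnit_of_lt (p := p) (j := N + 1) (by omega) hN).mul_left_cancel
  rw [mul_neg, mul_v (by omega) hN]
  unfold Psi
  rw [Finset.mul_sum]
  have h1 : ∀ k ∈ range (N + 1), ((N + 1 : ℕ) : ZMod (p ^ 2)) *
      (((Nat.choose N k : ℕ) : ZMod (p ^ 2)) * ((-1) ^ (N + 1 - k) * v p (N + 1 - k))) =
      1 ^ k * (-1) ^ (N + 1 - k) * ((Nat.choose (N + 1) k : ℕ) : ZMod (p ^ 2)) := by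
    intro k hk
    have hk' := mem_range.mp hk
    have h2 : (N + 1) * Nat.choose N k = Nat.choose (N + 1) k * (N + 1 - k) := by
      rw [← Nat.choose_mul_succ_eq]; ring
    have h3 : (((N + 1) * Nat.choose N k : ℕ) : ZMod (p ^ 2)) =
        ((Nat.choose (N + 1) k * (N + 1 - k) : ℕ) : ZMod (p ^ 2)) := by rw [h2]
    rw [Nat.cast_mul, Nat.cast_mul] at h3
    have h4 := mul_v (p := p) (j := N + 1 - k) (by omega) (by omega)
    rw [one_pow, one_mul]
    linear_combination ((-1) ^ (N + 1 - k) * v p (N + 1 - k)) * h3 +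
      ((-1) ^ (N + 1 - k) * ((Nat.choose (N + 1) k : ℕ) : ZMod (p ^ 2))) * h4
  rw [Finset.sum_congr rfl h1]
  have h5 := add_pow (1 : ZMod (p ^ 2)) (-1) (N + 1)
  rw [Finset.sum_range_succ, add_neg_cancel, zero_pow (by omega)] at h5
  simp only [Nat.choose_self, Nat.sub_self, pow_zero, Nat.cast_one, mul_one, one_pow] at h5
  simp only [one_pow]
  linear_combination -h5

theorem Psi_eq : ∀ N, N < p → ∀ b, b ≤ N →
    Psi p N b = -((Nat.choose N b : ℕ) : ZMod (p ^ 2)) * (H p N - H p (N - b)) := by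
  intro N
  induction N with
  | zero =>
    intro _ b hb
    have : b = 0 := by omega
    subst this
    simp [Psi]
  | succ N ih =>
    intro hN b hb
    cases b with
    | zero => simp [Psi]
    | succ b =>
      rw [Psi_pascal, ih (by omega) b (by omega)]
      rcases Nat.lt_or_ge b N with hbN | hbN
      · rw [ih (by omega) (b + 1) (by omega), H_succ, Nat.add_sub_add_right, Nat.choose_succ_succ]
        have h1 : H p (N - b) = H p (N - (b + 1)) + v p (N - b) := by
          have : N - b = N - (b + 1) + 1 := by omega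
          rw [this, H_succ]
        rw [h1]
        -- `B v (N - b) = (A + B) v (N + 1)`
        have h2 : ((Nat.choose N (b + 1) : ℕ) : ZMod (p ^ 2)) * v p (N - b) =
            (((Nat.choose N b : ℕ) : ZMod (p ^ 2)) + ((Nat.choose N (b + 1) : ℕ) : ZMod (p ^ 2))) *
              v p (N + 1) := by
          have u1 := isUnit_of_lt (p := p) (j := N + 1) (by omega) hN
          have u2 := isUnit_of_lt (p := p) (j := N - b) (by omega) (by omega)
          apply (u1.mul u2).mul_left_cancel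
          have m1 := mul_v (p := p) (j := N + 1) (by omega) hN
          have m2 := mul_v (p := p) (j := N - b) (by omega) (by omega)
          have h3 : Nat.choose N (b + 1) * (b + 1) = Nat.choose N b * (N - b) :=
            Nat.choose_succ_right_eq N b
          have h4 : ((Nat.choose N (b + 1) * (b + 1) : ℕ) : ZMod (p ^ 2)) =
            ((Nat.choose N b * (N - b) : ℕ) : ZMod (p ^ 2)) := by rw [h3]
          rw [Nat.cast_mul, Nat.cast_mul] at h4
          have h5 : ((N - b : ℕ) : ZMod (p ^ 2)) = N - b := by rw [Nat.cast_sub (by omega)]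
          push_cast at m1 h4 ⊢
          rw [h5] at m2 h4 ⊢
          linear_combination ((N + 1 : ZMod (p ^ 2)) * ((Nat.choose N (b + 1) : ℕ) : ZMod (p ^ 2))) *
            m2 - ((N : ZMod (p ^ 2)) - b) * (((Nat.choose N b : ℕ) : ZMod (p ^ 2)) +
              ((Nat.choose N (b + 1) : ℕ) : ZMod (p ^ 2))) * m1 + h4
        push_cast
        linear_combination -h2
      · have hbN' : b = N := by omega
        subst hbN'
        rw [Psi_top hN, Nat.choose_self, Nat.choose_self, Nat.sub_self, Nat.sub_self, H_succ]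
        push_cast
        ring

end Pool.Agent.Helper6.Sun
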