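import Mathlib
import Pool.Agent.Helper6.Sun.Psi

/-!
Multiplicative lifts modulo `p ^ 2`, and sums over cyclic groups.
-/

namespace Pool.Agent.Helper6.Sun

open Finset

set_option linter.unusedSectionVars false

variable {p : ℕ} [hp : Fact p.Prime]

/-- a ring `R` over `ZMod (p ^ 2)` with a surjection to a field `F` with kernel `p R` -/
structure Lift (p : ℕ) (F R : Type*) [Field F] [CommRing R] [Algebra (ZMod (p ^ 2)) R] where
  π : R →+* F
  surj : Function.Surjective π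
  ker : ∀ r, π r = 0 → ∃ s, r = (p : R) * s

section

variable {F R : Type*} [Field F] [CommRing R] [Algebra (ZMod (p ^ 2)) R] (L : Lift p F R)

theorem Lift.pi_p : L.π (p : R) = 0 := by
  have h1 := congrArg L.π (p_mul_p' (p := p) (R := R))
  rw [map_mul, map_zero] at h1
  exact mul_self_eq_zero.mp h1

/-- the multiplicative lift -/
noncomputable def Lift.tau (x : F) : R := (Function.surjInv L.surj x) ^ p

theorem Lift.pow_eq {r s : R} (h : L.π r = L.π s) : r ^ p = s ^ p := by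
  obtain ⟨c, hc⟩ := L.ker (r - s) (by rw [map_sub, h, sub_self])
  have hp0 := hp.out.ne_zero
  obtain ⟨q, hq⟩ : ∃ q, p = q + 1 := ⟨p - 1, by omega⟩
  have h1 : r = s - (p : R) * (-c) := by linear_combination hc
  have h2 : r ^ p = (s - (p : R) * (-c)) ^ (q + 1) := by rw [h1]; congr 1
  rw [h2, sub_p_pow]
  have h3 : ((q + 1 : ℕ) : R) = p := by rw [← hq]
  rw [h3, p_mul_p', zero_mul, zero_mul, sub_zero, ← hq]

theorem Lift.tau_eq (r : R) : L.tau (L.π r) = r ^ p := by
  unfold Lift.tau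
  apply L.pow_eq
  exact Function.surjInv_eq L.surj _

theorem Lift.tau_mul (x y : F) : L.tau (x * y) = L.tau x * L.tau y := by
  obtain ⟨r, rfl⟩ := L.surj x
  obtain ⟨s, rfl⟩ := L.surj y
  rw [← map_mul, L.tau_eq, L.tau_eq, L.tau_eq, mul_pow]

theorem Lift.tau_one : L.tau 1 = 1 := by
  rw [← map_one L.π, L.tau_eq, one_pow]

theorem Lift.tau_zero : L.tau 0 = 0 := by
  rw [← map_zero L.π, L.tau_eq, zero_pow hp.out.ne_zero]

theorem Lift.tau_pow (x : F) (n : ℕ) : L.tau (x ^ n) = L.tau x ^ n := by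
  induction n with
  | zero => rw [pow_zero, pow_zero, L.tau_one]
  | succ n ih => rw [pow_succ, pow_succ, L.tau_mul, ih]

theorem Lift.pi_tau (x : F) : L.π (L.tau x) = x ^ p := by
  obtain ⟨r, rfl⟩ := L.surj x
  rw [L.tau_eq, map_pow]

theorem Lift.isUnit {r : R} (h : L.π r ≠ 0) : IsUnit r := by
  obtain ⟨s, hs⟩ := L.surj (L.π r)⁻¹
  obtain ⟨c, hc⟩ := L.ker (r * s - 1) (by
    rw [map_sub, map_mul, hs, map_one, mul_inv_cancel₀ h, sub_self])
  have h1 := p_mul_p' (p := p) (R := R)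
  refine IsUnit.of_mul_eq_one (s * (1 - (p : R) * c)) ?_
  linear_combination (1 - (p : R) * c) * hc - c ^ 2 * h1

theorem Lift.tau_neg_one (hp2 : p ≠ 2) : L.tau (-1) = -1 := by
  have h1 : (-1 : F) = L.π (-1) := by rw [map_neg, map_one]
  rw [h1, L.tau_eq, (hp.out.odd_of_ne_two hp2).neg_one_pow]

end

/-- sums over a finite cyclic group -/
theorem geom_zero {R : Type*} [CommRing R] {w : R} {N : ℕ} (h : w ^ N = 1) (hu : IsUnit (w - 1)) :
    ∑ i ∈ range N, w ^ i = 0 := by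
  apply hu.mul_left_cancel
  rw [mul_zero, mul_geom_sum, h, sub_self]

/-- `w` generates a cyclic group of order `N` such that `w ^ e - 1` is a unit unless `N ∣ e` -/
structure Cyc {R : Type*} [CommRing R] (w : Rˣ) (N : ℕ) : Prop where
  pow : w ^ N = 1
  unit : ∀ e : ℤ, ¬ (N : ℤ) ∣ e → IsUnit (((w ^ e : Rˣ) : R) - 1)

theorem Cyc.sum {R : Type*} [CommRing R] {w : Rˣ} {N : ℕ} (h : Cyc w N) (e : ℤ) :
    ∑ i ∈ range N, (((w ^ i) ^ e : Rˣ) : R) = if (N : ℤ) ∣ e then (N : R) else 0 := by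
  have h1 : ∀ i : ℕ, (((w ^ i) ^ e : Rˣ) : R) = (((w ^ e : Rˣ)) : R) ^ i := by
    intro i
    rw [← Units.val_pow_eq_pow_val]
    congr 1
    rw [← zpow_natCast w i, ← zpow_natCast (w ^ e) i, ← zpow_mul, ← zpow_mul, mul_comm]
  rw [Finset.sum_congr rfl (fun i _ => h1 i)]
  split_ifs with hd
  · obtain ⟨c, hc⟩ := hd
    have h2 : w ^ e = 1 := by
      rw [hc, zpow_mul, zpow_natCast, h.pow, one_zpow]
    rw [h2]
    simp
  · apply geom_zero _ (h.unit e hd)
    rw [← Units.val_pow_eq_pow_val, ← zpow_natCast, ← zpow_mul, mul_comm, zpow_mul, zpow_natCast,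
      h.pow, one_zpow, Units.val_one]

end Pool.Agent.Helper6.Sun
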