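import Mathlib
import Pool.Agent.Helper6.Sun.Teich

/-!
Evaluation of character sums modulo `p ^ 2`.
-/

namespace Pool.Agent.Helper6.Sun

open Finset

set_option linter.unusedSectionVars false

variable {p : ℕ} [hp : Fact p.Prime]

section

variable {R : Type*} [CommRing R] [Algebra (ZMod (p ^ 2)) R] {w : Rˣ} {N : ℕ}

theorem one_add_expand (X : R) (m : ℕ) :
    (1 + X) ^ m = ∑ k ∈ range (m + 1), ((Nat.choose m k : ℕ) : R) * X ^ k := by
  rw [add_comm, add_pow]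
  apply Finset.sum_congr rfl
  intro k _
  rw [one_pow]
  ring

omit [Algebra (ZMod (p ^ 2)) R] in
theorem sumF (h : Cyc w N) {a m : ℕ} (ha : a ≤ m) (h1 : a < N) (h2 : m - a < N) :
    ∑ i ∈ range N, (((w ^ i) ^ (-(a : ℤ)) : Rˣ) : R) * (1 + ((w ^ i : Rˣ) : R)) ^ m =
      N * ((Nat.choose m a : ℕ) : R) := by
  have e1 : ∀ i ∈ range N, (((w ^ i) ^ (-(a : ℤ)) : Rˣ) : R) * (1 + ((w ^ i : Rˣ) : R)) ^ m =
      ∑ k ∈ range (m + 1), ((Nat.choose m k : ℕ) : R) *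
        (((w ^ i) ^ ((k : ℤ) - a) : Rˣ) : R) := by
    intro i _
    rw [one_add_expand, Finset.mul_sum]
    apply Finset.sum_congr rfl
    intro k _
    have : (w ^ i) ^ ((k : ℤ) - a) = (w ^ i) ^ (-(a : ℤ)) * (w ^ i) ^ k := by
      rw [← zpow_natCast (w ^ i) k, ← zpow_add]
      congr 1
      ring
    rw [this]
    push_cast
    ring
  rw [Finset.sum_congr rfl e1, Finset.sum_comm]
  have e2 : ∀ k ∈ range (m + 1), ∑ i ∈ range N, ((Nat.choose m k : ℕ) : R) *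
      (((w ^ i) ^ ((k : ℤ) - a) : Rˣ) : R) = if k = a then N * ((Nat.choose m a : ℕ) : R) else 0 := by
    intro k hk
    have hk' := mem_range.mp hk
    rw [← Finset.mul_sum, h.sum]
    by_cases hka : k = a
    · subst hka
      simp
      ring
    · rw [if_neg hka, if_neg, mul_zero]
      rintro ⟨c, hc⟩
      have hc0 : c ≠ 0 := by rintro rfl; apply hka; omega
      rcases lt_or_gt_of_ne hc0 with hneg | hpos
      · have : (N : ℤ) * c ≤ -N := by nlinarith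
        omega
      · have : (N : ℤ) ≤ N * c := by nlinarith
        omega
  rw [Finset.sum_congr rfl e2, Finset.sum_ite_eq' (range (m + 1)) a, if_pos (mem_range.mpr (by omega))]

theorem sumG (h : Cyc w N) (a m : ℕ) :
    ∑ i ∈ range N, (((w ^ i) ^ (-(a : ℤ)) : Rˣ) : R) * (1 + ((w ^ i : Rˣ) : R)) ^ m *
      LL p ((w ^ i : Rˣ) : R) = N * algebraMap (ZMod (p ^ 2)) R
        (∑ k ∈ range (m + 1), ((Nat.choose m k : ℕ) : ZMod (p ^ 2)) *
          ∑ l ∈ Ico 1 p, if (N : ℤ) ∣ (k : ℤ) - a + l then v p l * (-1) ^ l else 0) := by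
  have e1 : ∀ i ∈ range N, (((w ^ i) ^ (-(a : ℤ)) : Rˣ) : R) * (1 + ((w ^ i : Rˣ) : R)) ^ m *
      LL p ((w ^ i : Rˣ) : R) =
      ∑ k ∈ range (m + 1), ∑ l ∈ Ico 1 p, ((Nat.choose m k : ℕ) : R) *
        (algebraMap (ZMod (p ^ 2)) R (v p l * (-1) ^ l) *
        (((w ^ i) ^ ((k : ℤ) - a + l) : Rˣ) : R)) := by
    intro i _
    unfold LL
    rw [one_add_expand, mul_assoc, Finset.sum_mul_sum, Finset.mul_sum]
    apply Finset.sum_congr rfl
    intro k _
    rw [Finset.mul_sum]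
    apply Finset.sum_congr rfl
    intro l _
    have : (w ^ i) ^ ((k : ℤ) - a + l) = (w ^ i) ^ (-(a : ℤ)) * (w ^ i) ^ k * (w ^ i) ^ l := by
      rw [← zpow_natCast (w ^ i) k, ← zpow_natCast (w ^ i) l, ← zpow_add, ← zpow_add]
      congr 1
      ring
    rw [this]
    push_cast
    ring
  rw [Finset.sum_congr rfl e1, Finset.sum_comm]
  rw [map_sum, Finset.mul_sum]
  apply Finset.sum_congr rfl
  intro k _
  rw [Finset.sum_comm, map_mul, map_natCast, map_sum, Finset.mul_sum, Finset.mul_sum]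
  apply Finset.sum_congr rfl
  intro l _
  rw [← Finset.mul_sum, ← Finset.mul_sum, h.sum]
  split_ifs
  · ring
  · simp

theorem sumG' (h : Cyc w N) (a m : ℕ) :
    ∑ i ∈ range N, (((w ^ i) ^ (a : ℤ) : Rˣ) : R) * (1 + (((w ^ i)⁻¹ : Rˣ) : R)) ^ m *
      LL p ((w ^ i : Rˣ) : R) = N * algebraMap (ZMod (p ^ 2)) R
        (∑ k ∈ range (m + 1), ((Nat.choose m k : ℕ) : ZMod (p ^ 2)) *
          ∑ l ∈ Ico 1 p, if (N : ℤ) ∣ (a : ℤ) - k + l then v p l * (-1) ^ l else 0) := by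
  have e1 : ∀ i ∈ range N, (((w ^ i) ^ (a : ℤ) : Rˣ) : R) * (1 + (((w ^ i)⁻¹ : Rˣ) : R)) ^ m *
      LL p ((w ^ i : Rˣ) : R) =
      ∑ k ∈ range (m + 1), ∑ l ∈ Ico 1 p, ((Nat.choose m k : ℕ) : R) *
        (algebraMap (ZMod (p ^ 2)) R (v p l * (-1) ^ l) *
        (((w ^ i) ^ ((a : ℤ) - k + l) : Rˣ) : R)) := by
    intro i _
    unfold LL
    rw [one_add_expand, mul_assoc, Finset.sum_mul_sum, Finset.mul_sum]
    apply Finset.sum_congr rfl
    intro k _
    rw [Finset.mul_sum]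
    apply Finset.sum_congr rfl
    intro l _
    have : (w ^ i) ^ ((a : ℤ) - k + l) = (w ^ i) ^ (a : ℤ) * ((w ^ i)⁻¹) ^ k * (w ^ i) ^ l := by
      rw [← zpow_natCast ((w ^ i)⁻¹) k, ← zpow_natCast (w ^ i) l, inv_zpow', ← zpow_add, ← zpow_add]
      congr 1
    rw [this]
    push_cast
    ring
  rw [Finset.sum_congr rfl e1, Finset.sum_comm]
  rw [map_sum, Finset.mul_sum]
  apply Finset.sum_congr rfl
  intro k _
  rw [Finset.sum_comm, map_mul, map_natCast, map_sum, Finset.mul_sum, Finset.mul_sum]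
  apply Finset.sum_congr rfl
  intro l _
  rw [← Finset.mul_sum, ← Finset.mul_sum, h.sum]
  split_ifs
  · ring
  · simp

end

theorem p_mul_v_sub {j : ℕ} (hj : j + 1 < p) :
    (p : ZMod (p ^ 2)) * v p (p - 1 - j) = -(p * v p (j + 1)) := by
  have h1 := mul_v (p := p) (j := p - 1 - j) (by omega) (by omega)
  have h2 := mul_v (p := p) (j := j + 1) (by omega) (by omega)
  have h3 : ((p - 1 - j : ℕ) : ZMod (p ^ 2)) = p - (j + 1 : ℕ) := by
    rw [show p - 1 - j = p - (j + 1) by omega, Nat.cast_sub (by omega)]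
  rw [h3] at h1
  have hpp := p_mul_p (p := p)
  linear_combination (-(p : ZMod (p ^ 2)) * v p (j + 1)) * h1 + (v p (p - 1 - j) * v p (j + 1)) * hpp -
    ((p : ZMod (p ^ 2)) * v p (p - 1 - j)) * h2

/-- the inner sum in the first case -/
theorem innerA {f k : ℕ} (h0 : 0 < f) (hf : 2 * f < p - 1) (hk : k < 2 * f) :
    ∑ l ∈ Ico 1 p, (if (((p - 1 : ℕ) : ℤ)) ∣ (k : ℤ) - f + l then v p l * (-1) ^ l else 0) =
      if k < f then v p (f - k) * (-1) ^ (f - k)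
      else v p (p - 1 - (k - f)) * (-1) ^ (p - 1 - (k - f)) := by
  obtain ⟨q, hq⟩ : ∃ q, p = q + 1 := ⟨p - 1, by omega⟩
  split_ifs with hkf
  · rw [Finset.sum_eq_single (f - k)]
    · rw [if_pos]
      exact ⟨0, by omega⟩
    · intro l hl hne
      rw [Finset.mem_Ico] at hl
      rw [if_neg]
      rintro ⟨c, hc⟩
      have hc0 : c ≠ 0 := by rintro rfl; apply hne; omega
      rcases lt_or_gt_of_ne hc0 with hneg | hpos
      · have : (((p - 1 : ℕ) : ℤ)) * c ≤ -((p - 1 : ℕ) : ℤ) := by nlinarith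
        omega
      · have : (((p - 1 : ℕ) : ℤ)) ≤ ((p - 1 : ℕ) : ℤ) * c := by nlinarith
        omega
    · intro hn
      exact absurd (Finset.mem_Ico.mpr ⟨by omega, by omega⟩) hn
  · rw [Finset.sum_eq_single (p - 1 - (k - f))]
    · rw [if_pos]
      exact ⟨1, by omega⟩
    · intro l hl hne
      rw [Finset.mem_Ico] at hl
      rw [if_neg]
      rintro ⟨c, hc⟩
      have hc1 : c ≠ 1 := by rintro rfl; apply hne; omega
      rcases lt_or_gt_of_ne hc1 with hneg | hpos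
      · have : (((p - 1 : ℕ) : ℤ)) * c ≤ 0 := by nlinarith
        omega
      · have : (((p - 1 : ℕ) : ℤ)) * 2 ≤ ((p - 1 : ℕ) : ℤ) * c := by nlinarith
        omega
    · intro hn
      exact absurd (Finset.mem_Ico.mpr ⟨by omega, by omega⟩) hn


theorem sumA {f : ℕ} (hp2 : p ≠ 2) (h0 : 0 < f) (hf : 2 * f < p - 1) :
    (p : ZMod (p ^ 2)) * (∑ k ∈ range (2 * f), ((Nat.choose (2 * f - 1) k : ℕ) : ZMod (p ^ 2)) *
      (if k < f then v p (f - k) * (-1) ^ (f - k)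
      else v p (p - 1 - (k - f)) * (-1) ^ (p - 1 - (k - f)))) =
      2 * (p * Psi p (2 * f - 1) f) := by
  have hodd := hp.out.odd_of_ne_two hp2
  have h1 : ∑ k ∈ range (2 * f), ((Nat.choose (2 * f - 1) k : ℕ) : ZMod (p ^ 2)) *
      (if k < f then v p (f - k) * (-1) ^ (f - k)
      else v p (p - 1 - (k - f)) * (-1) ^ (p - 1 - (k - f))) =
      ∑ k ∈ range f, ((Nat.choose (2 * f - 1) k : ℕ) : ZMod (p ^ 2)) *
        ((-1) ^ (f - k) * v p (f - k)) +
      ∑ j ∈ range f, ((Nat.choose (2 * f - 1) (f + j) : ℕ) : ZMod (p ^ 2)) *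
        (v p (p - 1 - j) * (-1) ^ (p - 1 - j)) := by
    rw [two_mul, Finset.sum_range_add]
    congr 1
    · apply Finset.sum_congr rfl
      intro k hk
      rw [if_pos (mem_range.mp hk)]
      ring
    · apply Finset.sum_congr rfl
      intro j _
      rw [if_neg (by omega), Nat.add_sub_cancel_left]
  have h2 : (p : ZMod (p ^ 2)) * ∑ j ∈ range f, ((Nat.choose (2 * f - 1) (f + j) : ℕ) :
      ZMod (p ^ 2)) * (v p (p - 1 - j) * (-1) ^ (p - 1 - j)) =
      p * ∑ j ∈ range f, ((Nat.choose (2 * f - 1) j : ℕ) : ZMod (p ^ 2)) *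
        ((-1) ^ (f - j) * v p (f - j)) := by
    rw [← Finset.sum_range_reflect, Finset.mul_sum, Finset.mul_sum]
    apply Finset.sum_congr rfl
    intro j hj
    have hj' := mem_range.mp hj
    have e1 : Nat.choose (2 * f - 1) (f + (f - 1 - j)) = Nat.choose (2 * f - 1) j := by
      rw [← Nat.choose_symm (by omega : j ≤ 2 * f - 1)]
      congr 1
      omega
    have e2 := p_mul_v_sub (p := p) (j := f - 1 - j) (by omega)
    have e3 : f - 1 - j + 1 = f - j := by omega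
    rw [e3] at e2
    have e4 : (-1 : ZMod (p ^ 2)) ^ (p - 1 - (f - 1 - j)) = -(-1) ^ (f - j) := by
      have e5 : (-1 : ZMod (p ^ 2)) ^ (p - 1 - (f - 1 - j)) * (-1) ^ (f - 1 - j) = 1 := by
        rw [← pow_add, Nat.sub_add_cancel (by omega)]
        obtain ⟨t, ht⟩ := hodd
        rw [ht, Nat.add_sub_cancel, pow_mul]
        simp
      have e6 : (-1 : ZMod (p ^ 2)) ^ (f - j) = (-1) ^ (f - 1 - j) * (-1) := by
        rw [← pow_succ, e3]
      have e7 : (-1 : ZMod (p ^ 2)) ^ (f - 1 - j) * (-1) ^ (f - 1 - j) = 1 := by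
        rw [← mul_pow]; simp
      rw [e6]
      linear_combination ((-1 : ZMod (p ^ 2)) ^ (f - 1 - j)) * e5 -
        ((-1 : ZMod (p ^ 2)) ^ (p - 1 - (f - 1 - j))) * e7
    rw [e1, e4]
    linear_combination (-((Nat.choose (2 * f - 1) j : ℕ) : ZMod (p ^ 2)) * (-1) ^ (f - j)) * e2
  rw [h1, mul_add, h2]
  unfold Psi
  ring

section

variable {R : Type*} [CommRing R] [Algebra (ZMod (p ^ 2)) R] {w : Rˣ}

theorem evalA (hp2 : p ≠ 2) (h : Cyc w (p - 1)) {f : ℕ} (h0 : 0 < f) (hf : 2 * f < p - 1) :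
    ∑ i ∈ range (p - 1), (((w ^ i) ^ (-(f : ℤ)) : Rˣ) : R) *
      ((1 + ((w ^ i : Rˣ) : R)) ^ p) ^ (2 * f) =
      algebraMap (ZMod (p ^ 2)) R (-((Nat.choose (2 * f) f : ℕ) : ZMod (p ^ 2)) *
        (1 + 2 * (f : ZMod (p ^ 2)) * (p : ZMod (p ^ 2)) * (H p (2 * f) - H p f))) := by
  have hp1 := hp.out.one_lt
  have hXp : ∀ i : ℕ, ((w ^ i : Rˣ) : R) ^ p = ((w ^ i : Rˣ) : R) := by
    intro i
    rw [← Units.val_pow_eq_pow_val]
    congr 1
    rw [← pow_mul, mul_comm, pow_mul, show w ^ p = w by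
      rw [show p = (p - 1) + 1 by omega, pow_succ, h.pow, one_mul]]
  obtain ⟨m, hm⟩ : ∃ m, 2 * f = m + 1 := ⟨2 * f - 1, by omega⟩
  have e1 : ∀ i ∈ range (p - 1), (((w ^ i) ^ (-(f : ℤ)) : Rˣ) : R) *
      ((1 + ((w ^ i : Rˣ) : R)) ^ p) ^ (2 * f) =
      (((w ^ i) ^ (-(f : ℤ)) : Rˣ) : R) * (1 + ((w ^ i : Rˣ) : R)) ^ (2 * f) -
      (2 * f : ℕ) * p * ((((w ^ i) ^ (-(f : ℤ)) : Rˣ) : R) * (1 + ((w ^ i : Rˣ) : R)) ^ m *
        LL p ((w ^ i : Rˣ) : R)) := by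
    intro i _
    rw [one_add_pow, hXp, hm, sub_p_pow]
    ring
  rw [Finset.sum_congr rfl e1, Finset.sum_sub_distrib, ← Finset.mul_sum,
    sumF h (by omega) (by omega) (by omega), sumG h]
  have e2 : (p : ZMod (p ^ 2)) * (∑ k ∈ range (m + 1), ((Nat.choose m k : ℕ) : ZMod (p ^ 2)) *
          ∑ l ∈ Ico 1 p, if ((p - 1 : ℕ) : ℤ) ∣ (k : ℤ) - f + l then v p l * (-1) ^ l else 0) =
      2 * (p * Psi p (2 * f - 1) f) := by
    rw [← sumA hp2 h0 hf, ← hm]
    congr 1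
    apply Finset.sum_congr rfl
    intro k hk
    rw [innerA h0 hf (mem_range.mp hk), show 2 * f - 1 = m by omega]
  have hPsi := Psi_eq (p := p) (2 * f - 1) (by omega) f (by omega)
  rw [show 2 * f - 1 - f = f - 1 by omega] at hPsi
  have hH1 : H p (2 * f) = H p (2 * f - 1) + v p (2 * f) := by
    have : 2 * f = 2 * f - 1 + 1 := by omega
    rw [this, H_succ, Nat.add_sub_cancel]
  have hH2 : H p f = H p (f - 1) + v p f := by
    have : f = f - 1 + 1 := by omega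
    rw [this, H_succ, Nat.add_sub_cancel]
  have hC : ((Nat.choose (2 * f) f : ℕ) : ZMod (p ^ 2)) =
      2 * ((Nat.choose (2 * f - 1) f : ℕ) : ZMod (p ^ 2)) := by
    obtain ⟨t, rfl⟩ : ∃ t, f = t + 1 := ⟨f - 1, by omega⟩
    have e3 : Nat.choose (2 * (t + 1)) (t + 1) = 2 * Nat.choose (2 * (t + 1) - 1) (t + 1) := by
      rw [show 2 * (t + 1) = (2 * t + 1) + 1 by ring, Nat.choose_succ_succ', Nat.add_sub_cancel]
      have e4 : Nat.choose (2 * t + 1) t = Nat.choose (2 * t + 1) (t + 1) := by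
        rw [← Nat.choose_symm (by omega : t ≤ 2 * t + 1)]
        congr 1
        omega
      omega
    rw [e3]
    push_cast
    ring
  have m1 := mul_v (p := p) (j := 2 * f) (by omega) (by omega)
  have m2 := mul_v (p := p) (j := f) (by omega) (by omega)
  have hpp := p_mul_p (p := p)
  have key : (((p - 1 : ℕ) : ZMod (p ^ 2)) * ((Nat.choose (2 * f) f : ℕ) : ZMod (p ^ 2)) -
      ((2 * f : ℕ) : ZMod (p ^ 2)) * (((p - 1 : ℕ) : ZMod (p ^ 2)) *
        (p * (∑ k ∈ range (m + 1), ((Nat.choose m k : ℕ) : ZMod (p ^ 2)) *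
          ∑ l ∈ Ico 1 p, if ((p - 1 : ℕ) : ℤ) ∣ (k : ℤ) - f + l then v p l * (-1) ^ l else 0)))) =
      (-((Nat.choose (2 * f) f : ℕ) : ZMod (p ^ 2)) *
        (1 + 2 * (f : ZMod (p ^ 2)) * (p : ZMod (p ^ 2)) * (H p (2 * f) - H p f))) := by
    rw [e2, hPsi, hC, hH1, hH2, Nat.cast_sub hp1.le]
    push_cast at m1 ⊢
    obtain ⟨D, hD⟩ : ∃ D, D = ((Nat.choose (2 * f - 1) f : ℕ) : ZMod (p ^ 2)) := ⟨_, rfl⟩
    rw [← hD]
    linear_combination (4 * D * f * (H p (2 * f - 1) - H p (f - 1)) + 0) * hpp +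
      (2 * D * p) * m1 - (4 * D * p) * m2
  rw [← key]
  simp only [map_sub, map_mul, map_natCast]
  ring

end

end Pool.Agent.Helper6.Sun
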