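import Mathlib
import Pool.Agent.Helper6.Sun.Eval
import Pool.Agent.Helper6.Sun.CaseA1

/-!
The sum for `p = 8 f + 1` modulo `p ^ 2` in terms of the octic Jacobi sum.
-/

namespace Pool.Agent.Helper6.Sun

open Finset

set_option linter.unusedSectionVars false

variable {p f : ℕ} [hp : Fact p.Prime]

/-- the lift from `ZMod p` to `ZMod (p ^ 2)` -/
def lift1 (p : ℕ) [hp : Fact p.Prime] : Lift p (ZMod p) (ZMod (p ^ 2)) where
  π := red p
  surj := ZMod.castHom_surjective _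
  ker := fun _ h => red_eq_zero h

theorem lift1_pi (r : ZMod (p ^ 2)) : (lift1 p).π r = red p r := rfl

section

variable {F R : Type*} [Field F] [CommRing R] [Algebra (ZMod (p ^ 2)) R] (L : Lift p F R)

/-- the lift of a unit -/
noncomputable def Lift.wu (g : Fˣ) : Rˣ where
  val := L.tau g
  inv := L.tau ((g⁻¹ : Fˣ) : F)
  val_inv := by
    rw [← L.tau_mul, ← Units.val_mul, mul_inv_cancel, Units.val_one, L.tau_one]
  inv_val := by
    rw [← L.tau_mul, ← Units.val_mul, inv_mul_cancel, Units.val_one, L.tau_one]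

theorem Lift.wu_val (g : Fˣ) : ((L.wu g : Rˣ) : R) = L.tau (g : F) := rfl

theorem Lift.wu_pow_val (g : Fˣ) (i : ℕ) : (((L.wu g) ^ i : Rˣ) : R) = L.tau ((g : F) ^ i) := by
  rw [Units.val_pow_eq_pow_val, L.wu_val, L.tau_pow]

theorem Lift.wu_pow (g : Fˣ) {N : ℕ} (h : (g : F) ^ N = 1) : (L.wu g) ^ N = 1 := by
  apply Units.ext
  rw [L.wu_pow_val, h, L.tau_one, Units.val_one]

theorem Lift.wu_zpow_unit (g : Fˣ) {N : ℕ} (hN : (g : F) ^ N = 1) (hord : ∀ m : ℕ, (g : F) ^ m = 1 → N ∣ m)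
    (hNp : Nat.Coprime N p) (hN0 : 0 < N) {e : ℤ} (he : ¬ (N : ℤ) ∣ e) :
    IsUnit ((((L.wu g) ^ e : Rˣ) : R) - 1) := by
  -- reduce `e` to a natural number
  obtain ⟨m, hm⟩ : ∃ m : ℕ, (m : ℤ) = e % N := ⟨(e % N).toNat, by
    rw [Int.toNat_of_nonneg (Int.emod_nonneg _ (by omega))]⟩
  have h1 : (L.wu g) ^ e = (L.wu g) ^ m := by
    have : e = m + N * (e / N) := by rw [hm]; exact (Int.emod_add_mul_ediv e N).symm
    rw [this, zpow_add, zpow_mul, zpow_natCast, zpow_natCast, L.wu_pow g hN, one_zpow, mul_one]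
  rw [h1]
  apply L.isUnit
  rw [map_sub, map_one, L.wu_pow_val, L.pi_tau]
  intro h
  have h2 : (g : F) ^ (m * p) = 1 := by
    rw [pow_mul]; linear_combination h
  have h3 := hord _ h2
  have h4 : N ∣ m := (Nat.Coprime.dvd_mul_right hNp).mp h3
  apply he
  have h5 : (N : ℤ) ∣ e % N := by rw [← hm]; exact_mod_cast h4
  exact (Int.dvd_iff_emod_eq_zero).mpr (by
    have := Int.emod_emod_of_dvd e (dvd_refl (N : ℤ))
    rw [← this]
    exact Int.emod_eq_zero_of_dvd h5)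

end

theorem cyc1 {g : (ZMod p)ˣ} (hg : ∀ x, x ∈ Subgroup.zpowers g) :
    Cyc ((lift1 p).wu g) (p - 1) := by
  have hp1 := hp.out.one_lt
  refine ⟨(lift1 p).wu_pow g gen_pow_pred, fun e he => ?_⟩
  apply (lift1 p).wu_zpow_unit g gen_pow_pred (fun m h => gen_pow_eq_one hg h) _ (by omega) he
  have : Nat.Coprime (p - 1) (p - 1 + 1) := Nat.coprime_self_add_right.mpr (Nat.coprime_one_right _)
  rwa [Nat.sub_add_cancel hp1.le] at this

/-- the character -/
noncomputable def chi (p f : ℕ) [hp : Fact p.Prime] (x : ZMod p) : ZMod (p ^ 2) :=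
  (lift1 p).tau x ^ (7 * f)

theorem chi_mul (x y : ZMod p) : chi p f (x * y) = chi p f x * chi p f y := by
  unfold chi
  rw [(lift1 p).tau_mul, mul_pow]

theorem chi_zero (hf : 0 < f) : chi p f 0 = 0 := by
  unfold chi
  rw [(lift1 p).tau_zero, zero_pow (by omega)]

theorem chi_pow (x : ZMod p) (i : ℕ) : chi p f (x ^ i) = chi p f x ^ i := by
  unfold chi
  rw [(lift1 p).tau_pow, ← pow_mul, ← pow_mul, mul_comm]

theorem tau_pow_full (hpf : p = 8 * f + 1) {x : ZMod p} (hx : x ≠ 0) :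
    (lift1 p).tau x ^ (8 * f) = 1 := by
  rw [← (lift1 p).tau_pow, show 8 * f = p - 1 by omega, ZMod.pow_card_sub_one_eq_one hx,
    (lift1 p).tau_one]

theorem tau_inv (x : ZMod p) (hx : x ≠ 0) : (lift1 p).tau x * (lift1 p).tau x⁻¹ = 1 := by
  rw [← (lift1 p).tau_mul, mul_inv_cancel₀ hx, (lift1 p).tau_one]

theorem tau_two (hpf : p = 8 * f + 1) (hf : 0 < f) (y : ZMod p) :
    (lift1 p).tau y ^ (2 * f) = chi p f y⁻¹ ^ 2 := by
  unfold chi
  by_cases hy : y = 0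
  · subst hy
    rw [inv_zero, (lift1 p).tau_zero, zero_pow (by omega), zero_pow (by omega), zero_pow (by norm_num)]
  · have h1 := tau_pow_full hpf hy
    have h2 := tau_inv y hy
    have h3 : ((lift1 p).tau y * (lift1 p).tau y⁻¹) ^ (14 * f) = 1 := by rw [h2, one_pow]
    have h4 : (lift1 p).tau y ^ (16 * f) = 1 := by
      rw [show 16 * f = 8 * f * 2 by ring, pow_mul, h1, one_pow]
    rw [← pow_mul]
    calc (lift1 p).tau y ^ (2 * f)
        = (lift1 p).tau y ^ (2 * f) * ((lift1 p).tau y * (lift1 p).tau y⁻¹) ^ (14 * f) := by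
          rw [h3, mul_one]
      _ = (lift1 p).tau y ^ (16 * f) * (lift1 p).tau y⁻¹ ^ (7 * f * 2) := by
          rw [mul_pow, ← mul_assoc, ← pow_add]
          congr 2 <;> ring
      _ = _ := by rw [h4, one_mul]

theorem two_ne_zero' (hp2 : p ≠ 2) : (2 : ZMod p) ≠ 0 := by
  have : ((2 : ℕ) : ZMod p) ≠ 0 := by
    rw [ne_eq, ZMod.natCast_eq_zero_iff]
    intro h
    exact hp2 ((Nat.prime_dvd_prime_iff_eq hp.out Nat.prime_two).mp h)
  exact_mod_cast this

/-- the sum as a character sum -/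
theorem T_eq (hpf : p = 8 * f + 1) (hf : 0 < f) {g : (ZMod p)ˣ}
    (hg : ∀ x, x ∈ Subgroup.zpowers g) :
    ∑ i ∈ range (p - 1), (((((lift1 p).wu g) ^ i) ^ (-(f : ℤ)) : (ZMod (p ^ 2))ˣ) : ZMod (p ^ 2)) *
      ((1 + ((((lift1 p).wu g) ^ i : (ZMod (p ^ 2))ˣ) : ZMod (p ^ 2))) ^ p) ^ (2 * f) =
    ∑ x : ZMod p, chi p f (x * (1 + x)⁻¹ ^ 2) := by
  rw [sum_field hg, zero_mul, chi_zero hf, zero_add, ZMod.card]
  apply Finset.sum_congr rfl
  intro i _
  have h1 : (1 + ((((lift1 p).wu g) ^ i : (ZMod (p ^ 2))ˣ) : ZMod (p ^ 2))) ^ p =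
      (lift1 p).tau (1 + (g : ZMod p) ^ i) := by
    rw [← (lift1 p).tau_eq]
    congr 1
    rw [map_add, map_one, (lift1 p).wu_pow_val, (lift1 p).pi_tau, ← pow_mul, mul_comm, pow_mul,
      ZMod.pow_card]
  rw [h1, tau_two hpf hf, chi_mul, chi_pow, chi_pow]
  congr 1
  have h2 : (((lift1 p).wu g) ^ i) ^ (-(f : ℤ)) = (((lift1 p).wu g) ^ i) ^ (7 * f) := by
    rw [zpow_neg, inv_eq_iff_mul_eq_one, zpow_natCast, ← pow_add, show f + 7 * f = p - 1 by omega,
      ← pow_mul, mul_comm, pow_mul, (cyc1 hg).pow, one_pow]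
  rw [h2, Units.val_pow_eq_pow_val, (lift1 p).wu_pow_val, ← chi_pow]
  rfl

/-- the Cayley transform -/
theorem sum_cayley (hp2 : p ≠ 2) (G : ZMod p → ZMod (p ^ 2)) (hG : G 0 = 0) :
    ∑ x : ZMod p, G (x * (1 + x)⁻¹ ^ 2) = ∑ y : ZMod p, G (4⁻¹ * (1 - y ^ 2)) := by
  classical
  have h2 := two_ne_zero' (p := p) hp2
  have hinv : Function.Involutive (fun y : ZMod p => if y = -1 then -1 else (1 - y) * (1 + y)⁻¹) := by
    intro y
    simp only
    by_cases hy : y = -1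
    · simp [hy]
    · rw [if_neg hy]
      have h1 : 1 + y ≠ 0 := by
        intro h
        apply hy
        linear_combination h
      have h3 : (1 - y) * (1 + y)⁻¹ ≠ -1 := by
        intro h
        have h4 : (1 - y) = -(1 + y) := by
          field_simp at h
          linear_combination h
        apply h2
        linear_combination h4
      rw [if_neg h3]
      have h5 : 1 + (1 - y) * (1 + y)⁻¹ = 2 * (1 + y)⁻¹ := by
        field_simp
        ring
      rw [h5]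
      field_simp
      ring
  rw [← Equiv.sum_comp hinv.toPerm]
  apply Finset.sum_congr rfl
  intro y _
  simp only [Function.Involutive.coe_toPerm]
  by_cases hy : y = -1
  · rw [if_pos hy, hy]
    simp [hG]
  · rw [if_neg hy]
    have h1 : 1 + y ≠ 0 := by
      intro h
      apply hy
      linear_combination h
    have h5 : 1 + (1 - y) * (1 + y)⁻¹ = 2 * (1 + y)⁻¹ := by
      field_simp
      ring
    rw [h5]
    congr 1
    have h4 : (4 : ZMod p) = 2 * 2 := by norm_num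
    rw [h4]
    field_simp
    ring

theorem sum_squares (hp2 : p ≠ 2) (G : ZMod p → ZMod (p ^ 2)) :
    ∑ y : ZMod p, G (y ^ 2) = ∑ v : ZMod p, ((quadraticChar (ZMod p) v + 1 : ℤ) : ZMod (p ^ 2)) * G v := by
  classical
  rw [← Finset.sum_fiberwise (s := univ) (g := fun y : ZMod p => y ^ 2)]
  apply Finset.sum_congr rfl
  intro v _
  have h1 : ∑ y ∈ univ.filter (fun y : ZMod p => y ^ 2 = v), G (y ^ 2) =
      ∑ y ∈ univ.filter (fun y : ZMod p => y ^ 2 = v), G v := by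
    apply Finset.sum_congr rfl
    intro y hy
    rw [(Finset.mem_filter.mp hy).2]
  rw [h1, Finset.sum_const, nsmul_eq_mul, ← quadraticChar_card_sqrts (ringChar_ne_two hp2) v]
  congr 2
  rw [Int.cast_natCast]
  congr 2
  ext y
  simp


theorem chi_gen_four (hpf : p = 8 * f + 1) {g : (ZMod p)ˣ}
    (hg : ∀ x, x ∈ Subgroup.zpowers g) : chi p f (g : ZMod p) ^ 4 = -1 := by
  unfold chi
  rw [← pow_mul, ← (lift1 p).tau_pow, show 7 * f * 4 = (4 * f) * 7 by ring, pow_mul,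
    gen_half hg (t := 4 * f) (by omega), show (-1 : ZMod p) ^ 7 = -1 by norm_num]
  exact (lift1 p).tau_neg_one (by omega)

theorem sum_chi_zero (hpf : p = 8 * f + 1) (hf : 0 < f) {g : (ZMod p)ˣ}
    (hg : ∀ x, x ∈ Subgroup.zpowers g) : ∑ x : ZMod p, chi p f x = 0 := by
  rw [sum_field hg, chi_zero hf, zero_add, ZMod.card]
  have h1 := (cyc1 hg).sum ((7 * f : ℕ) : ℤ)
  rw [if_neg (by
    rintro ⟨c, hc⟩
    rcases lt_or_ge 0 c with h | h
    · have : ((p - 1 : ℕ) : ℤ) ≤ ((p - 1 : ℕ) : ℤ) * c := by nlinarith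
      omega
    · have : ((p - 1 : ℕ) : ℤ) * c ≤ 0 := by nlinarith
      omega)] at h1
  rw [← h1]
  apply Finset.sum_congr rfl
  intro i _
  rw [zpow_natCast, Units.val_pow_eq_pow_val, (lift1 p).wu_pow_val]
  rfl

theorem sum_main (hpf : p = 8 * f + 1) (hf : 0 < f) {g : (ZMod p)ˣ}
    (hg : ∀ x, x ∈ Subgroup.zpowers g) :
    ∑ y : ZMod p, chi p f (4⁻¹ * (1 - y ^ 2)) = chi p f 4⁻¹ *
      ((cc f (aa g) : ZMod (p ^ 2)) + (dd f (aa g) : ZMod (p ^ 2)) *
        (chi p f (g : ZMod p) + chi p f (g : ZMod p) ^ 3)) := by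
  have hp2 : p ≠ 2 := by omega
  have hO := octData hpf hf hg
  simp only [chi_mul]
  rw [← Finset.mul_sum, sum_squares hp2 (fun v => chi p f (1 - v))]
  congr 1
  have h1 : ∀ v : ZMod p, ((quadraticChar (ZMod p) v + 1 : ℤ) : ZMod (p ^ 2)) * chi p f (1 - v) =
      ((quadraticChar (ZMod p) v : ℤ) : ZMod (p ^ 2)) * chi p f (1 - v) + chi p f (1 - v) := by
    intro v
    push_cast
    ring
  rw [Finset.sum_congr rfl (fun v _ => h1 v), Finset.sum_add_distrib]
  have h2 : ∑ v : ZMod p, chi p f (1 - v) = 0 := by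
    rw [← sum_chi_zero hpf hf hg]
    exact Equiv.sum_comp (Equiv.subLeft (1 : ZMod p)) (fun v => chi p f v)
  have h3 : ∑ v : ZMod p, ((quadraticChar (ZMod p) v : ℤ) : ZMod (p ^ 2)) * chi p f (1 - v) =
      ∑ v : ZMod p, chi p f v * ((quadraticChar (ZMod p) (1 - v) : ℤ) : ZMod (p ^ 2)) := by
    rw [← Equiv.sum_comp (Equiv.subLeft (1 : ZMod p))]
    apply Finset.sum_congr rfl
    intro v _
    simp only [Equiv.subLeft_apply, sub_sub_cancel]
    ring
  rw [h2, h3, add_zero, sum_field hg, chi_zero hf, zero_mul, zero_add, ZMod.card,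
    show p - 1 = 8 * f by omega, ← oct_sum hO (chi_gen_four hpf hg)]
  apply Finset.sum_congr rfl
  intro i _
  rw [chi_pow]
  rfl

/-- the sum modulo `p ^ 2` for `p = 8 f + 1` -/
theorem caseA_main (hpf : p = 8 * f + 1) (hf : 0 < f) {g : (ZMod p)ˣ}
    (hg : ∀ x, x ∈ Subgroup.zpowers g) :
    SR (-(4 : ZMod (p ^ 2))⁻¹) = -(-1) ^ f * (chi p f 4⁻¹ *
      ((cc f (aa g) : ZMod (p ^ 2)) + (dd f (aa g) : ZMod (p ^ 2)) *
        (chi p f (g : ZMod p) + chi p f (g : ZMod p) ^ 3))) := by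
  have hp2 : p ≠ 2 := by omega
  have hp1 := hp.out.one_lt
  have h4 : (4 : ZMod (p ^ 2)) * (4 : ZMod (p ^ 2))⁻¹ = 1 := by
    have := mul_v (p := p) (j := 4) (by norm_num) (by omega)
    unfold v at this
    exact_mod_cast this
  rw [← sum_main hpf hf hg, ← sum_cayley hp2 (fun x => chi p f x) (chi_zero hf),
    ← T_eq hpf hf hg, evalA hp2 (cyc1 hg) hf (by omega)]
  have hpR : (p : ZMod (p ^ 2)) = 8 * (f : ZMod (p ^ 2)) + 1 := by
    have : ((p : ℕ) : ZMod (p ^ 2)) = ((8 * f + 1 : ℕ) : ZMod (p ^ 2)) := by rw [← hpf]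
    rw [this]; push_cast; ring
  have h5 : -(4 : ZMod (p ^ 2))⁻¹ = (p : ZMod (p ^ 2)) * (-(4 : ZMod (p ^ 2))⁻¹) +
      ((2 * f : ℕ) : ZMod (p ^ 2)) := by
    push_cast
    linear_combination ((4 : ZMod (p ^ 2))⁻¹) * hpR + 2 * (f : ZMod (p ^ 2)) * h4
  rw [h5, SR_eq _ f (by omega)]
  push_cast at h5
  have hpp := p_mul_p (p := p)
  rw [Algebra.algebraMap_self, RingHom.id_apply]
  linear_combination ((-1) ^ f * ((Nat.choose (2 * f) f : ℕ) : ZMod (p ^ 2)) *
    (H p (2 * f) - H p f) * p) * h5 - ((-1) ^ f * ((Nat.choose (2 * f) f : ℕ) : ZMod (p ^ 2)) *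
    (H p (2 * f) - H p f) * (4 : ZMod (p ^ 2))⁻¹) * hpp

end Pool.Agent.Helper6.Sun
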