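import Mathlib

/-!
The quartic character of two for `p = x ^ 2 + 2 y ^ 2 = 8 f + 1`.
-/

namespace Pool.Agent.Helper6.Sun

open NumberTheorySymbols

set_option linter.unusedSectionVars false

variable {p f : ℕ} [hp : Fact p.Prime]

theorem coprime_of_eq {x y : ℕ} (h : p = x ^ 2 + 2 * y ^ 2) : Nat.Coprime x y := by
  have h1 : Nat.gcd x y ^ 2 ∣ p := by
    rw [h]
    have hx : Nat.gcd x y ^ 2 ∣ x ^ 2 := pow_dvd_pow_of_dvd (Nat.gcd_dvd_left x y) 2
    have hy : Nat.gcd x y ^ 2 ∣ y ^ 2 := pow_dvd_pow_of_dvd (Nat.gcd_dvd_right x y) 2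
    exact dvd_add hx (hy.mul_left 2)
  rcases (Nat.dvd_prime hp.out).mp h1 with h2 | h2
  · have : Nat.gcd x y = 1 := by
      have := Nat.eq_one_of_mul_eq_one_right (m := Nat.gcd x y) (n := Nat.gcd x y) (by rw [← sq]; exact h2)
      exact this
    exact this
  · exfalso
    have h3 := hp.out
    rw [← h2, sq] at h3
    have h4 : Nat.gcd x y ≠ 1 := by
      intro h5
      rw [h5] at h3
      revert h3
      norm_num
    exact Nat.not_prime_mul h4 h4 h3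

theorem sq_mod_eight {x : ℕ} (hx : x % 2 = 1) : x ^ 2 % 8 = 1 := by
  have : x % 8 = 1 ∨ x % 8 = 3 ∨ x % 8 = 5 ∨ x % 8 = 7 := by omega
  rcases this with h | h | h | h <;> rw [Nat.pow_mod, h]

theorem odd_x (hp2 : p ≠ 2) {x y : ℕ} (h : p = x ^ 2 + 2 * y ^ 2) : x % 2 = 1 := by
  by_contra hc
  have hx : x % 2 = 0 := by omega
  have h1 : x ^ 2 % 2 = 0 := by rw [Nat.pow_mod, hx]
  have h2 : p % 2 = 0 := by omega
  have h3 : 2 ∣ p := Nat.dvd_of_mod_eq_zero h2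
  exact hp2 ((Nat.prime_dvd_prime_iff_eq Nat.prime_two hp.out).mp h3).symm

theorem even_y (hpf : p = 8 * f + 1) {x y : ℕ} (h : p = x ^ 2 + 2 * y ^ 2) (hx : x % 2 = 1) :
    y % 2 = 0 := by
  by_contra hc
  have hy : y % 2 = 1 := by omega
  have h1 := sq_mod_eight hx
  have h2 := sq_mod_eight hy
  omega

theorem jacobi_y (hpf : p = 8 * f + 1) {x y : ℕ} (h : p = x ^ 2 + 2 * y ^ 2)
    (hy0 : y ≠ 0) : J((y : ℤ) | p) = 1 := by
  have hp2 : p ≠ 2 := by omega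
  have hodd := hp.out.odd_of_ne_two hp2
  obtain ⟨e, y', hy', hye⟩ := Nat.exists_eq_two_pow_mul_odd hy0
  have h2 : J(2 | p) = 1 := by
    rw [jacobiSym.at_two hodd, ZMod.χ₈_nat_eq_if_mod_eight]
    have : p % 8 = 1 := by omega
    simp [this, Nat.odd_iff.mp hodd]
  rw [hye]
  push_cast
  rw [jacobiSym.mul_left, jacobiSym.pow_left, h2, one_pow, one_mul,
    jacobiSym.quadratic_reciprocity_one_mod_four' hy' (by omega)]
  have h3 : ((p : ℕ) : ℤ) % y' = ((x : ℤ) ^ 2) % y' := by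
    rw [h, hye]
    push_cast
    rw [Int.emod_emod_of_dvd _ (dvd_refl _) |>.symm]
    rw [show (x : ℤ) ^ 2 + 2 * (2 ^ e * (y' : ℤ)) ^ 2 = (x : ℤ) ^ 2 + y' * (2 * (2 ^ e) ^ 2 * y') by ring,
      Int.add_mul_emod_self_left, Int.emod_emod_of_dvd _ (dvd_refl _)]
  rw [jacobiSym.mod_left' h3]
  apply jacobiSym.sq_one'
  have h4 := coprime_of_eq h
  rw [hye] at h4
  rw [Int.gcd_natCast_natCast]
  exact Nat.Coprime.coprime_mul_left_right h4

theorem jacobi_x (hpf : p = 8 * f + 1) {x y : ℕ} (h : p = x ^ 2 + 2 * y ^ 2) :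
    J((x : ℤ) | p) = ZMod.χ₈ (x : ZMod 8) := by
  have hp2 : p ≠ 2 := by omega
  have hx := odd_x hp2 h
  have hxo : Odd x := Nat.odd_iff.mpr hx
  rw [jacobiSym.quadratic_reciprocity_one_mod_four' hxo (by omega)]
  have h3 : ((p : ℕ) : ℤ) % x = (2 * (y : ℤ) ^ 2) % x := by
    rw [h]
    push_cast
    rw [show (x : ℤ) ^ 2 + 2 * (y : ℤ) ^ 2 = 2 * (y : ℤ) ^ 2 + x * x by ring,
      Int.add_mul_emod_self_left]
  rw [jacobiSym.mod_left' h3, jacobiSym.mul_left, jacobiSym.at_two hxo, jacobiSym.sq_one', mul_one]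
  rw [Int.gcd_natCast_natCast]
  exact (coprime_of_eq h).symm

theorem two_pow_quarter (hpf : p = 8 * f + 1) {x y : ℕ} (h : p = x ^ 2 + 2 * y ^ 2)
    (hy0 : y ≠ 0) : (2 : ZMod p) ^ (2 * f) = ((ZMod.χ₈ (x : ZMod 8) : ℤ) : ZMod p) := by
  have h1 := legendreSym.eq_pow p (x : ℤ)
  have h2 := legendreSym.eq_pow p (y : ℤ)
  rw [jacobiSym.legendreSym.to_jacobiSym] at h1 h2
  rw [jacobi_x hpf h] at h1
  rw [jacobi_y hpf h hy0] at h2
  have hp' : p / 2 = 4 * f := by omega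
  rw [hp'] at h1 h2
  rw [h1]
  push_cast at h2 ⊢
  -- `x ^ 2 = - 2 y ^ 2`
  have h3 : (x : ZMod p) ^ 2 = -2 * (y : ZMod p) ^ 2 := by
    have h4 : ((p : ℕ) : ZMod p) = ((x ^ 2 + 2 * y ^ 2 : ℕ) : ZMod p) := by rw [← h]
    rw [ZMod.natCast_self] at h4
    push_cast at h4
    linear_combination -h4
  have h5 : (x : ZMod p) ^ (4 * f) = ((x : ZMod p) ^ 2) ^ (2 * f) := by
    rw [← pow_mul]; congr 1; ring
  have h6 : (y : ZMod p) ^ (4 * f) = ((y : ZMod p) ^ 2) ^ (2 * f) := by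
    rw [← pow_mul]; congr 1; ring
  rw [h5, h3, mul_pow, ← h6, ← h2, mul_one, show (-2 : ZMod p) = -1 * 2 by ring, mul_pow,
    pow_mul (-1 : ZMod p)]
  simp

theorem chi8_sign (hpf : p = 8 * f + 1) {x y : ℕ} (h : p = x ^ 2 + 2 * y ^ 2) (hx : x % 2 = 1) :
    (ZMod.χ₈ (x : ZMod 8) : ℤ) * (-1) ^ f = (-1) ^ (y / 2) := by
  have hy := even_y hpf h hx
  obtain ⟨y1, hy1⟩ : ∃ y1, y = 2 * y1 := ⟨y / 2, by omega⟩
  obtain ⟨a, ha⟩ : ∃ a, x = 2 * a + 1 := ⟨x / 2, by omega⟩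
  -- `2 f = a (a + 1) + 2 y1 ^ 2`
  have h1 : 2 * f = a * (a + 1) + 2 * y1 ^ 2 := by
    rw [hy1, ha] at h
    nlinarith
  have h2 : y / 2 = y1 := by omega
  rw [h2]
  have h3 : (-1 : ℤ) ^ (y1 ^ 2) = (-1) ^ y1 := by
    rcases Nat.even_or_odd y1 with hh | hh
    · rw [hh.neg_one_pow, (hh.pow_of_ne_zero (by norm_num)).neg_one_pow]
    · rw [hh.neg_one_pow, hh.pow.neg_one_pow]
  rw [ZMod.χ₈_nat_eq_if_mod_eight]
  have ha4 : a % 4 = 0 ∨ a % 4 = 1 ∨ a % 4 = 2 ∨ a % 4 = 3 := by omega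
  obtain ⟨b, hb⟩ : ∃ b, a = 4 * b + a % 4 := ⟨a / 4, by omega⟩
  rcases ha4 with h4 | h4 | h4 | h4
  · have hf' : f = 2 * (b * (4 * b + 1)) + y1 ^ 2 := by
      rw [h4] at hb; rw [hb] at h1; nlinarith
    have hx8 : x % 8 = 1 := by omega
    rw [if_neg (by omega), if_pos (by omega), one_mul, hf', pow_add, pow_mul, h3]
    simp
  · have hf' : f = 2 * (4 * b * b + 3 * b) + 1 + y1 ^ 2 := by
      rw [h4] at hb; rw [hb] at h1; nlinarith
    have hx8 : x % 8 = 3 := by omega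
    rw [if_neg (by omega), if_neg (by omega), hf', pow_add, pow_add, pow_mul, h3]
    simp
  · have hf' : f = 2 * (4 * b * b + 5 * b + 1) + 1 + y1 ^ 2 := by
      rw [h4] at hb; rw [hb] at h1; nlinarith
    have hx8 : x % 8 = 5 := by omega
    rw [if_neg (by omega), if_neg (by omega), hf', pow_add, pow_add, pow_mul, h3]
    simp
  · have hf' : f = 2 * (4 * b * b + 7 * b + 3) + y1 ^ 2 := by
      rw [h4] at hb; rw [hb] at h1; nlinarith
    have hx8 : x % 8 = 7 := by omega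
    rw [if_neg (by omega), if_pos (by omega), one_mul, hf', pow_add, pow_mul, h3]
    simp

theorem y_ne_zero {x y : ℕ} (h : p = x ^ 2 + 2 * y ^ 2) : y ≠ 0 := by
  rintro rfl
  have h1 : p = x * x := by rw [h]; ring
  have h2 := hp.out
  rw [h1] at h2
  rcases Nat.lt_or_ge x 2 with h3 | h3
  · have := h2.two_le
    nlinarith
  · exact Nat.not_prime_mul (by omega) (by omega) h2

/-- uniqueness of the representation -/
theorem unique_rep {x y c d : ℤ} (h : (p : ℤ) = x ^ 2 + 2 * y ^ 2)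
    (h' : (p : ℤ) = c ^ 2 + 2 * d ^ 2) : c ^ 2 = x ^ 2 ∧ d ^ 2 = y ^ 2 := by
  have hp' : Prime (p : ℤ) := Nat.prime_iff_prime_int.mp hp.out
  have hp0 : (0 : ℤ) < p := by exact_mod_cast hp.out.pos
  have h1 : (p : ℤ) ∣ (c * y - d * x) * (c * y + d * x) := by
    refine ⟨y ^ 2 - d ^ 2, ?_⟩
    have : (c * y - d * x) * (c * y + d * x) =
        (c ^ 2 + 2 * d ^ 2) * y ^ 2 - d ^ 2 * (x ^ 2 + 2 * y ^ 2) := by ring
    rw [this, ← h, ← h']
    ring
  have key : c * y - d * x = 0 ∨ c * y + d * x = 0 := by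
    rcases hp'.dvd_or_dvd h1 with h2 | h2
    · left
      obtain ⟨t, ht⟩ := h2
      have h3 : (c * x + 2 * d * y) ^ 2 + 2 * (c * y - d * x) ^ 2 = (p : ℤ) ^ 2 := by
        have : (p : ℤ) ^ 2 = (x ^ 2 + 2 * y ^ 2) * (c ^ 2 + 2 * d ^ 2) := by
          rw [← h, ← h']; ring
        rw [this]; ring
      have h4 : t = 0 := by
        by_contra ht0
        have h5 : 1 ≤ t ^ 2 := by
          have : 0 < t ^ 2 := by positivity
          omega
        rw [ht] at h3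
        nlinarith [sq_nonneg (c * x + 2 * d * y), sq_nonneg (p : ℤ)]
      rw [ht, h4, mul_zero]
    · right
      obtain ⟨t, ht⟩ := h2
      have h3 : (c * x - 2 * d * y) ^ 2 + 2 * (c * y + d * x) ^ 2 = (p : ℤ) ^ 2 := by
        have : (p : ℤ) ^ 2 = (x ^ 2 + 2 * y ^ 2) * (c ^ 2 + 2 * d ^ 2) := by
          rw [← h, ← h']; ring
        rw [this]; ring
      have h4 : t = 0 := by
        by_contra ht0
        have h5 : 1 ≤ t ^ 2 := by
          have : 0 < t ^ 2 := by positivity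
          omega
        rw [ht] at h3
        nlinarith [sq_nonneg (c * x - 2 * d * y), sq_nonneg (p : ℤ)]
      rw [ht, h4, mul_zero]
  have h5 : (p : ℤ) * (y ^ 2 - d ^ 2) = 0 := by
    have : (p : ℤ) * (y ^ 2 - d ^ 2) =
        (c ^ 2 + 2 * d ^ 2) * y ^ 2 - d ^ 2 * (x ^ 2 + 2 * y ^ 2) := by
      rw [← h, ← h']
      ring
    rw [this]
    have e : (c ^ 2 + 2 * d ^ 2) * y ^ 2 - d ^ 2 * (x ^ 2 + 2 * y ^ 2) =
      (c * y - d * x) * (c * y + d * x) := by ring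
    rw [e]
    rcases key with h6 | h6 <;> rw [h6] <;> ring
  have h6 : y ^ 2 - d ^ 2 = 0 := by
    rcases mul_eq_zero.mp h5 with h7 | h7
    · omega
    · exact h7
  constructor
  · linarith
  · linarith

end Pool.Agent.Helper6.Sun
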