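import Mathlib
import Pool.Agent.Helper6.Sun.CaseA2
import Pool.Agent.Helper6.Sun.SignA

/-!
The sum for `p = 8 f + 1` modulo `p ^ 2`.
-/

namespace Pool.Agent.Helper6.Sun

open Finset

set_option linter.unusedSectionVars false

variable {p f : ℕ} [hp : Fact p.Prime]

theorem four_inv (hp2 : p ≠ 2) : (4 : ZMod (p ^ 2)) * (4 : ZMod (p ^ 2))⁻¹ = 1 := by
  have h : IsUnit ((4 : ℕ) : ZMod (p ^ 2)) := by
    apply isUnit_natCast
    intro h4
    have h5 : p ∣ 2 ^ 2 := by norm_num; exact h4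
    have := hp.out.dvd_of_dvd_pow h5
    exact hp2 ((Nat.prime_dvd_prime_iff_eq hp.out Nat.prime_two).mp this)
  have := ZMod.mul_inv_of_unit _ h
  exact_mod_cast this

theorem two_unit (hp2 : p ≠ 2) : IsUnit (2 : ZMod (p ^ 2)) := by
  have h : IsUnit ((2 : ℕ) : ZMod (p ^ 2)) := by
    apply isUnit_natCast
    intro h4
    exact hp2 ((Nat.prime_dvd_prime_iff_eq hp.out Nat.prime_two).mp h4)
  exact_mod_cast h

theorem choose_unit {n k : ℕ} (hk : k ≤ n) (hn : n < p) :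
    IsUnit ((Nat.choose n k : ℕ) : ZMod (p ^ 2)) := by
  apply isUnit_natCast
  intro h
  have h1 := Nat.choose_mul_factorial_mul_factorial hk
  have h2 : p ∣ n.factorial := by
    rw [← h1, mul_assoc]
    exact h.mul_right _
  rw [hp.out.dvd_factorial] at h2
  omega

theorem SR_unit {c a : ZMod (p ^ 2)} {n : ℕ} (hn : 2 * n < p)
    (ha : a = (p : ZMod (p ^ 2)) * c + ((2 * n : ℕ) : ZMod (p ^ 2))) : IsUnit (SR a) := by
  rw [ha, SR_eq c n hn]
  apply IsUnit.mul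
  · apply IsUnit.mul
    · exact (isUnit_one.neg).pow n
    · exact choose_unit (by omega) hn
  · rw [mul_assoc, add_comm]
    exact isUnit_add_p isUnit_one _

theorem quarter_eq (hpf : p = 8 * f + 1) : -(4 : ZMod (p ^ 2))⁻¹ =
    (p : ZMod (p ^ 2)) * (-(4 : ZMod (p ^ 2))⁻¹) + ((2 * f : ℕ) : ZMod (p ^ 2)) := by
  have hp1 := hp.out.two_le
  have h4 := four_inv (p := p) (by omega)
  have hpR : (p : ZMod (p ^ 2)) = 8 * (f : ZMod (p ^ 2)) + 1 := by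
    have : ((p : ℕ) : ZMod (p ^ 2)) = ((8 * f + 1 : ℕ) : ZMod (p ^ 2)) := by rw [← hpf]
    rw [this]; push_cast; ring
  push_cast
  linear_combination ((4 : ZMod (p ^ 2))⁻¹) * hpR + 2 * (f : ZMod (p ^ 2)) * h4

theorem chi_four_inv (hpf : p = 8 * f + 1) {s : ℤ} (hs : s = 1 ∨ s = -1)
    (h : (2 : ZMod p) ^ (2 * f) = ((s : ℤ) : ZMod p)) :
    chi p f 4⁻¹ = (s : ZMod (p ^ 2)) := by
  have hp1 := hp.out.two_le
  unfold chi
  rw [← (lift1 p).tau_pow]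
  have h4 : (4 : ZMod p)⁻¹ ^ (7 * f) = ((s : ℤ) : ZMod p) := by
    rw [inv_pow, show (4 : ZMod p) = 2 ^ 2 by norm_num, ← pow_mul, show 2 * (7 * f) = 2 * f * 7 by ring,
      pow_mul, h]
    rcases hs with rfl | rfl <;> norm_num
  rw [h4]
  rcases hs with rfl | rfl
  · push_cast
    exact (lift1 p).tau_one
  · push_cast
    exact (lift1 p).tau_neg_one (by omega)

/-- the algebra modulo `p ^ 2` -/
theorem unit_root {c d z K : ZMod (p ^ 2)} (hz : z ^ 4 = -1) (hn : (p : ZMod (p ^ 2)) = c ^ 2 + 2 * d ^ 2)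
    (hK : K = c + d * (z + z ^ 3)) (hu : IsUnit K) : K * (2 * c) = 4 * c ^ 2 - (p : ZMod (p ^ 2)) := by
  have hpp := p_mul_p (p := p)
  obtain ⟨K', hK'⟩ : ∃ K', K' = c - d * (z + z ^ 3) := ⟨_, rfl⟩
  have h1 : K * K' = p := by
    rw [hK, hK', hn]
    linear_combination (-d ^ 2 * (z ^ 2 + 2)) * hz
  have h2 : 2 * c = K + K' := by rw [hK, hK']; ring
  have h3 : K' ^ 2 = 0 := by
    have h4 : (K * K) * K' ^ 2 = 0 := by
      rw [← hpp]
      linear_combination (K * K' + p) * h1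
    exact (hu.mul hu).mul_right_eq_zero.mp h4
  have h5 : 4 * c ^ 2 = (K + K') ^ 2 := by rw [← h2]; ring
  rw [h2, h5]
  linear_combination -h3 - h1

/-- the result for `p = 8 f + 1` -/
theorem caseA_final (hpf : p = 8 * f + 1) (hf : 0 < f) (x y : ℤ) (h : (p : ℤ) = x ^ 2 + 2 * y ^ 2) :
    ∃ sg : ℤ, (-1 : ℚ) ^ ((x - 1) / 2 + y / 2) = sg ∧
      SR (-(4 : ZMod (p ^ 2))⁻¹) * (2 * (x : ZMod (p ^ 2))) =
        (sg : ZMod (p ^ 2)) * (4 * (x : ZMod (p ^ 2)) ^ 2 - (p : ZMod (p ^ 2))) := by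
  have hp2 : p ≠ 2 := by omega
  -- a generator
  obtain ⟨g, hg⟩ := IsCyclic.exists_generator (α := (ZMod p)ˣ)
  have hnorm := norm_eq hpf hf hg
  have hc4 := cc_mod_four (octData hpf hf hg) hf
  have hmain := caseA_main hpf hf hg
  obtain ⟨c, hc⟩ : ∃ c, c = cc f (aa g) := ⟨_, rfl⟩
  obtain ⟨d, hd⟩ : ∃ d, d = dd f (aa g) := ⟨_, rfl⟩
  rw [← hc, ← hd] at hnorm hmain
  rw [← hc] at hc4
  obtain ⟨hcx, hdy⟩ := unique_rep h hnorm
  -- natural numbers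
  obtain ⟨X, hX⟩ : ∃ X : ℕ, X = x.natAbs := ⟨_, rfl⟩
  obtain ⟨Y, hY⟩ : ∃ Y : ℕ, Y = y.natAbs := ⟨_, rfl⟩
  have hXx : (X : ℤ) ^ 2 = x ^ 2 := by rw [hX]; exact Int.natAbs_sq x
  have hYy : (Y : ℤ) ^ 2 = y ^ 2 := by rw [hY]; exact Int.natAbs_sq y
  have hXY : p = X ^ 2 + 2 * Y ^ 2 := by
    have : (p : ℤ) = (X : ℤ) ^ 2 + 2 * (Y : ℤ) ^ 2 := by rw [hXx, hYy]; exact h
    exact_mod_cast this
  have hXodd := odd_x hp2 hXY
  have hYeven := even_y hpf hXY hXodd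
  have hs := two_pow_quarter hpf hXY (y_ne_zero hXY)
  have hsign := chi8_sign hpf hXY hXodd
  obtain ⟨s, hs'⟩ : ∃ s : ℤ, s = ZMod.χ₈ (X : ZMod 8) := ⟨_, rfl⟩
  rw [← hs'] at hs hsign
  have hs1 : s = 1 ∨ s = -1 := by
    rw [hs', ZMod.χ₈_nat_eq_if_mod_eight]
    split_ifs
    · omega
    · left; rfl
    · right; rfl
  have hchi := chi_four_inv hpf hs1 hs
  rw [hchi] at hmain
  have hnR : (p : ZMod (p ^ 2)) = (c : ZMod (p ^ 2)) ^ 2 + 2 * (d : ZMod (p ^ 2)) ^ 2 := by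
    have : ((p : ℤ) : ZMod (p ^ 2)) = ((c ^ 2 + 2 * d ^ 2 : ℤ) : ZMod (p ^ 2)) := by rw [← hnorm]
    push_cast at this
    exact this
  obtain ⟨K, hK⟩ : ∃ K, K = (c : ZMod (p ^ 2)) + (d : ZMod (p ^ 2)) *
        (chi p f (g : ZMod p) + chi p f (g : ZMod p) ^ 3) := ⟨_, rfl⟩
  rw [← hK] at hmain
  have hSRu : IsUnit (SR (-(4 : ZMod (p ^ 2))⁻¹)) := SR_unit (by omega) (quarter_eq hpf)
  have hKu : IsUnit K := by
    rw [hmain] at hSRu
    exact isUnit_of_mul_isUnit_right (isUnit_of_mul_isUnit_right hSRu)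
  have hroot := unit_root (chi_gen_four hpf hg) hnR hK hKu
  -- the value for `c`
  have h1 : SR (-(4 : ZMod (p ^ 2))⁻¹) * (2 * (c : ZMod (p ^ 2))) =
      -((s * (-1) ^ f : ℤ) : ZMod (p ^ 2)) * (4 * (c : ZMod (p ^ 2)) ^ 2 - (p : ZMod (p ^ 2))) := by
    rw [← hroot, hmain]
    push_cast
    ring
  rw [hsign] at h1
  -- the sign
  have hYe : Even ((y / 2 : ℤ)) ↔ Even (Y / 2) := by
    have : y = Y ∨ y = -Y := by rw [hY]; omega
    rcases this with h2 | h2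
    · rw [Int.even_iff, Nat.even_iff]; omega
    · rw [Int.even_iff, Nat.even_iff]; omega
  have hysg : (-1 : ℚ) ^ (y / 2) = ((-1 : ℤ) ^ (Y / 2) : ℤ) := by
    rcases Nat.even_or_odd (Y / 2) with h2 | h2
    · rw [(hYe.mpr h2).neg_one_zpow, h2.neg_one_pow]; norm_num
    · rw [h2.neg_one_pow, Odd.neg_one_zpow]
      · norm_num
      · rw [← Int.not_even_iff_odd, hYe, Nat.not_even_iff_odd]; exact h2
  have hcx' : x = c ∨ x = -c := by
    rcases sq_eq_sq_iff_eq_or_eq_neg.mp hcx with h2 | h2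
    · left; exact h2.symm
    · right; omega
  rw [zpow_add₀ (by norm_num), hysg]
  rcases hcx' with h2 | h2
  · refine ⟨-(-1) ^ (Y / 2), ?_, ?_⟩
    · have : Odd ((x - 1) / 2) := by rw [Int.odd_iff]; omega
      rw [this.neg_one_zpow]
      push_cast
      ring
    · rw [h2, h1]
      push_cast
      ring
  · refine ⟨(-1) ^ (Y / 2), ?_, ?_⟩
    · have : Even ((x - 1) / 2) := by rw [Int.even_iff]; omega
      rw [this.neg_one_zpow]
      push_cast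
      ring
    · rw [h2]
      push_cast at h1 ⊢
      linear_combination -h1

end Pool.Agent.Helper6.Sun
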