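import Mathlib

/-!
Eisenstein sums of order eight over the field with `p ^ 2` elements.
-/

namespace Pool.Agent.Helper6.Sun

open Finset

set_option linter.unusedSectionVars false

section

variable {p : ℕ} {F : Type*} [Field F] [Fintype F] [DecidableEq F] [CharP F p] [hp : Fact p.Prime]

/-- the elements of norm one -/
def UU (p : ℕ) (F : Type*) [Field F] [Fintype F] [DecidableEq F] : Finset F :=
  univ.filter (fun u => u ^ (p + 1) = 1)

/-- the elements of trace one -/
def AA (p : ℕ) (F : Type*) [Field F] [Fintype F] [DecidableEq F] : Finset F :=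
  univ.filter (fun a => a + a ^ p = 1)

omit [Fintype F] [DecidableEq F] in
theorem frob_add (x y : F) : (x + y) ^ p = x ^ p + y ^ p := add_pow_char x y p

omit [DecidableEq F] [CharP F p] hp in
theorem pow_psq (hF : Fintype.card F = p ^ 2) (x : F) : (x ^ p) ^ p = x := by
  rw [← pow_mul, ← sq, ← hF, FiniteField.pow_card]

omit [CharP F p] hp in
theorem mem_UU {u : F} : u ∈ UU p F ↔ u ^ (p + 1) = 1 := by
  unfold UU; simp

omit [CharP F p] hp in
theorem mem_AA {a : F} : a ∈ AA p F ↔ a + a ^ p = 1 := by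
  unfold AA; simp

theorem U_ne_zero {u : F} (hu : u ∈ UU p F) : u ≠ 0 := by
  rintro rfl
  rw [mem_UU, zero_pow (by omega)] at hu
  exact zero_ne_one hu

theorem U_conj {u : F} (hu : u ∈ UU p F) : u ^ p = u⁻¹ := by
  rw [mem_UU, pow_succ] at hu
  exact eq_inv_of_mul_eq_one_left hu

theorem neg_one_mem (hp2 : p ≠ 2) : (-1 : F) ∈ UU p F := by
  rw [mem_UU]
  have := hp.out.odd_of_ne_two hp2
  exact (Odd.add_odd this (by norm_num)).neg_one_pow

theorem A_ne_zero {a : F} (ha : a ∈ AA p F) : a ≠ 0 := by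
  rintro rfl
  rw [mem_AA, zero_pow hp.out.ne_zero, add_zero] at ha
  exact zero_ne_one ha

/-- the bijection between norm one and trace one -/
theorem sum_U_eq_sum_A (hp2 : p ≠ 2) (hF : Fintype.card F = p ^ 2) {M : Type*} [AddCommMonoid M]
    (f : F → M) : ∑ u ∈ (UU p F).erase (-1), f (1 + u) = ∑ a ∈ AA p F, f a⁻¹ := by
  refine Finset.sum_nbij' (fun u => (1 + u)⁻¹) (fun a => a⁻¹ - 1) ?_ ?_ ?_ ?_ ?_
  · intro u hu
    rw [Finset.mem_erase] at hu
    have h0 := U_ne_zero hu.2
    have h1 : 1 + u ≠ 0 := by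
      intro h; apply hu.1; linear_combination h
    rw [mem_AA, inv_pow, frob_add, one_pow, U_conj hu.2]
    have h3 : 1 + u⁻¹ = (1 + u) * u⁻¹ := by
      rw [add_mul, mul_inv_cancel₀ h0]; ring
    rw [h3, mul_inv, inv_inv]
    have h4 := mul_inv_cancel₀ h1
    linear_combination h4
  · intro a ha
    have h0 := A_ne_zero ha
    have h1 := mem_AA.mp ha
    rw [Finset.mem_erase]
    constructor
    · intro h
      have : a⁻¹ = 0 := by linear_combination h
      exact h0 (inv_eq_zero.mp this)
    · rw [mem_UU]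
      have h2 : a⁻¹ - 1 = a ^ p * a⁻¹ := by
        field_simp
        linear_combination -h1
      rw [h2, pow_succ, mul_pow, pow_psq hF, inv_pow]
      have h3 : a ^ p ≠ 0 := pow_ne_zero _ h0
      field_simp
  · intro u hu
    rw [inv_inv]
    ring
  · intro a ha
    rw [add_sub_cancel, inv_inv]
  · intro u hu
    rw [inv_inv]

theorem zero_one_add (hp2 : p ≠ 2) {M : Type*} [AddCommMonoid M]
    (f : F → M) (hf : f 0 = 0) : ∑ u ∈ UU p F, f (1 + u) = ∑ u ∈ (UU p F).erase (-1), f (1 + u) := by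
  rw [← Finset.add_sum_erase _ _ (neg_one_mem hp2), add_neg_cancel, hf, zero_add]

/-- the number of elements of trace one whose multiple by `t` has trace one -/
theorem count_A (hF : Fintype.card F = p ^ 2) {t : F} (ht : t ^ p ≠ t) :
    ((AA p F).filter (fun a => t * a ∈ AA p F)).card = 1 := by
  rw [Finset.card_eq_one]
  have hd : t - t ^ p ≠ 0 := by
    intro h; apply ht; linear_combination -h
  have hd' : t ^ p - t ≠ 0 := by
    intro h; apply ht; linear_combination h
  refine ⟨(1 - t ^ p) * (t - t ^ p)⁻¹, ?_⟩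
  ext a
  rw [Finset.mem_filter, mem_AA, mem_AA, Finset.mem_singleton]
  constructor
  · rintro ⟨h1, h2⟩
    rw [mul_pow] at h2
    rw [eq_mul_inv_iff_mul_eq₀ hd]
    linear_combination h2 - t ^ p * h1
  · intro ha
    have h1 : a ^ p = (1 - t) * (t ^ p - t)⁻¹ := by
      rw [ha, mul_pow, inv_pow, sub_eq_add_neg, frob_add, one_pow, sub_eq_add_neg, frob_add]
      have e1 : (-(t ^ p)) ^ p = -t := by
        rcases hp.out.eq_two_or_odd with h2 | h2
        · subst h2
          have : (-(t ^ 2)) = t ^ 2 := by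
            have h3 : (2 : F) = 0 := by
              have := CharP.cast_eq_zero F 2
              exact_mod_cast this
            linear_combination (-(t ^ 2)) * h3
          rw [this, pow_psq hF]
          have h3 : (2 : F) = 0 := by
            have := CharP.cast_eq_zero F 2
            exact_mod_cast this
          linear_combination t * h3
        · rw [Odd.neg_pow (Nat.odd_iff.mpr h2), pow_psq hF]
      rw [e1]
      ring
    have h2 : a + a ^ p = 1 := by
      rw [h1, ha]
      field_simp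
      ring
    refine ⟨h2, ?_⟩
    rw [mul_pow, h1, ha]
    field_simp
    ring

theorem count_A_zero {t : F} (ht : t ^ p = t) (ht1 : t ≠ 1) :
    ((AA p F).filter (fun a => t * a ∈ AA p F)).card = 0 := by
  rw [Finset.card_eq_zero, Finset.filter_eq_empty_iff]
  intro a ha h
  rw [mem_AA] at ha h
  rw [mul_pow, ht] at h
  apply ht1
  linear_combination h - t * ha

/-- the norm of the sum -/
theorem norm_sum (hp2 : p ≠ 2) (hF : Fintype.card F = p ^ 2) (hUcard : (UU p F).card = p + 1)
    {K : Type*} [Field K] (χ ψ : F →*₀ K) (hinv : ∀ x, x ≠ 0 → χ x * ψ x = 1)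
    (hsum : ∑ x : F, χ x = 0) (hsub : ∑ x ∈ univ.filter (fun x : F => x ^ p = x), χ x = 0) :
    (∑ u ∈ UU p F, χ (1 + u)) * (∑ u ∈ UU p F, ψ (1 + u)) = p := by
  have hAcard : (AA p F).card = p := by
    have h1 := sum_U_eq_sum_A (p := p) (F := F) hp2 hF (fun _ => (1 : ℕ))
    rw [Finset.sum_const, Finset.sum_const, Finset.card_erase_of_mem (neg_one_mem hp2), hUcard] at h1
    simpa using h1.symm
  have e1 : ∑ u ∈ UU p F, χ (1 + u) = ∑ a ∈ AA p F, χ a⁻¹ := by
    rw [zero_one_add hp2 (fun x => χ x) (map_zero χ)]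
    exact sum_U_eq_sum_A hp2 hF (fun x => χ x)
  have e2 : ∑ u ∈ UU p F, ψ (1 + u) = ∑ a ∈ AA p F, χ a := by
    rw [zero_one_add hp2 (fun x => ψ x) (map_zero ψ), sum_U_eq_sum_A hp2 hF (fun x => ψ x)]
    apply Finset.sum_congr rfl
    intro a ha
    have h0 := A_ne_zero ha
    have h1 := hinv a h0
    have h2 : ψ a * ψ a⁻¹ = 1 := by rw [← map_mul, mul_inv_cancel₀ h0, map_one]
    calc ψ a⁻¹ = (χ a * ψ a) * ψ a⁻¹ := by rw [h1, one_mul]
      _ = χ a * (ψ a * ψ a⁻¹) := by ring
      _ = χ a := by rw [h2, mul_one]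
  rw [e1, e2, Finset.sum_mul_sum]
  have e3 : ∀ a ∈ AA p F, ∑ b ∈ AA p F, χ a⁻¹ * χ b =
      ∑ t : F, if t * a ∈ AA p F then χ t else 0 := by
    intro a ha
    have h0 := A_ne_zero ha
    rw [← Finset.sum_filter]
    refine Finset.sum_nbij' (fun b => b * a⁻¹) (fun t => t * a) ?_ ?_ ?_ ?_ ?_
    · intro b hb
      rw [Finset.mem_filter]
      refine ⟨mem_univ _, ?_⟩
      rw [mul_assoc, inv_mul_cancel₀ h0, mul_one]
      exact hb
    · intro t ht
      exact (Finset.mem_filter.mp ht).2
    · intro b _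
      rw [mul_assoc, inv_mul_cancel₀ h0, mul_one]
    · intro t _
      rw [mul_assoc, mul_inv_cancel₀ h0, mul_one]
    · intro b _
      rw [map_mul, mul_comm]
  rw [Finset.sum_congr rfl e3, Finset.sum_comm]
  have e4 : ∀ t : F, (∑ a ∈ AA p F, if t * a ∈ AA p F then χ t else 0) =
      χ t - (if t ^ p = t then χ t else 0) + (if t = 1 then (p : K) else 0) := by
    intro t
    rw [← Finset.sum_filter, Finset.sum_const, nsmul_eq_mul]
    by_cases h1 : t = 1
    · subst h1
      have h2 : (AA p F).filter (fun a => 1 * a ∈ AA p F) = AA p F := by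
        ext a; simp
      rw [h2, hAcard, if_pos (one_pow p), if_pos rfl, map_one]
      ring
    · by_cases h2 : t ^ p = t
      · rw [count_A_zero h2 h1, if_pos h2, if_neg h1]
        ring
      · rw [count_A hF h2, if_neg h2, if_neg h1]
        ring
  rw [Finset.sum_congr rfl (fun t _ => e4 t), Finset.sum_add_distrib, Finset.sum_sub_distrib, hsum,
    ← Finset.sum_filter, hsub, Finset.sum_ite_eq' univ (1 : F), if_pos (mem_univ _)]
  ring

end

end Pool.Agent.Helper6.Sun
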