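import Mathlib
import Pool.Agent.Helper6.Sun.Eis
import Pool.Agent.Helper6.Sun.CaseA1

/-!
The Eisenstein sum of order eight for `p = 8 h + 3`.
-/

namespace Pool.Agent.Helper6.Sun

open Finset

set_option linter.unusedSectionVars false

/-- real coefficient -/
def A8 (n : ℕ) : ℤ := if n % 8 = 0 then 1 else if n % 8 = 4 then -1 else 0

/-- imaginary coefficient -/
def B8 (n : ℕ) : ℤ :=
  if n % 8 = 1 ∨ n % 8 = 3 then 1 else if n % 8 = 5 ∨ n % 8 = 7 then -1 else 0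

theorem pow_eight {R : Type*} [CommRing R] {z : R} (hz : z ^ 4 = -1) : z ^ 8 = 1 := by
  have : z ^ 8 = (z ^ 4) ^ 2 := by ring
  rw [this, hz]; ring

theorem zsum {R : Type*} [CommRing R] {z : R} (hz : z ^ 4 = -1) (n : ℕ) :
    z ^ n + z ^ (3 * n) = 2 * (A8 n : R) + (B8 n : R) * (z + z ^ 3) := by
  have h8 : z ^ 8 = 1 := pow_eight hz
  have h1 : n = 8 * (n / 8) + n % 8 := (Nat.div_add_mod n 8).symm
  have e1 : z ^ n = z ^ (n % 8) := by
    conv_lhs => rw [h1]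
    rw [pow_add, pow_mul, h8, one_pow, one_mul]
  have e2 : z ^ (3 * n) = z ^ (3 * (n % 8)) := by
    conv_lhs => rw [h1]
    rw [show 3 * (8 * (n / 8) + n % 8) = 8 * (3 * (n / 8)) + 3 * (n % 8) by ring, pow_add, pow_mul,
      h8, one_pow, one_mul]
  rw [e1, e2]
  unfold A8 B8
  have h2 : n % 8 < 8 := Nat.mod_lt _ (by norm_num)
  obtain ⟨r, hr⟩ : ∃ r, r = n % 8 := ⟨_, rfl⟩
  rw [← hr] at h2 ⊢
  interval_cases r
  · norm_num
  · norm_num
  · norm_num
    linear_combination z ^ 2 * hz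
  · norm_num
    linear_combination (z * (z ^ 4 - 1)) * hz
  · norm_num
    linear_combination (1 + (z ^ 8 - z ^ 4 + 1)) * hz
  · norm_num
    linear_combination (z + z ^ 3 * (z ^ 8 - z ^ 4 + 1)) * hz
  · norm_num
    linear_combination (z ^ 6 * (z ^ 8 - z ^ 4 + 1)) * hz
  · norm_num
    linear_combination (z ^ 3 + z * (z ^ 16 - z ^ 12 + z ^ 8 - z ^ 4 + 1)) * hz

section

variable {p h : ℕ} {F : Type*} [Field F] [Fintype F] [DecidableEq F] [CharP F p] [hp : Fact p.Prime]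
  {g : Fˣ}

/-- discrete logarithm -/
noncomputable def dl (g : Fˣ) (x : F) : ℕ := by
  classical
  exact if h : ∃ n : ℕ, (g : F) ^ n = x then Nat.find h else 0

theorem dl_spec (hg : ∀ x, x ∈ Subgroup.zpowers g) {x : F} (hx : x ≠ 0) : (g : F) ^ dl g x = x := by
  classical
  have h1 : ∃ n : ℕ, (g : F) ^ n = x := by
    obtain ⟨i, hi, hix⟩ := (mem_zpowers_iff_mem_range_orderOf (x := g)
      (y := Units.mk0 x hx)).mp (hg _) |> Finset.mem_image.mp
    refine ⟨i, ?_⟩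
    have := congrArg (Units.val) hix
    simpa using this
  unfold dl
  rw [dif_pos h1]
  exact Nat.find_spec h1

/-- the real part of the Eisenstein sum -/
noncomputable def ecc (p : ℕ) (g : Fˣ) : ℤ := ∑ u ∈ (UU p F).erase (-1), A8 (dl g (1 + u))

/-- the imaginary part of the Eisenstein sum -/
noncomputable def ebb (p : ℕ) (g : Fˣ) : ℤ := ∑ u ∈ (UU p F).erase (-1), B8 (dl g (1 + u))

theorem one_add_ne {u : F} (hu : u ∈ (UU p F).erase (-1)) : 1 + u ≠ 0 := by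
  intro h
  exact (Finset.mem_erase.mp hu).1 (by linear_combination h)

theorem inv_mem (hp2 : p ≠ 2) {u : F} (hu : u ∈ (UU p F).erase (-1)) : u⁻¹ ∈ (UU p F).erase (-1) := by
  rw [Finset.mem_erase, mem_UU] at hu ⊢
  refine ⟨?_, ?_⟩
  · intro h
    apply hu.1
    have := congrArg (fun x : F => x⁻¹) h
    simpa using this
  · rw [inv_pow, hu.2, inv_one]

theorem eis_value (hph : p = 8 * h + 3) {R : Type*} [CommRing R]
    (hg : ∀ x, x ∈ Subgroup.zpowers g) (χ : F →*₀ R) {z : R} (hχ : χ (g : F) = z)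
    (hz : z ^ 4 = -1) :
    2 * ∑ u ∈ UU p F, χ (1 + u) = 2 * (ecc p g : R) + (ebb p g : R) * (z + z ^ 3) := by
  have hp2 : p ≠ 2 := by omega
  rw [zero_one_add hp2 (fun x => χ x) (map_zero χ)]
  have h1 : ∑ u ∈ (UU p F).erase (-1), χ (1 + u) = ∑ u ∈ (UU p F).erase (-1), χ (1 + u) ^ p := by
    refine Finset.sum_nbij' (fun u => u⁻¹) (fun u => u⁻¹) ?_ ?_ ?_ ?_ ?_
    · intro u hu; exact inv_mem hp2 hu
    · intro u hu; exact inv_mem hp2 hu
    · intro u _; exact inv_inv u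
    · intro u _; exact inv_inv u
    · intro u hu
      have hu' := (Finset.mem_erase.mp hu).2
      rw [← map_pow, frob_add, one_pow, inv_pow, U_conj hu', inv_inv]
  have h2 : ∀ u ∈ (UU p F).erase (-1), χ (1 + u) + χ (1 + u) ^ p =
      2 * (A8 (dl g (1 + u)) : R) + (B8 (dl g (1 + u)) : R) * (z + z ^ 3) := by
    intro u hu
    have hn := one_add_ne hu
    have h3 : χ (1 + u) = z ^ dl g (1 + u) := by
      rw [← hχ, ← map_pow, dl_spec hg hn]
    rw [← zsum hz, h3, ← pow_mul]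
    congr 1
    rw [hph, show dl g (1 + u) * (8 * h + 3) = 8 * (dl g (1 + u) * h) + 3 * dl g (1 + u) by ring,
      pow_add, pow_mul, pow_eight hz, one_pow, one_mul]
  have h3 : 2 * ∑ u ∈ (UU p F).erase (-1), χ (1 + u) =
      ∑ u ∈ (UU p F).erase (-1), (χ (1 + u) + χ (1 + u) ^ p) := by
    rw [Finset.sum_add_distrib, ← h1]; ring
  rw [h3, Finset.sum_congr rfl h2, Finset.sum_add_distrib, ← Finset.mul_sum, ← Finset.sum_mul]
  unfold ecc ebb
  push_cast
  rfl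

theorem order_sq (hF : Fintype.card F = p ^ 2) (hg : ∀ x, x ∈ Subgroup.zpowers g) :
    orderOf g = (p - 1) * (p + 1) := by
  rw [orderOf_eq_card_of_forall_mem_zpowers hg, Nat.card_eq_fintype_card, Fintype.card_units, hF]
  have := hp.out.one_lt
  obtain ⟨q, rfl⟩ : ∃ q, p = q + 1 := ⟨p - 1, by omega⟩
  rw [Nat.add_sub_cancel]
  have : (q + 1) ^ 2 = q * (q + 1 + 1) + 1 := by ring
  rw [this, Nat.add_sub_cancel]

theorem pow_eq_one_sq (hF : Fintype.card F = p ^ 2) (hg : ∀ x, x ∈ Subgroup.zpowers g) {m : ℕ} :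
    (g : F) ^ m = 1 ↔ (p - 1) * (p + 1) ∣ m := by
  rw [← order_sq hF hg, orderOf_dvd_iff_pow_eq_one]
  constructor
  · intro h
    apply Units.ext
    push_cast
    exact h
  · intro h
    have := congrArg Units.val h
    push_cast at this
    exact this

theorem sum_UU (hF : Fintype.card F = p ^ 2) (hg : ∀ x, x ∈ Subgroup.zpowers g)
    {M : Type*} [AddCommMonoid M] (G : F → M) :
    ∑ u ∈ UU p F, G u = ∑ i ∈ range (p + 1), G (((g : F) ^ (p - 1)) ^ i) := by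
  have hp1 := hp.out.one_lt
  symm
  apply Finset.sum_bij (fun i _ => ((g : F) ^ (p - 1)) ^ i)
  · intro i _
    rw [mem_UU, ← pow_mul, ← pow_mul, pow_eq_one_sq hF hg]
    exact ⟨i, by ring⟩
  · intro i hi j hj hij
    rw [mem_range] at hi hj
    have h2 : g ^ ((p - 1) * i) = g ^ ((p - 1) * j) := by
      apply Units.ext
      push_cast
      rw [pow_mul, pow_mul]
      exact hij
    have hi' : (p - 1) * i ∈ Set.Iio (orderOf g) := by
      rw [order_sq hF hg, Set.mem_Iio]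
      exact (Nat.mul_lt_mul_left (by omega)).mpr hi
    have hj' : (p - 1) * j ∈ Set.Iio (orderOf g) := by
      rw [order_sq hF hg, Set.mem_Iio]
      exact (Nat.mul_lt_mul_left (by omega)).mpr hj
    have h3 := pow_injOn_Iio_orderOf hi' hj' h2
    exact Nat.eq_of_mul_eq_mul_left (by omega) h3
  · intro u hu
    have hu0 := U_ne_zero hu
    obtain ⟨n, hn, hnu⟩ := (mem_zpowers_iff_mem_range_orderOf (x := g)
      (y := Units.mk0 u hu0)).mp (hg _) |> Finset.mem_image.mp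
    have hnu' : (g : F) ^ n = u := by
      have := congrArg (Units.val) hnu
      simpa using this
    rw [order_sq hF hg, mem_range] at hn
    rw [mem_UU, ← hnu', ← pow_mul, pow_eq_one_sq hF hg] at hu
    have h1 : p - 1 ∣ n := Nat.dvd_of_mul_dvd_mul_right (by omega) hu
    obtain ⟨i, rfl⟩ := h1
    refine ⟨i, ?_, ?_⟩
    · rw [mem_range]
      exact Nat.lt_of_mul_lt_mul_left hn
    · rw [← pow_mul]; exact hnu'
  · intro i _
    rfl

theorem card_UU (hF : Fintype.card F = p ^ 2) (hg : ∀ x, x ∈ Subgroup.zpowers g) :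
    (UU p F).card = p + 1 := by
  have := sum_UU hF hg (fun _ => (1 : ℕ))
  simpa using this

theorem sum_sub_zero (hph : p = 8 * h + 3) (hF : Fintype.card F = p ^ 2)
    (hg : ∀ x, x ∈ Subgroup.zpowers g) (χ : F →*₀ ℂ) (hχ : χ (g : F) ^ 4 = -1) :
    ∑ x ∈ univ.filter (fun x : F => x ^ p = x), χ x = 0 := by
  have hp1 := hp.out.one_lt
  have hγ0 : (g : F) ^ (p + 1) ≠ 0 := pow_ne_zero _ (Units.ne_zero g)
  have hγ : ((g : F) ^ (p + 1)) ^ p = (g : F) ^ (p + 1) := by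
    have h1 : p = (p - 1) + 1 := by omega
    have h2 : ((g : F) ^ (p + 1)) ^ (p - 1) = 1 := by
      rw [← pow_mul, pow_eq_one_sq hF hg, mul_comm]
    conv_lhs => rw [h1, pow_succ ((g : F) ^ (p - 1 + 1 + 1)), ← h1, h2, one_mul]
  have hχγ : χ ((g : F) ^ (p + 1)) = -1 := by
    rw [map_pow, show p + 1 = 4 + 8 * h by omega, pow_add, pow_mul, pow_eight hχ, one_pow, mul_one, hχ]
  have h1 : ∑ x ∈ univ.filter (fun x : F => x ^ p = x), χ x =
      ∑ x ∈ univ.filter (fun x : F => x ^ p = x), (-χ x) := by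
    refine Finset.sum_nbij' (fun x => ((g : F) ^ (p + 1))⁻¹ * x) (fun x => (g : F) ^ (p + 1) * x)
      ?_ ?_ ?_ ?_ ?_
    · intro x hx
      rw [Finset.mem_filter] at hx ⊢
      refine ⟨mem_univ _, ?_⟩
      rw [mul_pow, inv_pow, hγ, hx.2]
    · intro x hx
      rw [Finset.mem_filter] at hx ⊢
      refine ⟨mem_univ _, ?_⟩
      rw [mul_pow, hγ, hx.2]
    · intro x _
      rw [← mul_assoc, mul_inv_cancel₀ hγ0, one_mul]
    · intro x _
      rw [← mul_assoc, inv_mul_cancel₀ hγ0, one_mul]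
    · intro x _
      rw [map_mul, map_inv₀, hχγ]
      norm_num
  rw [Finset.sum_neg_distrib] at h1
  have h2 : (2 : ℂ) * ∑ x ∈ univ.filter (fun x : F => x ^ p = x), χ x = 0 := by
    linear_combination h1
  rcases mul_eq_zero.mp h2 with h3 | h3
  · norm_num at h3
  · exact h3

/-- the norm -/
theorem eis_norm (hph : p = 8 * h + 3) (hF : Fintype.card F = p ^ 2)
    (hg : ∀ x, x ∈ Subgroup.zpowers g) :
    2 * (p : ℤ) = 2 * ecc p g ^ 2 + ebb p g ^ 2 := by
  have hp2 : p ≠ 2 := by omega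
  obtain ⟨ζ, hζ⟩ : ∃ ζ : ℂ, IsPrimitiveRoot ζ 8 := ⟨_, Complex.isPrimitiveRoot_exp 8 (by norm_num)⟩
  have hζ8 : ζ ^ 8 = 1 := hζ.pow_eq_one
  have hζ4 : ζ ^ 4 = -1 := by
    have h1 : (ζ ^ 4) ^ 2 = 1 := by rw [← pow_mul]; exact hζ8
    rcases sq_eq_one_iff.mp h1 with h | h
    · exfalso
      have := hζ.dvd_of_pow_eq_one 4 h
      omega
    · exact h
  have hζ0 : ζ ≠ 0 := by
    rintro rfl
    norm_num at hζ8
  obtain ⟨u, hu⟩ : ∃ u : ℂˣ, (u : ℂ) = ζ := ⟨Units.mk0 ζ hζ0, rfl⟩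
  have hN : (p - 1) * (p + 1) = 8 * ((4 * h + 1) * (2 * h + 1)) := by
    rw [hph, show 8 * h + 3 - 1 = 8 * h + 2 by omega]; ring
  have hcard : Fintype.card Fˣ = (p - 1) * (p + 1) := by
    rw [← order_sq hF hg, orderOf_eq_card_of_forall_mem_zpowers hg, Nat.card_eq_fintype_card]
  have humem : u ∈ rootsOfUnity (Fintype.card Fˣ) ℂ := by
    rw [mem_rootsOfUnity, hcard, hN, pow_mul]
    have : u ^ 8 = 1 := by
      apply Units.ext
      push_cast
      rw [hu, hζ8]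
    rw [this, one_pow]
  obtain ⟨χ, hχ⟩ : ∃ χ : MulChar F ℂ, χ (g : F) = ζ :=
    ⟨MulChar.ofRootOfUnity humem hg, by rw [MulChar.ofRootOfUnity_spec humem hg, hu]⟩
  have hχ1 : χ ≠ 1 := by
    intro h
    rw [h, MulChar.one_apply_coe] at hχ
    rw [← hχ] at hζ4
    norm_num at hζ4
  have hsum := MulChar.sum_eq_zero_of_ne_one hχ1
  have hχinv : χ⁻¹ (g : F) = -ζ ^ 3 := by
    rw [MulChar.inv_apply_eq_inv', hχ]
    apply inv_eq_of_mul_eq_one_right
    linear_combination -hζ4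
  have key := norm_sum (p := p) hp2 hF (card_UU hF hg) χ.toMonoidWithZeroHom χ⁻¹.toMonoidWithZeroHom
    (by
      intro x hx
      change χ x * χ⁻¹ x = 1
      rw [MulChar.inv_apply_eq_inv']
      apply mul_inv_cancel₀
      intro h0
      have : IsUnit x := isUnit_iff_ne_zero.mpr hx
      exact (this.map χ).ne_zero h0) hsum
    (sum_sub_zero hph hF hg χ.toMonoidWithZeroHom (by
      change χ (g : F) ^ 4 = -1
      rw [hχ, hζ4]))
  have v1 := eis_value hph hg χ.toMonoidWithZeroHom (z := ζ) hχ hζ4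
  have v2 := eis_value hph hg χ⁻¹.toMonoidWithZeroHom (z := -ζ ^ 3) hχinv (by
    linear_combination (ζ ^ 8 - ζ ^ 4 + 1) * hζ4)
  obtain ⟨E1, hE1⟩ : ∃ E, E = ∑ u ∈ UU p F, χ.toMonoidWithZeroHom (1 + u) := ⟨_, rfl⟩
  obtain ⟨E2, hE2⟩ : ∃ E, E = ∑ u ∈ UU p F, χ⁻¹.toMonoidWithZeroHom (1 + u) := ⟨_, rfl⟩
  rw [← hE1] at key v1
  rw [← hE2] at key v2
  have h3 : (((2 : ℤ) * (p : ℤ) : ℤ) : ℂ) = ((2 * ecc p g ^ 2 + ebb p g ^ 2 : ℤ) : ℂ) := by
    push_cast
    obtain ⟨c, hc⟩ : ∃ c, c = (ecc p g : ℂ) := ⟨_, rfl⟩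
    obtain ⟨d, hd⟩ : ∃ d, d = (ebb p g : ℂ) := ⟨_, rfl⟩
    rw [← hc, ← hd] at v1 v2 ⊢
    have h4 : (2 : ℂ) * ((2 : ℂ) * (p : ℂ)) = 2 * (2 * c ^ 2 + d ^ 2) := by
      rw [← key]
      have h5 : 2 * (2 * (E1 * E2)) = (2 * E1) * (2 * E2) := by ring
      rw [h5, v1, v2]
      linear_combination (-(d ^ 2 * (ζ ^ 2 + 2) - (2 * c + d * (ζ + ζ ^ 3)) * d * ζ * (1 - ζ ^ 4))) * hζ4
    have h6 : (2 : ℂ) ≠ 0 := by norm_num
    exact mul_left_cancel₀ h6 h4
  exact_mod_cast h3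

end

end Pool.Agent.Helper6.Sun
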