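import Mathlib
import Pool.Agent.Helper6.Sun.Eval

/-!
Evaluation of the second character sum modulo `p ^ 2`.
-/

namespace Pool.Agent.Helper6.Sun

open Finset

set_option linter.unusedSectionVars false

variable {p : ℕ} [hp : Fact p.Prime]

theorem innerB {a M k : ℕ} (ha : 0 < a) (haM : a < M) (hM : M < p) (hk : k < M) :
    ∑ l ∈ Ico 1 p, (if (((p + 1 : ℕ) : ℤ)) ∣ (a : ℤ) - k + l then v p l * (-1) ^ l else 0) =
      if a < k then v p (k - a) * (-1) ^ (k - a)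
      else if 2 ≤ a - k then v p (p + 1 - (a - k)) * (-1) ^ (p + 1 - (a - k)) else 0 := by
  split_ifs with h1 h2
  · rw [Finset.sum_eq_single (k - a)]
    · rw [if_pos]
      exact ⟨0, by omega⟩
    · intro l hl hne
      rw [Finset.mem_Ico] at hl
      rw [if_neg]
      rintro ⟨c, hc⟩
      have hc0 : c ≠ 0 := by rintro rfl; apply hne; omega
      rcases lt_or_gt_of_ne hc0 with hneg | hpos
      · have : (((p + 1 : ℕ) : ℤ)) * c ≤ -((p + 1 : ℕ) : ℤ) := by nlinarith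
        omega
      · have : (((p + 1 : ℕ) : ℤ)) ≤ ((p + 1 : ℕ) : ℤ) * c := by nlinarith
        omega
    · intro hn
      exact absurd (Finset.mem_Ico.mpr ⟨by omega, by omega⟩) hn
  · rw [Finset.sum_eq_single (p + 1 - (a - k))]
    · rw [if_pos]
      exact ⟨1, by omega⟩
    · intro l hl hne
      rw [Finset.mem_Ico] at hl
      rw [if_neg]
      rintro ⟨c, hc⟩
      have hc1 : c ≠ 1 := by rintro rfl; apply hne; omega
      rcases lt_or_gt_of_ne hc1 with hneg | hpos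
      · have : (((p + 1 : ℕ) : ℤ)) * c ≤ 0 := by nlinarith
        omega
      · have : (((p + 1 : ℕ) : ℤ)) * 2 ≤ ((p + 1 : ℕ) : ℤ) * c := by nlinarith
        omega
    · intro hn
      exact absurd (Finset.mem_Ico.mpr ⟨by omega, by omega⟩) hn
  · apply Finset.sum_eq_zero
    intro l hl
    rw [Finset.mem_Ico] at hl
    rw [if_neg]
    rintro ⟨c, hc⟩
    rcases lt_or_ge 0 c with hpos | hneg
    · have : (((p + 1 : ℕ) : ℤ)) ≤ ((p + 1 : ℕ) : ℤ) * c := by nlinarith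
      omega
    · have : (((p + 1 : ℕ) : ℤ)) * c ≤ 0 := by nlinarith
      omega

theorem sumB {a M : ℕ} (hp2 : p ≠ 2) (ha : 0 < a) (haM : a < M) (hM : M < p) :
    (p : ZMod (p ^ 2)) * (∑ k ∈ range M, ((Nat.choose (M - 1) k : ℕ) : ZMod (p ^ 2)) *
      (if a < k then v p (k - a) * (-1) ^ (k - a)
      else if 2 ≤ a - k then v p (p + 1 - (a - k)) * (-1) ^ (p + 1 - (a - k)) else 0)) =
      p * (Psi p (M - 1) (M - 1 - a) + Psi p (M - 1) (a - 1)) := by
  have hodd := hp.out.odd_of_ne_two hp2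
  obtain ⟨b, rfl⟩ : ∃ b, a = b + 1 := ⟨a - 1, by omega⟩
  obtain ⟨c, rfl⟩ : ∃ c, M = b + 2 + c := ⟨M - (b + 2), by omega⟩
  rw [Finset.sum_range_add, Finset.sum_range_succ, Finset.sum_range_succ]
  rw [if_neg (by omega), if_neg (by omega), if_neg (by omega), if_neg (by omega), mul_zero, mul_zero,
    add_zero, add_zero]
  have h1 : (p : ZMod (p ^ 2)) * ∑ k ∈ range b, ((Nat.choose (b + 2 + c - 1) k : ℕ) : ZMod (p ^ 2)) *
      (if b + 1 < k then v p (k - (b + 1)) * (-1) ^ (k - (b + 1))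
      else if 2 ≤ b + 1 - k then v p (p + 1 - (b + 1 - k)) * (-1) ^ (p + 1 - (b + 1 - k)) else 0) =
      p * Psi p (b + 2 + c - 1) b := by
    unfold Psi
    rw [Finset.mul_sum, Finset.mul_sum]
    apply Finset.sum_congr rfl
    intro k hk
    have hk' := mem_range.mp hk
    rw [if_neg (by omega), if_pos (by omega)]
    have e2 := p_mul_v_sub (p := p) (j := b - k - 1) (by omega)
    rw [show p - 1 - (b - k - 1) = p + 1 - (b + 1 - k) by omega, show b - k - 1 + 1 = b - k by omega]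
      at e2
    have e4 : (-1 : ZMod (p ^ 2)) ^ (p + 1 - (b + 1 - k)) = -(-1) ^ (b - k) := by
      have e5 : (-1 : ZMod (p ^ 2)) ^ (p + 1 - (b + 1 - k)) * (-1) ^ (b - k) = -1 := by
        rw [← pow_add, show p + 1 - (b + 1 - k) + (b - k) = p by omega, hodd.neg_one_pow]
      have e7 : (-1 : ZMod (p ^ 2)) ^ (b - k) * (-1) ^ (b - k) = 1 := by
        rw [← mul_pow]; simp
      linear_combination ((-1 : ZMod (p ^ 2)) ^ (b - k)) * e5 -
        ((-1 : ZMod (p ^ 2)) ^ (p + 1 - (b + 1 - k))) * e7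
    rw [e4]
    linear_combination (-((Nat.choose (b + 2 + c - 1) k : ℕ) : ZMod (p ^ 2)) * (-1) ^ (b - k)) * e2
  have h2 : ∑ x ∈ range c, ((Nat.choose (b + 2 + c - 1) (b + 2 + x) : ℕ) : ZMod (p ^ 2)) *
      (if b + 1 < b + 2 + x then v p (b + 2 + x - (b + 1)) * (-1) ^ (b + 2 + x - (b + 1))
      else if 2 ≤ b + 1 - (b + 2 + x) then v p (p + 1 - (b + 1 - (b + 2 + x))) *
        (-1) ^ (p + 1 - (b + 1 - (b + 2 + x))) else 0) = Psi p (b + 2 + c - 1) c := by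
    unfold Psi
    rw [← Finset.sum_range_reflect]
    apply Finset.sum_congr rfl
    intro x hx
    have hx' := mem_range.mp hx
    rw [if_pos (by omega)]
    have e1 : Nat.choose (b + 2 + c - 1) (b + 2 + (c - 1 - x)) = Nat.choose (b + 2 + c - 1) x := by
      rw [← Nat.choose_symm (by omega : x ≤ b + 2 + c - 1)]
      congr 1
      omega
    rw [e1, show b + 2 + (c - 1 - x) - (b + 1) = c - x by omega]
    ring
  rw [mul_add, h1, h2, show b + 2 + c - 1 - (b + 1) = c by omega, Nat.add_sub_cancel]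
  ring

section

variable {R : Type*} [CommRing R] [Algebra (ZMod (p ^ 2)) R] {w : Rˣ}

theorem evalB (hp2 : p ≠ 2) (h : Cyc w (p + 1)) {a M : ℕ} (ha : 0 < a) (haM : a < M) (hM : M < p) :
    ∑ i ∈ range (p + 1), (((w ^ i) ^ (a : ℤ) : Rˣ) : R) *
      ((1 + ((w ^ i : Rˣ) : R)) ^ p) ^ M =
      algebraMap (ZMod (p ^ 2)) R (((Nat.choose M a : ℕ) : ZMod (p ^ 2)) *
        (1 + (p : ZMod (p ^ 2)) * ((M : ZMod (p ^ 2)) * H p M - (a : ZMod (p ^ 2)) * H p (M - a) -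
          ((M : ZMod (p ^ 2)) - (a : ZMod (p ^ 2))) * H p a))) := by
  have hp1 := hp.out.one_lt
  have hXp : ∀ i : ℕ, ((w ^ i : Rˣ) : R) ^ p = (((w ^ i)⁻¹ : Rˣ) : R) := by
    intro i
    rw [← Units.val_pow_eq_pow_val]
    congr 1
    rw [eq_inv_iff_mul_eq_one, ← pow_succ, ← pow_mul, mul_comm, pow_mul, h.pow, one_pow]
  obtain ⟨m, hm⟩ : ∃ m, M = m + 1 := ⟨M - 1, by omega⟩
  have e1 : ∀ i ∈ range (p + 1), (((w ^ i) ^ (a : ℤ) : Rˣ) : R) *
      ((1 + ((w ^ i : Rˣ) : R)) ^ p) ^ M =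
      (((w ^ i) ^ (a : ℤ) : Rˣ) : R) * (1 + (((w ^ i)⁻¹ : Rˣ) : R)) ^ M -
      (M : ℕ) * p * ((((w ^ i) ^ (a : ℤ) : Rˣ) : R) * (1 + (((w ^ i)⁻¹ : Rˣ) : R)) ^ m *
        LL p ((w ^ i : Rˣ) : R)) := by
    intro i _
    rw [one_add_pow, hXp, hm, sub_p_pow]
    ring
  have hinv : Cyc w⁻¹ (p + 1) := by
    refine ⟨by rw [inv_pow, h.pow, inv_one], fun e he => ?_⟩
    rw [inv_zpow']
    exact h.unit (-e) (by rwa [dvd_neg])
  have e0 : ∑ i ∈ range (p + 1), (((w ^ i) ^ (a : ℤ) : Rˣ) : R) *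
      (1 + (((w ^ i)⁻¹ : Rˣ) : R)) ^ M = ((p + 1 : ℕ) : R) * ((Nat.choose M a : ℕ) : R) := by
    rw [← sumF hinv (by omega) (by omega) (by omega)]
    apply Finset.sum_congr rfl
    intro i _
    rw [inv_pow, inv_zpow', neg_neg]
  rw [Finset.sum_congr rfl e1, Finset.sum_sub_distrib, ← Finset.mul_sum, e0, sumG' h]
  have e2 : (p : ZMod (p ^ 2)) * (∑ k ∈ range (m + 1), ((Nat.choose m k : ℕ) : ZMod (p ^ 2)) *
          ∑ l ∈ Ico 1 p, if ((p + 1 : ℕ) : ℤ) ∣ (a : ℤ) - k + l then v p l * (-1) ^ l else 0) =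
      p * (Psi p (M - 1) (M - 1 - a) + Psi p (M - 1) (a - 1)) := by
    rw [← sumB hp2 ha haM hM]
    congr 1
    rw [← hm]
    apply Finset.sum_congr rfl
    intro k hk
    rw [innerB ha haM hM (mem_range.mp hk), show M - 1 = m by omega]
  have hPsi1 := Psi_eq (p := p) (M - 1) (by omega) (M - 1 - a) (by omega)
  have hPsi2 := Psi_eq (p := p) (M - 1) (by omega) (a - 1) (by omega)
  rw [show M - 1 - (M - 1 - a) = a by omega] at hPsi1
  rw [show M - 1 - (a - 1) = M - a by omega] at hPsi2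
  have hH1 : H p M = H p (M - 1) + v p M := by
    have : M = M - 1 + 1 := by omega
    rw [this, H_succ, Nat.add_sub_cancel]
  have hC1 : (M : ZMod (p ^ 2)) * ((Nat.choose (M - 1) (M - 1 - a) : ℕ) : ZMod (p ^ 2)) =
      ((M : ZMod (p ^ 2)) - (a : ZMod (p ^ 2))) * ((Nat.choose M a : ℕ) : ZMod (p ^ 2)) := by
    have e3 : Nat.choose (M - 1) (M - 1 - a) = Nat.choose (M - 1) a := Nat.choose_symm (by omega)
    have e4 := Nat.choose_mul_succ_eq (M - 1) a
    rw [Nat.sub_add_cancel (by omega)] at e4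
    have e5 : ((Nat.choose (M - 1) a * M : ℕ) : ZMod (p ^ 2)) =
        ((Nat.choose M a * (M - a) : ℕ) : ZMod (p ^ 2)) := by rw [e4]
    rw [Nat.cast_mul, Nat.cast_mul, Nat.cast_sub haM.le] at e5
    rw [e3]
    linear_combination e5
  have hC2 : (M : ZMod (p ^ 2)) * ((Nat.choose (M - 1) (a - 1) : ℕ) : ZMod (p ^ 2)) =
      (a : ZMod (p ^ 2)) * ((Nat.choose M a : ℕ) : ZMod (p ^ 2)) := by
    have e4 := Nat.add_one_mul_choose_eq (M - 1) (a - 1)
    rw [Nat.sub_add_cancel (by omega), Nat.sub_add_cancel (by omega)] at e4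
    have e5 : ((M * Nat.choose (M - 1) (a - 1) : ℕ) : ZMod (p ^ 2)) =
        ((Nat.choose M a * a : ℕ) : ZMod (p ^ 2)) := by rw [e4]
    rw [Nat.cast_mul, Nat.cast_mul] at e5
    linear_combination e5
  have m1 := mul_v (p := p) (j := M) (by omega) hM
  have hpp := p_mul_p (p := p)
  have key : (((p + 1 : ℕ) : ZMod (p ^ 2)) * ((Nat.choose M a : ℕ) : ZMod (p ^ 2)) -
      (M : ZMod (p ^ 2)) * (((p + 1 : ℕ) : ZMod (p ^ 2)) *
        (p * (∑ k ∈ range (m + 1), ((Nat.choose m k : ℕ) : ZMod (p ^ 2)) *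
          ∑ l ∈ Ico 1 p, if ((p + 1 : ℕ) : ℤ) ∣ (a : ℤ) - k + l then v p l * (-1) ^ l else 0)))) =
      (((Nat.choose M a : ℕ) : ZMod (p ^ 2)) *
        (1 + (p : ZMod (p ^ 2)) * ((M : ZMod (p ^ 2)) * H p M - (a : ZMod (p ^ 2)) * H p (M - a) -
          ((M : ZMod (p ^ 2)) - (a : ZMod (p ^ 2))) * H p a))) := by
    rw [e2, hPsi1, hPsi2, hH1]
    push_cast
    obtain ⟨D, hD⟩ : ∃ D, D = ((Nat.choose M a : ℕ) : ZMod (p ^ 2)) := ⟨_, rfl⟩
    rw [← hD] at hC1 hC2 ⊢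
    linear_combination ((p : ZMod (p ^ 2)) * (H p (M - 1) - H p a) +
        (p : ZMod (p ^ 2)) * p * (H p (M - 1) - H p a)) * hC1 +
      ((p : ZMod (p ^ 2)) * (H p (M - 1) - H p (M - a)) +
        (p : ZMod (p ^ 2)) * p * (H p (M - 1) - H p (M - a))) * hC2 -
      ((p : ZMod (p ^ 2)) * D) * m1 +
      (D * (((M : ZMod (p ^ 2)) - (a : ZMod (p ^ 2))) * (H p (M - 1) - H p a) +
        a * (H p (M - 1) - H p (M - a)))) * hpp
  rw [← key]
  simp only [map_sub, map_mul, map_natCast]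
  ring

end

end Pool.Agent.Helper6.Sun
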