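import Mathlib
import Pool.Agent.Helper6.Sun.CaseA3

/-!
Harmonic sums modulo `p` and factorials modulo `p ^ 2`, for `p = 8 h + 3`.
-/

namespace Pool.Agent.Helper6.Sun

open Finset

set_option linter.unusedSectionVars false

variable {p : ℕ} [hp : Fact p.Prime]

/-- one half -/
noncomputable def hf2 (p : ℕ) : ZMod (p ^ 2) := (2 : ZMod (p ^ 2))⁻¹

theorem two_half (hp2 : p ≠ 2) : 2 * hf2 p = 1 := by
  unfold hf2
  exact ZMod.mul_inv_of_unit _ (two_unit hp2)

/-- the sum over odd numbers -/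
noncomputable def OO (p k : ℕ) : ZMod (p ^ 2) := ∑ j ∈ range k, v p (2 * j + 1)

theorem OO_succ (k : ℕ) : OO p (k + 1) = OO p k + v p (2 * k + 1) := Finset.sum_range_succ _ _

theorem v_two_mul (hp2 : p ≠ 2) {j : ℕ} (h0 : 0 < j) (hj : 2 * j < p) :
    v p (2 * j) = hf2 p * v p j := by
  have h1 := mul_v (p := p) (j := 2 * j) (by omega) hj
  have h2 := mul_v (p := p) (j := j) h0 (by omega)
  have h3 := two_half (p := p) hp2
  apply (isUnit_of_lt (p := p) (j := 2 * j) (by omega) hj).mul_left_cancel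
  rw [h1]
  push_cast
  linear_combination -(j * v p j) * h3 - h2

theorem H_double (hp2 : p ≠ 2) : ∀ k, 2 * k < p → H p (2 * k) = OO p k + hf2 p * H p k := by
  intro k
  induction k with
  | zero => intro _; simp [H, OO]
  | succ k ih =>
    intro hk
    rw [show 2 * (k + 1) = 2 * k + 1 + 1 by ring, H_succ, H_succ, ih (by omega), OO_succ, H_succ,
      show 2 * k + 1 + 1 = 2 * (k + 1) by ring, v_two_mul hp2 (by omega) hk]
    ring

theorem v_refl {j : ℕ} (h0 : 0 < j) (hj : j < p) :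
    (p : ZMod (p ^ 2)) * v p (p - j) = -(p * v p j) := by
  obtain ⟨i, rfl⟩ : ∃ i, j = i + 1 := ⟨j - 1, by omega⟩
  rw [← p_mul_v_sub hj]
  congr 2
  omega

theorem p_mul_OO (hp2 : p ≠ 2) {M : ℕ} (hM : p = 2 * M + 1) : ∀ k, k ≤ M →
    (p : ZMod (p ^ 2)) * OO p k = -(hf2 p * (p * (H p M - H p (M - k)))) := by
  intro k
  induction k with
  | zero => intro _; simp [OO]
  | succ k ih =>
    intro hk
    rw [OO_succ, mul_add, ih (by omega)]
    have h1 : H p (M - k) = H p (M - (k + 1)) + v p (M - k) := by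
      have : M - k = M - (k + 1) + 1 := by omega
      rw [this, H_succ]
    have h2 := v_refl (p := p) (j := 2 * (M - k)) (by omega) (by omega)
    rw [show p - 2 * (M - k) = 2 * k + 1 by omega, v_two_mul hp2 (by omega) (by omega)] at h2
    rw [h2, h1]
    ring

/-- Wilson-type identity -/
theorem fact_refl : ∀ k, k < p → (((p - 1).factorial : ℕ) : ZMod (p ^ 2)) =
    (((p - 1 - k).factorial : ℕ) : ZMod (p ^ 2)) * ((-1) ^ k * ((k.factorial : ℕ) : ZMod (p ^ 2)) *
      (1 - p * H p k)) := by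
  intro k
  induction k with
  | zero => intro _; simp [H]
  | succ k ih =>
    intro hk
    rw [ih (by omega)]
    have h1 : (p - 1 - k).factorial = (p - 1 - k) * (p - 1 - (k + 1)).factorial := by
      have : p - 1 - k = (p - 1 - (k + 1)) + 1 := by omega
      rw [this, Nat.factorial_succ]
    have h2 : ((p - 1 - k : ℕ) : ZMod (p ^ 2)) = p - (k + 1 : ℕ) := by
      rw [show p - 1 - k = p - (k + 1) by omega, Nat.cast_sub (by omega)]
    have h3 := mul_v (p := p) (j := k + 1) (by omega) hk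
    have hpp := p_mul_p (p := p)
    rw [h1, Nat.factorial_succ, H_succ, Nat.cast_mul, Nat.cast_mul, h2,
      pow_succ (-1 : ZMod (p ^ 2)) k]
    push_cast at h3 ⊢
    obtain ⟨A, hA⟩ : ∃ A : ZMod (p ^ 2), A = (((p - 1 - (k + 1)).factorial : ℕ) : ZMod (p ^ 2)) :=
      ⟨_, rfl⟩
    rw [← hA]
    linear_combination (-(A * (-1) ^ k * (k.factorial : ZMod (p ^ 2)) * H p k)) * hpp -
      (A * (-1) ^ k * (k.factorial : ZMod (p ^ 2)) * p) * h3

/-- product of odd numbers -/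
def PO (k : ℕ) : ℕ := ∏ j ∈ range k, (2 * j + 1)

theorem PO_succ (k : ℕ) : PO (k + 1) = PO k * (2 * k + 1) := Finset.prod_range_succ _ _

theorem fact_double (k : ℕ) : (2 * k).factorial = PO k * (2 ^ k * k.factorial) := by
  induction k with
  | zero => simp [PO]
  | succ k ih =>
    rw [show 2 * (k + 1) = 2 * k + 1 + 1 by ring, Nat.factorial_succ, Nat.factorial_succ, ih,
      PO_succ, Nat.factorial_succ, pow_succ]
    ring

theorem PO_eq (hp2 : p ≠ 2) {M : ℕ} (hM : p = 2 * M + 1) : ∀ k, k ≤ M →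
    ((PO k : ℕ) : ZMod (p ^ 2)) * (((M - k).factorial : ℕ) : ZMod (p ^ 2)) =
      (-2) ^ k * ((M.factorial : ℕ) : ZMod (p ^ 2)) *
        (1 - hf2 p * (p * (H p M - H p (M - k)))) := by
  intro k
  induction k with
  | zero => intro _; simp [PO]
  | succ k ih =>
    intro hk
    have h0 := ih (by omega)
    have h1 : (M - k).factorial = (M - k) * (M - (k + 1)).factorial := by
      have : M - k = (M - (k + 1)) + 1 := by omega
      rw [this, Nat.factorial_succ]
    have h2 : ((M - k : ℕ) : ZMod (p ^ 2)) = M - k := by rw [Nat.cast_sub (by omega)]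
    have h3 := mul_v (p := p) (j := M - k) (by omega) (by omega)
    have h4 : H p (M - k) = H p (M - (k + 1)) + v p (M - k) := by
      have : M - k = M - (k + 1) + 1 := by omega
      rw [this, H_succ]
    have hpp := p_mul_p (p := p)
    have hh := two_half (p := p) hp2
    have hpM : (p : ZMod (p ^ 2)) = 2 * M + 1 := by
      have : ((p : ℕ) : ZMod (p ^ 2)) = ((2 * M + 1 : ℕ) : ZMod (p ^ 2)) := by rw [← hM]
      rw [this]; push_cast; ring
    have hu : IsUnit ((M - k : ℕ) : ZMod (p ^ 2)) := isUnit_of_lt (by omega) (by omega)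
    apply hu.mul_left_cancel
    rw [h1, Nat.cast_mul, h4] at h0
    rw [PO_succ, pow_succ (-2 : ZMod (p ^ 2)) k, Nat.cast_mul]
    rw [h2] at h0 h3 ⊢
    push_cast
    obtain ⟨m, hm⟩ : ∃ m : ZMod (p ^ 2), m = (M : ZMod (p ^ 2)) - (k : ZMod (p ^ 2)) := ⟨_, rfl⟩
    have e1 : (2 * (k : ZMod (p ^ 2)) + 1) = (p : ZMod (p ^ 2)) - 2 * m := by rw [hpM, hm]; ring
    rw [e1]
    rw [← hm] at h0 h3 ⊢
    obtain ⟨X, hX⟩ : ∃ X, X = H p M - H p (M - (k + 1)) := ⟨_, rfl⟩
    have e2 : H p M - (H p (M - (k + 1)) + v p (M - k)) = X - v p (M - k) := by rw [hX]; ring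
    rw [e2] at h0
    rw [← hX]
    linear_combination ((p : ZMod (p ^ 2)) - 2 * m) * h0 +
      ((-2) ^ k * ((M.factorial : ℕ) : ZMod (p ^ 2)) * hf2 p * (v p (M - k) - X)) * hpp -
      ((-2) ^ k * ((M.factorial : ℕ) : ZMod (p ^ 2)) * p * m * v p (M - k)) * hh -
      ((-2) ^ k * ((M.factorial : ℕ) : ZMod (p ^ 2)) * p) * h3

theorem alt_sum (hp2 : p ≠ 2) {M : ℕ} (hM : p = 2 * M + 1) : ∀ k, k ≤ M →
    ∑ l ∈ Ico 1 (2 * k + 1), v p l * (-1) ^ l = hf2 p * H p k - OO p k := by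
  intro k
  induction k with
  | zero => intro _; simp [H, OO]
  | succ k ih =>
    intro hk
    rw [show 2 * (k + 1) + 1 = 2 * k + 1 + 1 + 1 by ring, Finset.sum_Ico_succ_top (by omega),
      Finset.sum_Ico_succ_top (by omega), ih (by omega), H_succ, OO_succ,
      show 2 * k + 1 + 1 = 2 * (k + 1) by ring, v_two_mul hp2 (by omega) (by omega)]
    have e1 : (-1 : ZMod (p ^ 2)) ^ (2 * k + 1) = -1 := Odd.neg_one_pow ⟨k, rfl⟩
    have e2 : (-1 : ZMod (p ^ 2)) ^ (2 * (k + 1)) = 1 := Even.neg_one_pow ⟨k + 1, by ring⟩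
    rw [e1, e2]
    ring

theorem p_LL_one (hp2 : p ≠ 2) {M : ℕ} (hM : p = 2 * M + 1) :
    (p : ZMod (p ^ 2)) * LL p (1 : ZMod (p ^ 2)) = p * H p M := by
  have h1 : LL p (1 : ZMod (p ^ 2)) = ∑ l ∈ Ico 1 (2 * M + 1), v p l * (-1) ^ l := by
    unfold LL
    rw [← hM]
    apply Finset.sum_congr rfl
    intro l _
    rw [one_pow, mul_one, Algebra.algebraMap_self, RingHom.id_apply]
  have h2 := p_mul_OO hp2 hM M le_rfl
  rw [Nat.sub_self, H_zero, sub_zero] at h2
  have hh := two_half (p := p) hp2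
  rw [h1, alt_sum hp2 hM M le_rfl]
  linear_combination -h2 + (p * H p M) * hh

theorem two_pow_half (hp2 : p ≠ 2) {M : ℕ} (hM : p = 2 * M + 1)
    (h : red p ((2 : ZMod (p ^ 2)) ^ M) = -1) :
    (2 : ZMod (p ^ 2)) ^ M = -1 + hf2 p ^ 2 * (p * H p M) := by
  have h1 := one_add_pow (p := p) (1 : ZMod (p ^ 2))
  rw [one_pow, p_LL_one hp2 hM, one_add_one_eq_two] at h1
  have h2 : (2 : ZMod (p ^ 2)) ^ p = 2 * ((2 : ZMod (p ^ 2)) ^ M) ^ 2 := by
    rw [← pow_mul, ← pow_succ']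
    congr 1
    omega
  obtain ⟨s, hs⟩ := red_eq_zero (a := (2 : ZMod (p ^ 2)) ^ M + 1) (by rw [map_add, h, map_one]; ring)
  have hh := two_half (p := p) hp2
  have hpp := p_mul_p (p := p)
  have h3 : (2 : ZMod (p ^ 2)) ^ M = -1 + p * s := by linear_combination hs
  rw [h2, h3] at h1
  rw [h3]
  linear_combination -(hf2 p ^ 2) * h1 - (p * s * (1 + 2 * hf2 p)) * hh +
    (2 * hf2 p ^ 2 * s ^ 2) * hpp

end Pool.Agent.Helper6.Sun
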