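import Mathlib
import Pool.Agent.Helper6.Sun.Harm

/-!
The sum modulo `p ^ 2` for `p = 8 h + 3` in terms of another binomial coefficient.
-/

namespace Pool.Agent.Helper6.Sun

open Finset

set_option linter.unusedSectionVars false

variable {p : ℕ} [hp : Fact p.Prime]

theorem p_mul_H_refl (k : ℕ) : k < p → (p : ZMod (p ^ 2)) * H p (p - 1 - k) =
    p * H p (p - 1) + p * H p k := by
  induction k with
  | zero => intro _; simp [H_zero]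
  | succ k ih =>
    intro hk
    have h1 := ih (by omega)
    have h2 : H p (p - 1 - k) = H p (p - 1 - (k + 1)) + v p (p - (k + 1)) := by
      have : p - 1 - k = p - 1 - (k + 1) + 1 := by omega
      rw [this, H_succ]
      congr 2
      omega
    have h3 := v_refl (p := p) (j := k + 1) (by omega) hk
    rw [h2] at h1
    rw [H_succ]
    linear_combination h1 - h3

theorem p_mul_H_pred (hp2 : p ≠ 2) : (p : ZMod (p ^ 2)) * H p (p - 1) = 0 := by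
  have hp1 := hp.out.one_lt
  have h1 := p_mul_H_refl (p := p) (p - 1) (by omega)
  rw [Nat.sub_self, H_zero] at h1
  have h2 : (2 : ZMod (p ^ 2)) * ((p : ZMod (p ^ 2)) * H p (p - 1)) = 0 := by
    linear_combination -h1
  exact (two_unit hp2).mul_right_eq_zero.mp h2

/-- the second binomial expression -/
noncomputable def ee (p h : ℕ) : ZMod (p ^ 2) :=
  ((Nat.choose (4 * h + 1) h : ℕ) : ZMod (p ^ 2)) *
        (1 + (p : ZMod (p ^ 2)) * (((4 * h + 1 : ℕ) : ZMod (p ^ 2)) * H p (4 * h + 1) -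
          (h : ZMod (p ^ 2)) * H p (4 * h + 1 - h) -
          (((4 * h + 1 : ℕ) : ZMod (p ^ 2)) - (h : ZMod (p ^ 2))) * H p h))

theorem quarter_eq' {h : ℕ} (hph : p = 8 * h + 3) : -(4 : ZMod (p ^ 2))⁻¹ =
    (p : ZMod (p ^ 2)) * (-3 * (4 : ZMod (p ^ 2))⁻¹) + ((2 * (3 * h + 1) : ℕ) : ZMod (p ^ 2)) := by
  have h4 := four_inv (p := p) (by omega)
  have hpR : (p : ZMod (p ^ 2)) = 8 * (h : ZMod (p ^ 2)) + 3 := by
    have : ((p : ℕ) : ZMod (p ^ 2)) = ((8 * h + 3 : ℕ) : ZMod (p ^ 2)) := by rw [← hph]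
    rw [this]; push_cast; ring
  push_cast
  linear_combination (3 * (4 : ZMod (p ^ 2))⁻¹) * hpR + (6 * (h : ZMod (p ^ 2)) + 2) * h4

theorem SR_sq_eq {h : ℕ} (hph : p = 8 * h + 3) (h2M : red p ((2 : ZMod (p ^ 2)) ^ (4 * h + 1)) = -1) :
    SR (-(4 : ZMod (p ^ 2))⁻¹) ^ 2 = -2 * ee p h ^ 2 := by
  have hp2 : p ≠ 2 := by omega
  have hM : p = 2 * (4 * h + 1) + 1 := by omega
  obtain ⟨n, hn⟩ : ∃ n, n = 3 * h + 1 := ⟨_, rfl⟩
  obtain ⟨M, hMd⟩ : ∃ M, M = 4 * h + 1 := ⟨_, rfl⟩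
  rw [← hMd] at hM h2M
  have hpp := p_mul_p (p := p)
  have hh := two_half (p := p) hp2
  -- the sum
  have hSR : SR (-(4 : ZMod (p ^ 2))⁻¹) = (-1) ^ n * ((Nat.choose (2 * n) n : ℕ) : ZMod (p ^ 2)) *
        (1 + (p : ZMod (p ^ 2)) * (-3 * (4 : ZMod (p ^ 2))⁻¹) * (H p (2 * n) - H p n)) := by
    rw [quarter_eq' hph, ← hn]
    exact SR_eq _ n (by omega)
  have h4i : (4 : ZMod (p ^ 2))⁻¹ = hf2 p ^ 2 := by
    have h4 := four_inv (p := p) hp2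
    linear_combination -((4 : ZMod (p ^ 2))⁻¹ * (2 * hf2 p + 1)) * hh + hf2 p ^ 2 * h4
  rw [h4i] at hSR
  obtain ⟨A, hA⟩ : ∃ A, A = ((Nat.choose (2 * n) n : ℕ) : ZMod (p ^ 2)) := ⟨_, rfl⟩
  obtain ⟨D, hD⟩ : ∃ D, D = ((Nat.choose M h : ℕ) : ZMod (p ^ 2)) := ⟨_, rfl⟩
  obtain ⟨X2n, hX2n⟩ : ∃ X, X = H p (2 * n) := ⟨_, rfl⟩
  obtain ⟨Xn, hXn⟩ : ∃ X, X = H p n := ⟨_, rfl⟩
  obtain ⟨XM, hXM⟩ : ∃ X, X = H p M := ⟨_, rfl⟩
  obtain ⟨Xh, hXh⟩ : ∃ X, X = H p h := ⟨_, rfl⟩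
  obtain ⟨X2h, hX2h⟩ : ∃ X, X = H p (2 * h) := ⟨_, rfl⟩
  have F1 : A * ((n.factorial : ℕ) : ZMod (p ^ 2)) * ((n.factorial : ℕ) : ZMod (p ^ 2)) =
      (((2 * n).factorial : ℕ) : ZMod (p ^ 2)) := by
    have := Nat.choose_mul_factorial_mul_factorial (show n ≤ 2 * n by omega)
    rw [show 2 * n - n = n by omega] at this
    rw [hA, ← this]
    push_cast
    ring
  have F2 : D * ((h.factorial : ℕ) : ZMod (p ^ 2)) * ((n.factorial : ℕ) : ZMod (p ^ 2)) =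
      ((M.factorial : ℕ) : ZMod (p ^ 2)) := by
    have := Nat.choose_mul_factorial_mul_factorial (show h ≤ M by omega)
    rw [show M - h = n by omega] at this
    rw [hD, ← this]
    push_cast
    ring
  have F3 := fact_refl (p := p) (2 * h) (by omega)
  rw [show p - 1 - 2 * h = 2 * n by omega, Even.neg_one_pow ⟨h, by ring⟩, one_mul, ← hX2h] at F3
  have F4 := fact_refl (p := p) M (by omega)
  rw [show p - 1 - M = M by omega, Odd.neg_one_pow ⟨2 * h, by omega⟩, ← hXM] at F4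
  have F5 : (((2 * h).factorial : ℕ) : ZMod (p ^ 2)) = ((PO h : ℕ) : ZMod (p ^ 2)) *
      (2 ^ h * ((h.factorial : ℕ) : ZMod (p ^ 2))) := by
    rw [fact_double h]
    push_cast
    ring
  have F6 := PO_eq hp2 hM h (by omega)
  rw [show M - h = n by omega, ← hXM, ← hXn] at F6
  have F7 : (p : ZMod (p ^ 2)) * X2n = p * X2h := by
    have := p_mul_H_refl (p := p) (2 * h) (by omega)
    rw [p_mul_H_pred hp2, zero_add, show p - 1 - 2 * h = 2 * n by omega, ← hX2n, ← hX2h] at this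
    exact this
  have F8 : (p : ZMod (p ^ 2)) * X2h = -(hf2 p * (p * (XM - Xn))) + hf2 p * (p * Xh) := by
    have e1 := H_double hp2 h (by omega)
    have e2 := p_mul_OO hp2 hM h (by omega)
    rw [show M - h = n by omega, ← hXM, ← hXn] at e2
    rw [← hX2h, ← hXh] at e1
    rw [e1, mul_add, e2]
    ring
  have F9 := two_pow_half hp2 hM h2M
  rw [← hXM] at F9
  have uN : IsUnit ((n.factorial : ℕ) : ZMod (p ^ 2)) := isUnit_factorial (by omega)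
  have uH : IsUnit ((h.factorial : ℕ) : ZMod (p ^ 2)) := isUnit_factorial (by omega)
  have uM : IsUnit ((M.factorial : ℕ) : ZMod (p ^ 2)) := isUnit_factorial (by omega)
  obtain ⟨N, hN⟩ : ∃ N, N = ((n.factorial : ℕ) : ZMod (p ^ 2)) := ⟨_, rfl⟩
  obtain ⟨Hf, hHf⟩ : ∃ N, N = ((h.factorial : ℕ) : ZMod (p ^ 2)) := ⟨_, rfl⟩
  obtain ⟨Mf, hMf⟩ : ∃ N, N = ((M.factorial : ℕ) : ZMod (p ^ 2)) := ⟨_, rfl⟩
  obtain ⟨i, hi⟩ : ∃ i, i = hf2 p := ⟨_, rfl⟩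
  obtain ⟨P, hP⟩ : ∃ P, P = (p : ZMod (p ^ 2)) := ⟨_, rfl⟩
  rw [← hN] at F1 F2 F6 uN
  rw [← hHf] at F2 F5 uH
  rw [← hMf] at F2 F4 F6 uM
  rw [F5] at F3
  rw [F3, ← F1] at F4
  rw [← hi] at hh hSR F6 F8 F9
  rw [← hP] at hpp hSR F4 F6 F7 F8 F9
  -- the relation between the binomial coefficients
  have G1 : A * ((-2) ^ h * 2 ^ h) * (1 - i * (P * (XM - Xn))) * (1 - P * X2h) =
      -(D * (1 - P * XM)) := by
    apply (uM.mul (uH.mul uN)).mul_left_cancel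
    rw [← F2] at F4 F6 ⊢
    linear_combination F4 - (A * N * 2 ^ h * Hf * (1 - P * X2h)) * F6
  -- the values of `p M`, `p h`, `p n`
  have hpM : P * (M : ZMod (p ^ 2)) = -(i * P) := by
    have e1 : P = 2 * (M : ZMod (p ^ 2)) + 1 := by
      rw [hP]
      have : ((p : ℕ) : ZMod (p ^ 2)) = ((2 * M + 1 : ℕ) : ZMod (p ^ 2)) := by rw [← hM]
      rw [this]; push_cast; ring
    linear_combination (-(P * (M : ZMod (p ^ 2))) - P * i * 0) * hh - (i * P) * e1 + i * hpp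
  have hph' : P * (h : ZMod (p ^ 2)) = -(3 * i ^ 3 * P) := by
    have e1 : P = 8 * (h : ZMod (p ^ 2)) + 3 := by
      rw [hP]
      have : ((p : ℕ) : ZMod (p ^ 2)) = ((8 * h + 3 : ℕ) : ZMod (p ^ 2)) := by rw [← hph]
      rw [this]; push_cast; ring
    linear_combination (-(P * (h : ZMod (p ^ 2))) * (1 + 2 * i + 4 * i ^ 2)) * hh - (i ^ 3 * P) * e1 +
      i ^ 3 * hpp
  have hSR2 : SR (-i ^ 2) * ((-2) ^ h * (-2) ^ h) = -(A * ((-2) ^ h * 2 ^ h)) *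
      (1 + P * (-3 * i ^ 2) * (X2h - Xn)) := by
    rw [hSR, ← hA, ← hX2n, ← hXn]
    have e1 : (-2 : ZMod (p ^ 2)) ^ h = (-1) ^ h * 2 ^ h := by rw [← mul_pow]; ring
    have e2 : (-1 : ZMod (p ^ 2)) ^ n * ((-1) ^ h * (-1) ^ h) = -(-1) ^ h := by
      have e3 : (-1 : ZMod (p ^ 2)) ^ (n + h) = -1 := Odd.neg_one_pow ⟨2 * h, by omega⟩
      rw [← mul_assoc, ← pow_add, e3]
      ring
    rw [e1]
    linear_combination (A * 2 ^ h * 2 ^ h * (1 + P * (-3 * i ^ 2) * (X2n - Xn))) * e2 +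
      (-(-1) ^ h * A * 2 ^ h * 2 ^ h * (-3 * i ^ 2)) * F7
  have hee : ee p h = D * (1 - P * (i * XM) + 3 * i ^ 3 * P * Xn + i ^ 3 * P * Xh) := by
    unfold ee
    rw [← hMd, ← hD, ← hXM, ← hXh, show M - h = n by omega, ← hXn, ← hP]
    linear_combination (D * XM) * hpM - (D * (Xn - Xh)) * hph' - (D * Xh) * hpM -
      (D * P * Xh * i * (1 + 2 * i)) * hh
  obtain ⟨al, hal⟩ : ∃ al, al = (1 - i * (P * (XM - Xn))) * (1 - P * X2h) *
    (1 - P * (i * XM) + 3 * i ^ 3 * P * Xn + i ^ 3 * P * Xh) := ⟨_, rfl⟩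
  obtain ⟨be, hbe⟩ : ∃ be, be = (1 - P * XM) * (1 + P * (-3 * i ^ 2) * (X2h - Xn)) := ⟨_, rfl⟩
  have G3 : SR (-i ^ 2) * ((-2) ^ h * (-2) ^ h) * al = ee p h * be := by
    rw [hee, hal, hbe]
    linear_combination ((1 - i * (P * (XM - Xn))) * (1 - P * X2h) *
      (1 - P * (i * XM) + 3 * i ^ 3 * P * Xn + i ^ 3 * P * Xh)) * hSR2 -
      ((1 + P * (-3 * i ^ 2) * (X2h - Xn)) *
        (1 - P * (i * XM) + 3 * i ^ 3 * P * Xn + i ^ 3 * P * Xh)) * G1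
  have hal' : al = 1 + P * (-(i * (XM - Xn)) - X2h - i * XM + 3 * i ^ 3 * Xn + i ^ 3 * Xh) := by
    obtain ⟨x, hx⟩ : ∃ x, x = -(i * (XM - Xn)) := ⟨_, rfl⟩
    obtain ⟨y, hy⟩ : ∃ y, y = -X2h := ⟨_, rfl⟩
    obtain ⟨z, hz⟩ : ∃ z, z = -(i * XM) + 3 * i ^ 3 * Xn + i ^ 3 * Xh := ⟨_, rfl⟩
    have e1 : al = (1 + P * x) * (1 + P * y) * (1 + P * z) := by rw [hal, hx, hy, hz]; ring
    have e2 : 1 + P * (-(i * (XM - Xn)) - X2h - i * XM + 3 * i ^ 3 * Xn + i ^ 3 * Xh) =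
      1 + P * (x + y + z) := by rw [hx, hy, hz]; ring
    rw [e1, e2]
    linear_combination (x * y + y * z + z * x + P * x * y * z) * hpp
  have hbe' : be = 1 + P * (-XM - 3 * i ^ 2 * (X2h - Xn)) := by
    rw [hbe]
    linear_combination (XM * (3 * i ^ 2) * (X2h - Xn)) * hpp
  have key : P * (i ^ 2 * XM) - 2 * (P * (-(i * (XM - Xn)) - X2h - i * XM + 3 * i ^ 3 * Xn +
      i ^ 3 * Xh)) + 2 * (P * (-XM - 3 * i ^ 2 * (X2h - Xn))) = 0 := by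
    linear_combination (2 - 6 * i ^ 2) * F8 + (P * ((3 * i ^ 2 + 2 * i + 2) * XM - 6 * i ^ 2 * Xn -
      2 * i * (2 * i + 1) * Xh)) * hh
  obtain ⟨ga, hga⟩ : ∃ ga, ga = -(i * (XM - Xn)) - X2h - i * XM + 3 * i ^ 3 * Xn + i ^ 3 * Xh :=
    ⟨_, rfl⟩
  obtain ⟨gb, hgb⟩ : ∃ gb, gb = -XM - 3 * i ^ 2 * (X2h - Xn) := ⟨_, rfl⟩
  rw [← hga] at hal' key
  rw [← hgb] at hbe' key
  -- `2 * 16 ^ h = 2 ^ M`
  have F10 : 2 * (((-2 : ZMod (p ^ 2)) ^ h * (-2) ^ h) * ((-2) ^ h * (-2) ^ h)) =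
      -1 + i ^ 2 * (P * XM) := by
    rw [← F9, hMd, pow_add, pow_one, show 4 * h = h + h + h + h by ring, pow_add, pow_add, pow_add,
      show (-2 : ZMod (p ^ 2)) ^ h = (-1) ^ h * 2 ^ h by rw [← mul_pow]; ring]
    have e3 : (-1 : ZMod (p ^ 2)) ^ h * (-1) ^ h = 1 := by rw [← mul_pow]; simp
    linear_combination (2 * (2 ^ h * 2 ^ h * 2 ^ h * 2 ^ h) * ((-1 : ZMod (p ^ 2)) ^ h * (-1) ^ h + 1)) *
      e3
  have hgam : (-1 + i ^ 2 * (P * XM)) * al ^ 2 = -be ^ 2 := by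
    rw [hal', hbe']
    linear_combination key + (2 * i ^ 2 * XM * ga - ga ^ 2 + gb ^ 2 + P * i ^ 2 * XM * ga ^ 2) * hpp
  have hbu : IsUnit be := by
    rw [hbe', hP, add_comm]
    exact isUnit_add_p isUnit_one _
  have h4i' : (4 : ZMod (p ^ 2))⁻¹ = i ^ 2 := by rw [h4i, hi]
  rw [h4i']
  apply (hbu.pow 2).mul_left_cancel
  have G4 : (SR (-i ^ 2) * ((-2) ^ h * (-2) ^ h) * al) ^ 2 = (ee p h * be) ^ 2 := by rw [G3]
  linear_combination (SR (-i ^ 2) ^ 2) * hgam + (SR (-i ^ 2) ^ 2 * al ^ 2) * F10 -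
    (2 : ZMod (p ^ 2)) * G4

end Pool.Agent.Helper6.Sun
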