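import Mathlib
import Pool.Agent.Helper6.Sun.EvalB
import Pool.Agent.Helper6.Sun.HarmB
import Pool.Agent.Helper6.Sun.CaseA3
import Pool.Agent.Helper6.Sun.CaseB1

/-!
The Eisenstein sum of order eight modulo `p ^ 2` for `p = 8 h + 3`.
-/

namespace Pool.Agent.Helper6.Sun

open Finset

set_option linter.unusedSectionVars false

section

variable {p h : ℕ} {F R : Type*} [Field F] [Fintype F] [DecidableEq F] [CharP F p]
  [hp : Fact p.Prime] [CommRing R] [Algebra (ZMod (p ^ 2)) R] (L : Lift p F R) {g : Fˣ}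

/-- the character of order eight -/
noncomputable def chiB (hph : p = 8 * h + 3) : F →*₀ R where
  toFun x := L.tau x ^ (3 * h + 1 + p * h)
  map_zero' := by
    rw [L.tau_zero, zero_pow]
    omega
  map_one' := by rw [L.tau_one, one_pow]
  map_mul' x y := by rw [L.tau_mul, mul_pow]

theorem chiB_apply (hph : p = 8 * h + 3) (x : F) :
    chiB L hph x = L.tau x ^ (3 * h + 1 + p * h) := rfl

theorem chiB_gen (hph : p = 8 * h + 3) (hF : Fintype.card F = p ^ 2)
    (hg : ∀ x, x ∈ Subgroup.zpowers g) : chiB L hph (g : F) ^ 4 = -1 := by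
  have hp2 : p ≠ 2 := by omega
  have hN : (p - 1) * (p + 1) = 2 * ((3 * h + 1 + p * h) * 4) := by
    rw [hph, show 8 * h + 3 - 1 = 8 * h + 2 by omega]; ring
  have hpos : 0 < (3 * h + 1 + p * h) * 4 := by positivity
  have h1 : (g : F) ^ ((3 * h + 1 + p * h) * 4) = -1 := by
    have h2 : ((g : F) ^ ((3 * h + 1 + p * h) * 4)) ^ 2 = 1 := by
      rw [← pow_mul, pow_eq_one_sq hF hg, hN]
      exact ⟨1, by ring⟩
    rcases sq_eq_one_iff.mp h2 with h3 | h3
    · exfalso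
      rw [pow_eq_one_sq hF hg, hN] at h3
      have := Nat.le_of_dvd hpos h3
      omega
    · exact h3
  rw [chiB_apply, ← pow_mul, ← L.tau_pow, h1, L.tau_neg_one hp2]

theorem cycB (hF : Fintype.card F = p ^ 2) (hg : ∀ x, x ∈ Subgroup.zpowers g) :
    Cyc (L.wu ((g ^ (p - 1)) ^ p)) (p + 1) := by
  have hp1 := hp.out.one_lt
  have h0 : (((g ^ (p - 1)) ^ p : Fˣ) : F) ^ (p + 1) = 1 := by
    push_cast
    rw [← pow_mul, ← pow_mul, pow_eq_one_sq hF hg]
    exact ⟨p, by ring⟩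
  refine ⟨L.wu_pow _ h0, fun e he => ?_⟩
  apply L.wu_zpow_unit _ h0 _ _ (by omega) he
  · intro m hm
    push_cast at hm
    rw [← pow_mul, ← pow_mul, pow_eq_one_sq hF hg] at hm
    have h1 : p + 1 ∣ p * m := Nat.dvd_of_mul_dvd_mul_left (by omega) hm
    exact (Nat.Coprime.dvd_mul_left (Nat.coprime_self_add_left.mpr (Nat.coprime_one_left _))).mp h1
  · exact (Nat.coprime_self_add_left.mpr (Nat.coprime_one_left _))

theorem eisB (hph : p = 8 * h + 3) (hh : 0 < h) (hF : Fintype.card F = p ^ 2)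
    (hg : ∀ x, x ∈ Subgroup.zpowers g) :
    ∑ u ∈ UU p F, chiB L hph (1 + u) = algebraMap (ZMod (p ^ 2)) R (ee p h) := by
  have hp2 : p ≠ 2 := by omega
  have hp1 := hp.out.one_lt
  have hev := evalB hp2 (cycB L hF hg) (a := h) (M := 4 * h + 1) hh (by omega) (by omega)
  unfold ee
  rw [← hev, sum_UU hF hg]
  apply Finset.sum_congr rfl
  intro i _
  obtain ⟨u, hu⟩ : ∃ u, u = ((g : F) ^ (p - 1)) ^ i := ⟨_, rfl⟩
  have huU : u ∈ UU p F := by
    rw [hu, mem_UU, ← pow_mul, ← pow_mul, pow_eq_one_sq hF hg]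
    exact ⟨i, by ring⟩
  have hu0 := U_ne_zero huU
  rw [← hu]
  have hw : (((L.wu ((g ^ (p - 1)) ^ p)) ^ i : Rˣ) : R) = L.tau (u ^ p) := by
    rw [L.wu_pow_val]
    push_cast
    rw [hu]
    congr 1
    exact pow_right_comm _ _ _
  have h1 : (1 + (((L.wu ((g ^ (p - 1)) ^ p)) ^ i : Rˣ) : R)) ^ p = L.tau (1 + u) := by
    rw [← L.tau_eq, hw, map_add, map_one, L.pi_tau, pow_psq hF]
  have h2 : (((((L.wu ((g ^ (p - 1)) ^ p)) ^ i)) ^ ((h : ℕ) : ℤ) : Rˣ) : R) = L.tau (u ^ p) ^ h := by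
    rw [zpow_natCast, Units.val_pow_eq_pow_val, hw]
  rw [h1, h2, chiB_apply, ← L.tau_pow, ← L.tau_pow, ← L.tau_pow, ← L.tau_mul]
  congr 1
  have hfr : (1 + u) ^ p = 1 + u⁻¹ := by rw [frob_add (p := p), one_pow, U_conj huU]
  rw [pow_add, pow_mul (1 + u) p h, hfr, U_conj huU]
  have h3 : 1 + u⁻¹ = (1 + u) * u⁻¹ := by
    rw [add_mul, mul_inv_cancel₀ hu0]; ring
  rw [h3, mul_pow, ← mul_assoc, ← pow_add, mul_comm, show 3 * h + 1 + h = 4 * h + 1 by ring]

include L in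
/-- the value of the Eisenstein sum modulo `p ^ 2` -/
theorem caseB_ee (hph : p = 8 * h + 3) (hh : 0 < h)
    (hinj : Function.Injective (algebraMap (ZMod (p ^ 2)) R)) (hF : Fintype.card F = p ^ 2)
    (hg : ∀ x, x ∈ Subgroup.zpowers g) :
    ∃ c d : ℤ, (p : ℤ) = c ^ 2 + 2 * d ^ 2 ∧
      ee p h * (2 * (c : ZMod (p ^ 2))) = 4 * (c : ZMod (p ^ 2)) ^ 2 - (p : ZMod (p ^ 2)) := by
  have hp2 : p ≠ 2 := by omega
  have hnorm := eis_norm hph hF hg
  have hbe : ∃ d, ebb p g = 2 * d := by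
    have h1 : Even (ebb p g ^ 2) := ⟨(p : ℤ) - ecc p g ^ 2, by linarith⟩
    have h2 : Even (ebb p g) := (Int.even_pow' (by norm_num)).mp h1
    obtain ⟨d, hd⟩ := h2
    exact ⟨d, by omega⟩
  obtain ⟨d, hd⟩ := hbe
  obtain ⟨c, hc⟩ : ∃ c, c = ecc p g := ⟨_, rfl⟩
  have hv := eis_value hph hg (chiB L hph) rfl (chiB_gen L hph hF hg)
  rw [eisB L hph hh hF hg, hd, ← hc] at hv
  rw [hd, ← hc] at hnorm
  have hn : (p : ℤ) = c ^ 2 + 2 * d ^ 2 := by nlinarith
  refine ⟨c, d, hn, ?_⟩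
  obtain ⟨E, hE⟩ : ∃ E, E = algebraMap (ZMod (p ^ 2)) R (ee p h) := ⟨_, rfl⟩
  obtain ⟨s, hs⟩ : ∃ s, s = chiB L hph (g : F) + chiB L hph (g : F) ^ 3 := ⟨_, rfl⟩
  have hz := chiB_gen L hph hF hg
  have hs2 : s ^ 2 = -2 := by
    rw [hs]
    linear_combination (chiB L hph (g : F) ^ 2 + 2) * hz
  rw [← hE, ← hs] at hv
  have h2R : IsUnit (2 : R) := by
    have := (two_unit (p := p) hp2).map (algebraMap (ZMod (p ^ 2)) R)
    rwa [map_ofNat] at this
  have hE2 : E = (c : R) + (d : R) * s := by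
    apply h2R.mul_left_cancel
    rw [hv]
    push_cast
    ring
  have hnR : (p : R) = (c : R) ^ 2 + 2 * (d : R) ^ 2 := by
    have : ((p : ℤ) : R) = ((c ^ 2 + 2 * d ^ 2 : ℤ) : R) := by rw [← hn]
    push_cast at this
    exact this
  have hk : E * (2 * (c : R) - E) = p := by
    rw [hE2, hnR]
    linear_combination (-(d : R) ^ 2) * hs2
  have hk' : ee p h * (2 * (c : ZMod (p ^ 2)) - ee p h) = (p : ZMod (p ^ 2)) := by
    apply hinj
    rw [map_mul, map_sub, map_mul, map_natCast, map_ofNat, map_intCast, ← hE, hk]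
  have hu : IsUnit (ee p h) := by
    unfold ee
    apply IsUnit.mul
    · exact choose_unit (by omega) (by omega)
    · rw [add_comm]
      exact isUnit_add_p isUnit_one _
  have hpp := p_mul_p (p := p)
  obtain ⟨K, hK⟩ : ∃ K, K = ee p h := ⟨_, rfl⟩
  obtain ⟨K', hK'⟩ : ∃ K', K' = 2 * (c : ZMod (p ^ 2)) - ee p h := ⟨_, rfl⟩
  rw [← hK', ← hK] at hk'
  rw [← hK] at hu hK' ⊢
  have h3 : K' ^ 2 = 0 := by
    have h4 : (K * K) * K' ^ 2 = 0 := by
      rw [← hpp]
      linear_combination (K * K' + p) * hk'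
    exact (hu.mul hu).mul_right_eq_zero.mp h4
  have h2 : 2 * (c : ZMod (p ^ 2)) = K + K' := by rw [hK']; ring
  have h5 : 4 * (c : ZMod (p ^ 2)) ^ 2 = (K + K') ^ 2 := by rw [← h2]; ring
  rw [h2, h5]
  linear_combination -h3 - hk'

end

section

variable {p h : ℕ} [hp : Fact p.Prime]

theorem neg_one_nonsq (hph : p = 8 * h + 3) (r : ZMod p) : r ^ 2 ≠ -1 + 0 * r := by
  intro hr
  rw [zero_mul, add_zero] at hr
  have h1 : IsSquare (-1 : ZMod p) := ⟨r, by rw [← hr, sq]⟩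
  rw [ZMod.exists_sq_eq_neg_one_iff] at h1
  omega

/-- reduction of the quadratic algebras -/
noncomputable def redQ (p : ℕ) [hp : Fact p.Prime] :
    QuadraticAlgebra (ZMod (p ^ 2)) (-1) 0 →+* QuadraticAlgebra (ZMod p) (-1) 0 where
  toFun := fun x => ⟨red p x.re, red p x.im⟩
  map_one' := by
    rw [QuadraticAlgebra.re_one, QuadraticAlgebra.im_one, map_one, map_zero]
    rfl
  map_zero' := by
    rw [QuadraticAlgebra.re_zero, QuadraticAlgebra.im_zero, map_zero]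
    rfl
  map_add' := fun x y => by
    rw [QuadraticAlgebra.re_add, QuadraticAlgebra.im_add, map_add, map_add]
    rfl
  map_mul' := fun x y => by
    ext
    · rw [QuadraticAlgebra.re_mul, QuadraticAlgebra.re_mul]
      simp only [map_add, map_mul, map_neg, map_one]
    · rw [QuadraticAlgebra.im_mul, QuadraticAlgebra.im_mul]
      simp only [map_add, map_mul, map_zero]

/-- the lift -/
noncomputable def liftQ (p : ℕ) [hp : Fact p.Prime] [Fact (∀ r : ZMod p, r ^ 2 ≠ -1 + 0 * r)] :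
    Lift p (QuadraticAlgebra (ZMod p) (-1) 0) (QuadraticAlgebra (ZMod (p ^ 2)) (-1) 0) where
  π := redQ p
  surj := by
    intro y
    obtain ⟨a, ha⟩ := ZMod.castHom_surjective (dvd_pow_self p (two_ne_zero)) y.re
    obtain ⟨b, hb⟩ := ZMod.castHom_surjective (dvd_pow_self p (two_ne_zero)) y.im
    refine ⟨⟨a, b⟩, ?_⟩
    ext
    · exact ha
    · exact hb
  ker := by
    intro r hr
    have h1 : red p r.re = 0 := congrArg QuadraticAlgebra.re hr
    have h2 : red p r.im = 0 := congrArg QuadraticAlgebra.im hr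
    obtain ⟨a, ha⟩ := red_eq_zero h1
    obtain ⟨b, hb⟩ := red_eq_zero h2
    refine ⟨⟨a, b⟩, ?_⟩
    ext
    · rw [QuadraticAlgebra.re_mul, QuadraticAlgebra.re_natCast, QuadraticAlgebra.im_natCast, ha]
      ring
    · rw [QuadraticAlgebra.im_mul, QuadraticAlgebra.re_natCast, QuadraticAlgebra.im_natCast, hb]
      ring

/-- the integer values -/
theorem caseB_ee' (hph : p = 8 * h + 3) (hh : 0 < h) :
    ∃ c d : ℤ, (p : ℤ) = c ^ 2 + 2 * d ^ 2 ∧
      ee p h * (2 * (c : ZMod (p ^ 2))) = 4 * (c : ZMod (p ^ 2)) ^ 2 - (p : ZMod (p ^ 2)) := by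
  classical
  have hfact : Fact (∀ r : ZMod p, r ^ 2 ≠ -1 + 0 * r) := ⟨neg_one_nonsq hph⟩
  let i1 : Fintype (QuadraticAlgebra (ZMod p) (-1) 0) :=
    Fintype.ofEquiv _ (QuadraticAlgebra.equivProd (-1 : ZMod p) 0).symm
  have hF : Fintype.card (QuadraticAlgebra (ZMod p) (-1) 0) = p ^ 2 := by
    rw [Fintype.ofEquiv_card, Fintype.card_prod, ZMod.card, sq]
  have i2 : CharP (QuadraticAlgebra (ZMod p) (-1) 0) p := charP_of_injective_algebraMap
    (QuadraticAlgebra.algebraMap_injective (R := ZMod p) (a := -1) (b := 0)) p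
  obtain ⟨g, hg⟩ := IsCyclic.exists_generator (α := (QuadraticAlgebra (ZMod p) (-1) 0)ˣ)
  exact caseB_ee (liftQ p) hph hh QuadraticAlgebra.algebraMap_injective hF hg

end

end Pool.Agent.Helper6.Sun
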