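import Mathlib
import Pool.Agent.Helper6.Sun.CaseB2

/-!
The sum for `p = 8 h + 3` modulo `p ^ 2`.
-/

namespace Pool.Agent.Helper6.Sun

open Finset NumberTheorySymbols

set_option linter.unusedSectionVars false

variable {p h : ℕ} [hp : Fact p.Prime]

theorem qc_two (hph : p = 8 * h + 3) : quadraticChar (ZMod p) 2 = -1 := by
  rw [quadraticChar_two (ringChar_ne_two (by omega)), ZMod.card, ZMod.χ₈_nat_eq_if_mod_eight]
  rw [if_neg (by omega), if_neg (by omega)]

theorem qc_neg_one (hph : p = 8 * h + 3) : quadraticChar (ZMod p) (-1) = -1 := by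
  rw [quadraticChar_neg_one (ringChar_ne_two (by omega)), ZMod.card,
    ZMod.χ₄_nat_three_mod_four (by omega)]

theorem two_pow_red (hph : p = 8 * h + 3) : red p ((2 : ZMod (p ^ 2)) ^ (4 * h + 1)) = -1 := by
  have h1 := quadraticChar_eq_pow_of_char_ne_two' (F := ZMod p) (ringChar_ne_two (by omega)) 2
  rw [qc_two hph, ZMod.card, show p / 2 = 4 * h + 1 by omega] at h1
  rw [map_pow, map_ofNat, ← h1]
  norm_num

theorem sum_even_odd (f : ℕ → ℤ) (n : ℕ) :
    ∑ j ∈ range (2 * n), f j = ∑ k ∈ range n, f (2 * k) + ∑ k ∈ range n, f (2 * k + 1) := by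
  induction n with
  | zero => simp
  | succ n ih =>
    rw [show 2 * (n + 1) = 2 * n + 1 + 1 by ring, sum_range_succ, sum_range_succ, ih,
      sum_range_succ, sum_range_succ]
    ring

/-- the character sum over the first quarter -/
theorem quarter_sum (hph : p = 8 * h + 3) :
    ∑ j ∈ range (2 * h + 1), quadraticChar (ZMod p) ((j : ℕ) : ZMod p) = 0 := by
  have h1 := sum_even_odd (fun j => quadraticChar (ZMod p) ((j : ℕ) : ZMod p)) (2 * h + 1)
  have h2 : ∀ k ∈ range (2 * h + 1), quadraticChar (ZMod p) ((2 * k : ℕ) : ZMod p) =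
      -quadraticChar (ZMod p) ((k : ℕ) : ZMod p) := by
    intro k _
    push_cast
    rw [map_mul, qc_two hph]
    ring
  have h3 : ∀ k ∈ range (2 * h + 1), quadraticChar (ZMod p) ((2 * k + 1 : ℕ) : ZMod p) =
      quadraticChar (ZMod p) ((2 * h + 1 + (2 * h + 1 - 1 - k) : ℕ) : ZMod p) := by
    intro k hk
    rw [mem_range] at hk
    have e1 : ((2 * k + 1 : ℕ) : ZMod p) = (-1) * (2 * ((2 * h + 1 + (2 * h + 1 - 1 - k) : ℕ) : ZMod p)) := by
      have e2 : ((2 * k + 1 + 2 * (2 * h + 1 + (2 * h + 1 - 1 - k)) : ℕ) : ZMod p) = 0 := by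
        rw [show 2 * k + 1 + 2 * (2 * h + 1 + (2 * h + 1 - 1 - k)) = p by omega]
        exact ZMod.natCast_self p
      rw [Nat.cast_add, Nat.cast_mul 2] at e2
      rw [Nat.cast_ofNat] at e2
      linear_combination e2
    rw [e1, map_mul, map_mul, qc_two hph, qc_neg_one hph]
    ring
  rw [Finset.sum_congr rfl h2, Finset.sum_congr rfl h3,
    Finset.sum_range_reflect (fun j => quadraticChar (ZMod p) ((2 * h + 1 + j : ℕ) : ZMod p)) (2 * h + 1),
    two_mul, Finset.sum_range_add, Finset.sum_neg_distrib] at h1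
  linarith

theorem prod_signs (f : ℕ → ℤ) (m : ℕ) (hf : ∀ j < m, f j = 1 ∨ f j = -1) :
    ∃ k : ℕ, ∑ j ∈ range m, f j = m - 2 * k ∧ ∏ j ∈ range m, f j = (-1) ^ k := by
  induction m with
  | zero => exact ⟨0, by simp⟩
  | succ m ih =>
    obtain ⟨k, h1, h2⟩ := ih (fun j hj => hf j (by omega))
    rcases hf m (by omega) with h3 | h3
    · refine ⟨k, ?_, ?_⟩
      · rw [sum_range_succ, h1, h3]; push_cast; ring
      · rw [prod_range_succ, h2, h3, mul_one]
    · refine ⟨k + 1, ?_, ?_⟩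
      · rw [sum_range_succ, h1, h3]; push_cast; ring
      · rw [prod_range_succ, h2, h3, pow_succ]

theorem cast_ne_zero_of_lt {j : ℕ} (h0 : 0 < j) (hj : j < p) : ((j : ℕ) : ZMod p) ≠ 0 := by
  rw [ne_eq, ZMod.natCast_eq_zero_iff]
  exact Nat.not_dvd_of_pos_of_lt h0 hj

theorem factorial_ne_zero' {j : ℕ} (hj : j < p) : ((j.factorial : ℕ) : ZMod p) ≠ 0 := by
  rw [ne_eq, ZMod.natCast_eq_zero_iff, hp.out.dvd_factorial]
  omega

/-- the character of the factorial of the quarter -/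
theorem qc_factorial (hph : p = 8 * h + 3) :
    quadraticChar (ZMod p) (((2 * h).factorial : ℕ) : ZMod p) = (-1) ^ h := by
  obtain ⟨k, h1, h2⟩ := prod_signs (fun j => quadraticChar (ZMod p) ((j + 1 : ℕ) : ZMod p)) (2 * h)
    (fun j hj => quadraticChar_dichotomy (cast_ne_zero_of_lt (by omega) (by omega)))
  have h3 := quarter_sum hph
  rw [Finset.sum_range_succ', Nat.cast_zero, quadraticChar_zero, add_zero] at h3
  rw [h3] at h1
  have h4 : k = h := by push_cast at h1; omega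
  rw [← Finset.prod_range_add_one_eq_factorial, Nat.cast_prod, map_prod, h2, h4]

theorem wilson_refl : ∀ k, k < p → (((p - 1 - k).factorial : ℕ) : ZMod p) * ((k.factorial : ℕ) : ZMod p) =
    (-1) ^ (k + 1) := by
  intro k
  induction k with
  | zero =>
    intro _
    rw [Nat.sub_zero, Nat.factorial_zero, ZMod.wilsons_lemma]
    simp
  | succ k ih =>
    intro hk
    have h1 := ih (by omega)
    have h2 : p - 1 - k = (p - 1 - (k + 1)) + 1 := by omega
    have h3 : ((p - 1 - (k + 1) + 1 : ℕ) : ZMod p) = -((k + 1 : ℕ) : ZMod p) := by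
      have : ((p - 1 - (k + 1) + 1 + (k + 1) : ℕ) : ZMod p) = 0 := by
        rw [show p - 1 - (k + 1) + 1 + (k + 1) = p by omega]
        exact ZMod.natCast_self p
      rw [Nat.cast_add _ (k + 1)] at this
      linear_combination this
    rw [h2, Nat.factorial_succ, Nat.cast_mul, h3] at h1
    rw [Nat.factorial_succ k, Nat.cast_mul, pow_succ, ← h1]
    ring

/-- the sum is a quadratic residue -/
theorem qc_SR (hph : p = 8 * h + 3) :
    quadraticChar (ZMod p) (red p (SR (-(4 : ZMod (p ^ 2))⁻¹))) = 1 := by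
  obtain ⟨n, hn⟩ : ∃ n, n = 3 * h + 1 := ⟨_, rfl⟩
  rw [quarter_eq' hph, SR_eq _ (3 * h + 1) (by omega), ← hn, map_mul (red p), map_mul (red p),
    map_add (red p), map_mul (red p), map_mul (red p), red_p, zero_mul, zero_mul, map_one, add_zero,
    mul_one, map_mul, map_pow, map_neg, map_one, map_natCast, map_pow, qc_neg_one hph]
  have h1 := Nat.choose_mul_factorial_mul_factorial (show n ≤ 2 * n by omega)
  rw [show 2 * n - n = n by omega] at h1
  have h2 : ((Nat.choose (2 * n) n : ℕ) : ZMod p) * (n.factorial : ℕ) * (n.factorial : ℕ) =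
      (((2 * n).factorial : ℕ) : ZMod p) := by rw [← h1]; push_cast; ring
  have h3 := congrArg (quadraticChar (ZMod p)) h2
  rw [map_mul, map_mul, mul_assoc, ← sq, quadraticChar_sq_one (factorial_ne_zero' (by omega)),
    mul_one] at h3
  have h4 := wilson_refl (p := p) (2 * h) (by omega)
  rw [show p - 1 - 2 * h = 2 * n by omega] at h4
  have h5 := congrArg (quadraticChar (ZMod p)) h4
  rw [map_mul, map_pow, qc_neg_one hph, qc_factorial hph, ← h3] at h5
  have h6 : ((-1 : ℤ) ^ h) * (-1) ^ h = 1 := by rw [← mul_pow]; simp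
  have h7 : (-1 : ℤ) ^ n = -((-1) ^ h * ((-1) ^ h * (-1) ^ h)) := by
    rw [hn, pow_add, mul_comm, pow_mul]
    rw [← pow_add, ← pow_add]
    have : (-1 : ℤ) ^ (h + (h + h)) = ((-1) ^ 3) ^ h := by rw [← pow_mul]; congr 1; ring
    rw [this]; ring
  have h8 : (-1 : ℤ) ^ (2 * h + 1) = -1 := by rw [pow_succ, pow_mul]; simp
  rw [h8] at h5
  rw [h7, h6]
  linear_combination (-1 : ℤ) * h5

theorem odd_y (hph : p = 8 * h + 3) {x y : ℕ} (hxy : p = x ^ 2 + 2 * y ^ 2) : y % 2 = 1 := by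
  have hx := odd_x (by omega) hxy
  have h1 := sq_mod_eight hx
  by_contra hc
  have hy : y % 2 = 0 := by omega
  obtain ⟨z, hz⟩ : ∃ z, y = 2 * z := ⟨y / 2, by omega⟩
  rw [hz, mul_pow] at hxy
  omega

theorem qc_y (hph : p = 8 * h + 3) {x y : ℕ} (hxy : p = x ^ 2 + 2 * y ^ 2) :
    quadraticChar (ZMod p) ((y : ℕ) : ZMod p) = (-1) ^ ((y - 1) / 2) := by
  have hy := odd_y hph hxy
  have hcop := coprime_of_eq hxy
  have h1 : quadraticChar (ZMod p) ((y : ℕ) : ZMod p) = J((y : ℤ) | p) := by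
    rw [← jacobiSym.legendreSym.to_jacobiSym]
    unfold legendreSym
    rw [Int.cast_natCast]
  have h2 : J((p : ℤ) | y) = 1 := by
    have h3 : ((p : ℕ) : ℤ) % y = ((x : ℤ) ^ 2) % y := by
      rw [hxy]
      push_cast
      rw [show (x : ℤ) ^ 2 + 2 * (y : ℤ) ^ 2 = (x : ℤ) ^ 2 + y * (2 * y) by ring,
        Int.add_mul_emod_self_left]
    rw [jacobiSym.mod_left' h3]
    apply jacobiSym.sq_one'
    rw [Int.gcd_natCast_natCast]
    exact hcop
  rw [h1]
  have h4 : y % 4 = 1 ∨ y % 4 = 3 := by omega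
  rcases h4 with h5 | h5
  · rw [jacobiSym.quadratic_reciprocity_one_mod_four h5 (Nat.odd_iff.mpr (by omega)), h2]
    have : Even ((y - 1) / 2) := by rw [Nat.even_iff]; omega
    rw [this.neg_one_pow]
  · rw [jacobiSym.quadratic_reciprocity_three_mod_four h5 (by omega), h2]
    have : Odd ((y - 1) / 2) := by rw [Nat.odd_iff]; omega
    rw [this.neg_one_pow]

/-- the result for natural numbers -/
theorem caseB_nat (hph : p = 8 * h + 3) {x y : ℕ} (hxy : p = x ^ 2 + 2 * y ^ 2) :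
    SR (-(4 : ZMod (p ^ 2))⁻¹) * (2 * (y : ZMod (p ^ 2))) =
      (((-1) ^ ((y - 1) / 2) : ℤ) : ZMod (p ^ 2)) * (8 * (y : ZMod (p ^ 2)) ^ 2 - (p : ZMod (p ^ 2))) := by
  have hp2 : p ≠ 2 := by omega
  have hpp := p_mul_p (p := p)
  have hy0 := y_ne_zero hxy
  have hyp : y < p := by nlinarith
  have hyu : ((y : ℕ) : ZMod p) ≠ 0 := cast_ne_zero_of_lt (by omega) hyp
  have h2u := two_ne_zero' (p := p) hp2
  obtain ⟨A, hA⟩ : ∃ A, A = SR (-(4 : ZMod (p ^ 2))⁻¹) * (2 * (y : ZMod (p ^ 2))) := ⟨_, rfl⟩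
  obtain ⟨B, hB⟩ : ∃ B, B = 8 * (y : ZMod (p ^ 2)) ^ 2 - (p : ZMod (p ^ 2)) := ⟨_, rfl⟩
  have hsq : A ^ 2 = B ^ 2 := by
    rcases Nat.eq_zero_or_pos h with h0 | hpos
    · subst h0
      have hy1 : y = 1 := by
        have h12 : y ^ 2 ≤ 1 := by omega
        have h13 : y ≤ 1 := by nlinarith
        omega
      have h9 : (9 : ZMod (p ^ 2)) = 0 := by
        have h10 := hpp
        have h11 : (p : ZMod (p ^ 2)) = 3 := by
          have : ((p : ℕ) : ZMod (p ^ 2)) = ((8 * 0 + 3 : ℕ) : ZMod (p ^ 2)) := by rw [← hph]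
          rw [this]; norm_num
        rw [h11] at h10
        rw [← h10]; norm_num
      have h11 : (p : ZMod (p ^ 2)) = 3 := by
        have : ((p : ℕ) : ZMod (p ^ 2)) = ((8 * 0 + 3 : ℕ) : ZMod (p ^ 2)) := by rw [← hph]
        rw [this]; norm_num
      have hSR : SR (-(4 : ZMod (p ^ 2))⁻¹) = -2 := by
        rw [quarter_eq' hph, SR_eq _ (3 * 0 + 1) (by omega), h11]
        norm_num
        linear_combination (-2 * (4 : ZMod (p ^ 2))⁻¹ * (H p 2 - H p 1)) * h9
      rw [hA, hB, hSR, hy1, h11]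
      push_cast
      linear_combination (-1) * h9
    · obtain ⟨c, d, hcd, hee⟩ := caseB_ee' hph hpos
      have hxyZ : (p : ℤ) = (x : ℤ) ^ 2 + 2 * (y : ℤ) ^ 2 := by
        have : (p : ℤ) = ((x ^ 2 + 2 * y ^ 2 : ℕ) : ℤ) := by rw [← hxy]
        rw [this]; push_cast; ring
      obtain ⟨hcx, hdy⟩ := unique_rep hxyZ hcd
      have hSR2 := SR_sq_eq hph (two_pow_red hph)
      have hnR : 2 * (y : ZMod (p ^ 2)) ^ 2 = (p : ZMod (p ^ 2)) - (c : ZMod (p ^ 2)) ^ 2 := by
        have : ((p : ℤ) : ZMod (p ^ 2)) = ((c ^ 2 + 2 * (y : ℤ) ^ 2 : ℤ) : ZMod (p ^ 2)) := by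
          rw [hcx, ← hxyZ]
        push_cast at this
        linear_combination -this
      obtain ⟨C, hC⟩ : ∃ C, C = (c : ZMod (p ^ 2)) := ⟨_, rfl⟩
      obtain ⟨E, hE⟩ : ∃ E, E = ee p h := ⟨_, rfl⟩
      obtain ⟨Y, hY⟩ : ∃ Y, Y = (y : ZMod (p ^ 2)) := ⟨_, rfl⟩
      obtain ⟨S, hS⟩ : ∃ S, S = SR (-(4 : ZMod (p ^ 2))⁻¹) := ⟨_, rfl⟩
      obtain ⟨P, hP⟩ : ∃ P, P = (p : ZMod (p ^ 2)) := ⟨_, rfl⟩
      rw [← hC, ← hP] at hnR hee
      rw [← hE] at hee hSR2
      rw [← hY] at hnR hA hB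
      rw [← hP] at hB hpp
      rw [← hS] at hA hSR2
      have hxu : IsUnit ((x : ℕ) : ZMod (p ^ 2)) := by
        apply isUnit_natCast
        apply Nat.not_dvd_of_pos_of_lt
        · have := odd_x hp2 hxy
          omega
        · nlinarith
      have hCu : IsUnit C := by
        have h1 : C * C = ((x : ℕ) : ZMod (p ^ 2)) * ((x : ℕ) : ZMod (p ^ 2)) := by
          have : ((c ^ 2 : ℤ) : ZMod (p ^ 2)) = (((x : ℤ) ^ 2 : ℤ) : ZMod (p ^ 2)) := by rw [hcx]
          push_cast at this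
          rw [hC]
          linear_combination this
        have h2 : IsUnit (C * C) := by rw [h1]; exact hxu.mul hxu
        exact isUnit_of_mul_isUnit_left h2
      have hPE : P * E = 2 * P * C := by
        have h2 := two_unit (p := p) hp2
        apply (h2.mul hCu).mul_left_cancel
        linear_combination P * hee - hpp
      have e1 : P * E ^ 2 = 4 * P * C ^ 2 := by
        linear_combination (E + 2 * C) * hPE
      rw [hA, hB]
      linear_combination (4 * Y ^ 2) * hSR2 - (4 * E ^ 2 + 4 * (8 * Y ^ 2 - P) + 4 * (3 * P - 4 * C ^ 2)) * hnR +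
        (E * (2 * C) + (4 * C ^ 2 - P)) * hee - 4 * e1 - 8 * hpp
  have hredA : red p A = red p (SR (-(4 : ZMod (p ^ 2))⁻¹)) * (2 * ((y : ℕ) : ZMod p)) := by
    rw [hA, map_mul, map_mul, map_ofNat, map_natCast]
  have hredB : red p B = 2 ^ 3 * ((y : ℕ) : ZMod p) ^ 2 := by
    rw [hB, map_sub, red_p, map_mul, map_pow, map_natCast, map_ofNat, sub_zero]
    norm_num
  have hqA : quadraticChar (ZMod p) (red p A) = -quadraticChar (ZMod p) ((y : ℕ) : ZMod p) := by
    rw [hredA, map_mul, map_mul, qc_SR hph, qc_two hph]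
    ring
  have hqB : quadraticChar (ZMod p) (red p B) = -1 := by
    rw [hredB, map_mul, map_pow, map_pow, qc_two hph, quadraticChar_sq_one hyu]
    norm_num
  have hB0 : red p B ≠ 0 := by
    rw [hredB]
    exact mul_ne_zero (pow_ne_zero _ h2u) (pow_ne_zero _ hyu)
  have hsq' : (red p A) ^ 2 = (red p B) ^ 2 := by rw [← map_pow, ← map_pow, hsq]
  have hprod : (A - B) * (A + B) = 0 := by linear_combination hsq
  rw [← hA, ← hB, ← qc_y hph hxy]
  rcases sq_eq_sq_iff_eq_or_eq_neg.mp hsq' with h1 | h1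
  · have h2 : quadraticChar (ZMod p) ((y : ℕ) : ZMod p) = 1 := by
      rw [h1, hqB] at hqA
      omega
    have h3 : IsUnit (A + B) := by
      apply isUnit_of_red
      rw [map_add, h1, ← two_mul]
      exact mul_ne_zero h2u hB0
    rw [h2]
    have h4 := h3.mul_left_eq_zero.mp hprod
    push_cast
    linear_combination h4
  · have h2 : quadraticChar (ZMod p) ((y : ℕ) : ZMod p) = -1 := by
      rw [h1, neg_eq_neg_one_mul, map_mul, hqB, qc_neg_one hph] at hqA
      omega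
    have h3 : IsUnit (A - B) := by
      apply isUnit_of_red
      rw [map_sub, h1]
      have : -red p B - red p B = -(2 * red p B) := by ring
      rw [this]
      exact neg_ne_zero.mpr (mul_ne_zero h2u hB0)
    rw [h2]
    have h4 := h3.mul_right_eq_zero.mp hprod
    push_cast
    linear_combination h4

/-- the result for `p = 8 h + 3` -/
theorem caseB_final (hph : p = 8 * h + 3) (x y : ℤ) (hxy : (p : ℤ) = x ^ 2 + 2 * y ^ 2) :
    ∃ sg : ℤ, (-1 : ℚ) ^ ((y - 1) / 2) = sg ∧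
      SR (-(4 : ZMod (p ^ 2))⁻¹) * (2 * (y : ZMod (p ^ 2))) =
        (sg : ZMod (p ^ 2)) * (8 * (y : ZMod (p ^ 2)) ^ 2 - (p : ZMod (p ^ 2))) := by
  obtain ⟨X, hX⟩ : ∃ X : ℕ, X = x.natAbs := ⟨_, rfl⟩
  obtain ⟨Y, hY⟩ : ∃ Y : ℕ, Y = y.natAbs := ⟨_, rfl⟩
  have hXx : (X : ℤ) ^ 2 = x ^ 2 := by rw [hX]; exact Int.natAbs_sq x
  have hYy : (Y : ℤ) ^ 2 = y ^ 2 := by rw [hY]; exact Int.natAbs_sq y
  have hXY : p = X ^ 2 + 2 * Y ^ 2 := by
    have : (p : ℤ) = (X : ℤ) ^ 2 + 2 * (Y : ℤ) ^ 2 := by rw [hXx, hYy]; exact hxy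
    exact_mod_cast this
  have hYodd := odd_y hph hXY
  have hmain := caseB_nat hph hXY
  have hyY : y = Y ∨ y = -Y := by rw [hY]; omega
  have hY4 : Y % 4 = 1 ∨ Y % 4 = 3 := by omega
  rcases hyY with h1 | h1
  · refine ⟨(-1) ^ ((Y - 1) / 2), ?_, ?_⟩
    · rcases hY4 with h2 | h2
      · have e1 : Even ((y - 1) / 2) := by rw [Int.even_iff]; omega
        have e2 : Even ((Y - 1) / 2) := by rw [Nat.even_iff]; omega
        rw [e1.neg_one_zpow, e2.neg_one_pow]; norm_num
      · have e1 : Odd ((y - 1) / 2) := by rw [Int.odd_iff]; omega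
        have e2 : Odd ((Y - 1) / 2) := by rw [Nat.odd_iff]; omega
        rw [e1.neg_one_zpow, e2.neg_one_pow]; norm_num
    · rw [h1, Int.cast_natCast]
      exact hmain
  · refine ⟨-(-1) ^ ((Y - 1) / 2), ?_, ?_⟩
    · rcases hY4 with h2 | h2
      · have e1 : Odd ((y - 1) / 2) := by rw [Int.odd_iff]; omega
        have e2 : Even ((Y - 1) / 2) := by rw [Nat.even_iff]; omega
        rw [e1.neg_one_zpow, e2.neg_one_pow]; norm_num
      · have e1 : Even ((y - 1) / 2) := by rw [Int.even_iff]; omega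
        have e2 : Odd ((Y - 1) / 2) := by rw [Nat.odd_iff]; omega
        rw [e1.neg_one_zpow, e2.neg_one_pow]; norm_num
    · rw [h1]
      push_cast at hmain ⊢
      linear_combination -hmain

end Pool.Agent.Helper6.Sun
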