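import Mathlib
import Pool.Agent.Helper6.Sun.CaseB3

/-!
Transfer between `ZMod (p ^ 2)` and the rational numbers with denominator prime to `p`.
-/

namespace Pool.Agent.Helper6.Sun

open Finset

set_option linter.unusedSectionVars false

variable {p : ℕ} [hp : Fact p.Prime]

/-- `r` represents the rational number `q` modulo `p ^ 2` -/
def Rep (p : ℕ) (q : ℚ) (r : ZMod (p ^ 2)) : Prop :=
  ∃ A B : ℤ, ¬ (p : ℤ) ∣ B ∧ q = (A : ℚ) / B ∧ r * (B : ZMod (p ^ 2)) = (A : ZMod (p ^ 2))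

theorem Rep.ne {B : ℤ} (h : ¬ (p : ℤ) ∣ B) : (B : ℚ) ≠ 0 := by
  intro h0
  apply h
  have : B = 0 := by exact_mod_cast h0
  rw [this]
  exact dvd_zero _

theorem Rep.intCast (n : ℤ) : Rep p (n : ℚ) (n : ZMod (p ^ 2)) := by
  refine ⟨n, 1, ?_, by norm_num, by push_cast; ring⟩
  intro h
  have h1 := Int.natCast_dvd_natCast.mp (by exact_mod_cast h : ((p : ℕ) : ℤ) ∣ ((1 : ℕ) : ℤ))
  exact hp.out.one_lt.ne' (Nat.dvd_one.mp h1)

theorem prime_int : Prime (p : ℤ) := Nat.prime_iff_prime_int.mp hp.out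

theorem Rep.mul {q q' : ℚ} {r r' : ZMod (p ^ 2)} (h : Rep p q r) (h' : Rep p q' r') :
    Rep p (q * q') (r * r') := by
  obtain ⟨A, B, hB, hq, hr⟩ := h
  obtain ⟨A', B', hB', hq', hr'⟩ := h'
  refine ⟨A * A', B * B', ?_, ?_, ?_⟩
  · intro hd
    rcases prime_int.dvd_or_dvd hd with h1 | h1
    · exact hB h1
    · exact hB' h1
  · have h1 := Rep.ne hB
    have h2 := Rep.ne hB'
    rw [hq, hq']
    push_cast
    field_simp
  · push_cast
    rw [← hr, ← hr']
    ring

theorem Rep.add {q q' : ℚ} {r r' : ZMod (p ^ 2)} (h : Rep p q r) (h' : Rep p q' r') :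
    Rep p (q + q') (r + r') := by
  obtain ⟨A, B, hB, hq, hr⟩ := h
  obtain ⟨A', B', hB', hq', hr'⟩ := h'
  refine ⟨A * B' + A' * B, B * B', ?_, ?_, ?_⟩
  · intro hd
    rcases prime_int.dvd_or_dvd hd with h1 | h1
    · exact hB h1
    · exact hB' h1
  · have h1 := Rep.ne hB
    have h2 := Rep.ne hB'
    rw [hq, hq']
    push_cast
    field_simp
  · push_cast
    rw [← hr, ← hr']
    ring

theorem Rep.neg {q : ℚ} {r : ZMod (p ^ 2)} (h : Rep p q r) : Rep p (-q) (-r) := by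
  have := (Rep.intCast (p := p) (-1)).mul h
  push_cast at this
  rwa [neg_one_mul, neg_one_mul] at this

theorem Rep.sub {q q' : ℚ} {r r' : ZMod (p ^ 2)} (h : Rep p q r) (h' : Rep p q' r') :
    Rep p (q - q') (r - r') := by
  rw [sub_eq_add_neg, sub_eq_add_neg]
  exact h.add h'.neg

theorem Rep.zero : Rep p 0 0 := by
  have := Rep.intCast (p := p) 0
  push_cast at this
  exact this

theorem Rep.one : Rep p 1 1 := by
  have := Rep.intCast (p := p) 1
  push_cast at this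
  exact this

theorem Rep.pow {q : ℚ} {r : ZMod (p ^ 2)} (h : Rep p q r) (n : ℕ) : Rep p (q ^ n) (r ^ n) := by
  induction n with
  | zero => rw [pow_zero, pow_zero]; exact Rep.one
  | succ n ih => rw [pow_succ, pow_succ]; exact ih.mul h

theorem Rep.sum {q : ℕ → ℚ} {r : ℕ → ZMod (p ^ 2)} (n : ℕ) (h : ∀ i < n, Rep p (q i) (r i)) :
    Rep p (∑ i ∈ range n, q i) (∑ i ∈ range n, r i) := by
  induction n with
  | zero => rw [sum_range_zero, sum_range_zero]; exact Rep.zero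
  | succ n ih =>
    rw [sum_range_succ, sum_range_succ]
    exact (ih fun i hi => h i (by omega)).add (h n (by omega))

theorem Rep.prod {q : ℕ → ℚ} {r : ℕ → ZMod (p ^ 2)} (n : ℕ) (h : ∀ i < n, Rep p (q i) (r i)) :
    Rep p (∏ i ∈ range n, q i) (∏ i ∈ range n, r i) := by
  induction n with
  | zero => rw [prod_range_zero, prod_range_zero]; exact Rep.one
  | succ n ih =>
    rw [prod_range_succ, prod_range_succ]
    exact (ih fun i hi => h i (by omega)).mul (h n (by omega))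

theorem Rep.inv_nat {m : ℕ} (h : ¬ p ∣ m) : Rep p ((m : ℚ)⁻¹) ((m : ZMod (p ^ 2))⁻¹) := by
  refine ⟨1, m, ?_, ?_, ?_⟩
  · intro hd
    exact h (Int.natCast_dvd_natCast.mp hd)
  · push_cast
    rw [one_div]
  · push_cast
    exact ZMod.inv_mul_of_unit _ (isUnit_natCast h)

/-- equal representatives give congruent rational numbers -/
theorem Rep.congr {q q' : ℚ} {r : ZMod (p ^ 2)} (h : Rep p q r) (h' : Rep p q' r) :
    Nat.Coprime p ((q - q') / (p : ℚ) ^ 2).den := by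
  have h1 := h.sub h'
  rw [sub_self] at h1
  obtain ⟨A, B, hB, hq, hr⟩ := h1
  rw [zero_mul] at hr
  have h2 : ((p ^ 2 : ℕ) : ℤ) ∣ A := (ZMod.intCast_zmod_eq_zero_iff_dvd _ _).mp hr.symm
  obtain ⟨C, hC⟩ := h2
  have hp0 : (p : ℚ) ≠ 0 := by exact_mod_cast hp.out.ne_zero
  have h3 : (q - q') / (p : ℚ) ^ 2 = (C : ℚ) / B := by
    have h4 := Rep.ne hB
    rw [hq, hC]
    push_cast
    field_simp
  rw [h3, Nat.Prime.coprime_iff_not_dvd hp.out]
  intro hd
  apply hB
  have h5 := Rat.den_dvd C B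
  rw [Rat.divInt_eq_div] at h5
  exact (Int.natCast_dvd_natCast.mpr hd).trans h5

/-- congruent rational numbers have the same representative -/
theorem Rep.of_congr {q q' : ℚ} {r : ZMod (p ^ 2)} (h : Rep p q r)
    (hc : Nat.Coprime p ((q - q') / (p : ℚ) ^ 2).den) : Rep p q' r := by
  obtain ⟨w, hw⟩ : ∃ w : ℚ, w = (q - q') / (p : ℚ) ^ 2 := ⟨_, rfl⟩
  rw [← hw, Nat.Prime.coprime_iff_not_dvd hp.out] at hc
  have hp0 : (p : ℚ) ≠ 0 := by exact_mod_cast hp.out.ne_zero
  have hrep : Rep p w ((w.num : ZMod (p ^ 2)) * ((w.den : ℕ) : ZMod (p ^ 2))⁻¹) := by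
    have h1 := (Rep.intCast (p := p) w.num).mul (Rep.inv_nat (p := p) hc)
    rw [← div_eq_mul_inv, Rat.num_div_den] at h1
    exact h1
  have h2 := h.sub (((Rep.intCast (p := p) (p : ℤ)).pow 2).mul hrep)
  have h3 : ((((p : ℕ) : ℤ) : ℤ) : ZMod (p ^ 2)) ^ 2 = 0 := by
    rw [Int.cast_natCast]; exact p_sq_zero
  rw [h3, zero_mul, sub_zero] at h2
  have h4 : q - (((p : ℕ) : ℤ) : ℚ) ^ 2 * w = q' := by
    rw [hw, Int.cast_natCast]
    field_simp
    ring
  rw [h4] at h2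
  exact h2

/-- a unit cannot represent opposite numbers -/
theorem Rep.absurd_neg (hp2 : p ≠ 2) {q : ℚ} {r : ZMod (p ^ 2)} (hr : IsUnit r) (h : Rep p q r)
    (h' : Rep p (-q) r) : False := by
  obtain ⟨A, B, hB, hq, hAB⟩ := h.add h'
  have h1 := Rep.ne hB
  have hA : A = 0 := by
    rw [add_neg_cancel] at hq
    have : (A : ℚ) = 0 := by
      field_simp at hq
      linarith
    exact_mod_cast this
  rw [hA, Int.cast_zero] at hAB
  have hBu : IsUnit (B : ZMod (p ^ 2)) := by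
    apply isUnit_of_red
    rw [map_intCast, ne_eq, ZMod.intCast_zmod_eq_zero_iff_dvd]
    exact hB
  have h2 : (2 : ZMod (p ^ 2)) * r * B = 0 := by rw [← hAB]; ring
  have h3 : IsUnit ((2 : ZMod (p ^ 2)) * r * B) := ((two_unit hp2).mul hr).mul hBu
  rw [h2] at h3
  have h4 := red_of_isUnit h3
  rw [map_zero] at h4
  exact h4 rfl

/-- representatives which vanish modulo `p` -/
theorem Rep.congr_one {q : ℚ} {r : ZMod (p ^ 2)} (h : Rep p q r) (h' : red p r = 0) :
    Nat.Coprime p ((q - 0) / (p : ℚ) ^ 1).den := by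
  obtain ⟨A, B, hB, hq, hr⟩ := h
  have h1 : ((A : ℤ) : ZMod p) = 0 := by
    have := congrArg (red p) hr
    rw [map_mul, h', zero_mul, map_intCast] at this
    exact this.symm
  obtain ⟨C, hC⟩ := (ZMod.intCast_zmod_eq_zero_iff_dvd _ _).mp h1
  have hp0 : (p : ℚ) ≠ 0 := by exact_mod_cast hp.out.ne_zero
  have h3 : (q - 0) / (p : ℚ) ^ 1 = (C : ℚ) / B := by
    have h4 := Rep.ne hB
    rw [hq, hC]
    push_cast
    field_simp
    ring
  rw [h3, Nat.Prime.coprime_iff_not_dvd hp.out]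
  intro hd
  apply hB
  have h5 := Rat.den_dvd C B
  rw [Rat.divInt_eq_div] at h5
  exact (Int.natCast_dvd_natCast.mpr hd).trans h5

theorem Rep.quarter (hp2 : p ≠ 2) : Rep p (-1 / 4) (-(4 : ZMod (p ^ 2))⁻¹) := by
  have h4 : ¬ p ∣ 4 := by
    intro h
    have h5 : p ∣ 2 ^ 2 := by norm_num; exact h
    exact hp2 ((Nat.prime_dvd_prime_iff_eq hp.out Nat.prime_two).mp (hp.out.dvd_of_dvd_pow h5))
  have := (Rep.inv_nat (p := p) h4).neg
  push_cast at this
  rw [show (-1 / 4 : ℚ) = -(4 : ℚ)⁻¹ by norm_num]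
  exact this

theorem Rep.binom {a : ℚ} {r : ZMod (p ^ 2)} (h : Rep p a r) {k : ℕ} (hk : k < p) :
    Rep p ((∏ i ∈ Finset.range k, (a - (i : ℚ))) / (k.factorial : ℚ)) (gb r k) := by
  rw [div_eq_mul_inv]
  unfold gb
  apply Rep.mul
  · apply Rep.prod
    intro i _
    apply h.sub
    have := Rep.intCast (p := p) (i : ℤ)
    push_cast at this
    exact this
  · apply Rep.inv_nat
    rw [hp.out.dvd_factorial]
    omega

theorem Rep.S {a : ℚ} {r : ZMod (p ^ 2)} (h : Rep p a r) :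
    Rep p (∑ k ∈ Finset.range p, (-1) ^ k *
      ((∏ i ∈ Finset.range k, (a - (i : ℚ))) / (k.factorial : ℚ)) ^ 2) (SR r) := by
  unfold SR
  apply Rep.sum
  intro k hk
  apply Rep.mul
  · exact (Rep.one.neg).pow k
  · exact (h.binom hk).pow 2

/-- vanishing for odd `m` -/
theorem alt_sq_sum {m : ℕ} (hm : Odd m) {R : Type*} [CommRing R] (h2 : IsUnit (2 : R)) :
    ∑ k ∈ range (m + 1), (-1 : R) ^ k * ((Nat.choose m k : ℕ) : R) ^ 2 = 0 := by
  have h1 : ∑ k ∈ range (m + 1), (-1 : R) ^ k * ((Nat.choose m k : ℕ) : R) ^ 2 =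
      -∑ k ∈ range (m + 1), (-1 : R) ^ k * ((Nat.choose m k : ℕ) : R) ^ 2 := by
    conv_lhs => rw [← Finset.sum_range_reflect]
    rw [← Finset.sum_neg_distrib]
    apply Finset.sum_congr rfl
    intro k hk
    rw [mem_range] at hk
    have e1 : m + 1 - 1 - k = m - k := by omega
    rw [e1, Nat.choose_symm (by omega)]
    have e2 : (-1 : R) ^ (m - k) * (-1) ^ k = -1 := by
      rw [← pow_add, Nat.sub_add_cancel (by omega), hm.neg_one_pow]
    have e3 : (-1 : R) ^ k * (-1) ^ k = 1 := by rw [← mul_pow]; simp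
    linear_combination ((Nat.choose m k : ℕ) : R) ^ 2 * (-1 : R) ^ k * e2 -
      ((Nat.choose m k : ℕ) : R) ^ 2 * (-1 : R) ^ (m - k) * e3
  apply h2.mul_left_cancel
  rw [mul_zero]
  linear_combination h1

theorem red_gb {a : ZMod (p ^ 2)} {m : ℕ} (ha : red p a = (m : ZMod p)) {k : ℕ} (hk : k < p) :
    red p (gb a k) = ((Nat.choose m k : ℕ) : ZMod p) := by
  have hu := isUnit_factorial (p := p) hk
  have h1 : red p (gb a k) * ((k.factorial : ℕ) : ZMod p) =
      ((Nat.choose m k : ℕ) : ZMod p) * ((k.factorial : ℕ) : ZMod p) := by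
    have h2 : gb a k * ((k.factorial : ℕ) : ZMod (p ^ 2)) = ∏ i ∈ range k, (a - i) := by
      unfold gb
      rw [mul_assoc, ZMod.inv_mul_of_unit _ hu, mul_one]
    have h3 := congrArg (red p) h2
    rw [map_mul, map_natCast, map_prod] at h3
    rw [h3]
    have h4 : ∀ k, ∏ i ∈ range k, red p (a - (i : ZMod (p ^ 2))) = ((m.descFactorial k : ℕ) : ZMod p) := by
      intro k
      induction k with
      | zero => simp
      | succ k ih =>
        rw [prod_range_succ, ih, Nat.descFactorial_succ, map_sub, ha, map_natCast]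
        rcases Nat.lt_or_ge m k with h5 | h5
        · rw [Nat.descFactorial_eq_zero_iff_lt.mpr h5]
          simp
        · rw [Nat.cast_mul, Nat.cast_sub h5]
          ring
    rw [h4, Nat.descFactorial_eq_factorial_mul_choose]
    push_cast
    ring
  exact mul_right_cancel₀ (factorial_ne_zero' hk) h1

theorem red_SR_zero (hp2 : p ≠ 2) {a : ZMod (p ^ 2)} {m : ℕ} (hm : Odd m) (hmp : m < p)
    (ha : red p a = (m : ZMod p)) : red p (SR a) = 0 := by
  unfold SR
  rw [map_sum]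
  have h1 : ∀ k ∈ range p, red p ((-1) ^ k * gb a k ^ 2) =
      (-1) ^ k * ((Nat.choose m k : ℕ) : ZMod p) ^ 2 := by
    intro k hk
    rw [mem_range] at hk
    rw [map_mul, map_pow, map_pow, map_neg, map_one, red_gb ha hk]
  rw [Finset.sum_congr rfl h1]
  have h2 : ∑ k ∈ range (m + 1), (-1 : ZMod p) ^ k * ((Nat.choose m k : ℕ) : ZMod p) ^ 2 =
      ∑ k ∈ range p, (-1 : ZMod p) ^ k * ((Nat.choose m k : ℕ) : ZMod p) ^ 2 := by
    apply Finset.sum_subset
    · intro k hk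
      rw [mem_range] at hk ⊢
      omega
    · intro k _ hk
      rw [mem_range] at hk
      rw [Nat.choose_eq_zero_of_lt (by omega)]
      simp
  rw [← h2]
  exact alt_sq_sum hm (isUnit_iff_ne_zero.mpr (two_ne_zero' hp2))

/-- the classes five and seven -/
theorem caseC (h : p % 8 = 5 ∨ p % 8 = 7) : red p (SR (-(4 : ZMod (p ^ 2))⁻¹)) = 0 := by
  have hp2 : p ≠ 2 := by omega
  have h4 := congrArg (red p) (four_inv (p := p) hp2)
  rw [map_mul, map_ofNat, map_one] at h4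
  have hp0 : ((p : ℕ) : ZMod p) = 0 := ZMod.natCast_self p
  rcases h with h | h
  · obtain ⟨k, hk⟩ : ∃ k, p = 8 * k + 5 := ⟨p / 8, by omega⟩
    apply red_SR_zero hp2 (m := 2 * k + 1) ⟨k, rfl⟩ (by omega)
    rw [map_neg]
    have h5 : (4 : ZMod p) * ((2 * k + 1 : ℕ) : ZMod p) + 1 = 0 := by
      rw [← hp0]
      have : ((p : ℕ) : ZMod p) = ((8 * k + 5 : ℕ) : ZMod p) := by rw [← hk]
      rw [this]; push_cast; ring
    linear_combination (-(red p (4 : ZMod (p ^ 2))⁻¹)) * h5 + ((2 * k + 1 : ℕ) : ZMod p) * h4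
  · obtain ⟨k, hk⟩ : ∃ k, p = 8 * k + 7 := ⟨p / 8, by omega⟩
    apply red_SR_zero hp2 (m := 6 * k + 5) ⟨3 * k + 2, by ring⟩ (by omega)
    rw [map_neg]
    have h5 : (4 : ZMod p) * ((6 * k + 5 : ℕ) : ZMod p) + 1 = 0 := by
      have : ((p : ℕ) : ZMod p) = ((8 * k + 7 : ℕ) : ZMod p) := by rw [← hk]
      rw [hp0] at this
      push_cast at this ⊢
      linear_combination (-3 : ZMod p) * this
    linear_combination (-(red p (4 : ZMod (p ^ 2))⁻¹)) * h5 + ((6 * k + 5 : ℕ) : ZMod p) * h4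

end Pool.Agent.Helper6.Sun
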